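import Pool.Agent.Lib.MP_c05f82_nt.LG.Defs

/-!
Principal congruence subgroups: closure, reduction, leading terms.
-/

open scoped commutatorElement

namespace Pool.Agent.Lib.MP_c05f82_nt.LG

open Pool.Agent.Lib.MP_c05f82_nt.GC

variable {K : Type} [Field K]

namespace Dt

variable {D : Dt K}

theorem co_mul {k : ℕ} {x y : K} (hx : D.L 0 x) (hy : D.L k y) :
    D.co k (x * y) = D.co 0 x * D.co k y := by
  obtain ⟨r, h1, e1⟩ := hx.exists_co
  obtain ⟨s, h2, e2⟩ := hy.exists_co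
  rw [e1, e2, co_eq (r := r * s) (((h1.mul hy (k := k + 1) (by omega)).add
    ((L.int r).mul h2 (by omega))).of_eq (by push_cast; ring)), Int.cast_mul]

theorem co_neg {k : ℕ} {x : K} (hx : D.L k x) : D.co k (-x) = -D.co k x := by
  obtain ⟨r, h1, e1⟩ := hx.exists_co
  rw [e1, co_eq (r := -r) (h1.neg.of_eq (by push_cast; ring)), Int.cast_neg]

theorem co_int (r : ℤ) : D.co 0 r = r := by
  exact co_eq ((L.zero _).of_eq (by simp))

theorem filt_co_zero (k : ℕ) : D.co k 0 = 0 :=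
  (co_eq_zero_iff (L.zero k)).2 (L.zero _)

theorem filt_co_one : D.co 0 1 = 1 := by simpa using co_int (D := D) 1

theorem filt_co_nat (r : ℕ) : D.co 0 r = r := by simpa using co_int (D := D) r

theorem filt_co_val (s : F7) : D.co 0 (s.val : K) = s := by
  rw [filt_co_nat, ZMod.natCast_zmod_val]

theorem filt_co_sub {k : ℕ} {x y : K} (hx : D.L k x) (hy : D.L k y) :
    D.co k (x - y) = D.co k x - D.co k y := by
  rw [sub_eq_add_neg, co_add hx hy.neg, co_neg hy, sub_eq_add_neg]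

theorem filt_co_p {k : ℕ} {x : K} (hx : D.L k x) : D.co (k + 1) (D.p * x) = D.co k x := by
  obtain ⟨r, h1, e1⟩ := hx.exists_co
  rw [e1, co_eq (r := r) (h1.mul_p.of_eq (by ring))]

theorem filt_co_pow (k : ℕ) (s : F7) : D.co k ((s.val : K) * D.p ^ k) = s := by
  rw [co_mul (L.nat _) (L.pow k), filt_co_val, co_pow, mul_one]

theorem L.unit {x : K} (hx : D.L 0 x) (h : D.co 0 x ≠ 0) : x ≠ 0 ∧ D.L 0 x⁻¹ := by
  obtain ⟨r, h1, e1⟩ := hx.exists_co
  rw [e1, Ne, ZMod.intCast_zmod_eq_zero_iff_dvd] at h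
  have hc : IsCoprime (7 : ℤ) r := (Int.prime_iff_natAbs_prime.2 (by norm_num) :
    Prime (7 : ℤ)).coprime_iff_not_dvd.2 h
  obtain ⟨a, b, hab⟩ := hc
  have hs' : (a : K) * 7 + b * r = 1 := by exact_mod_cast congrArg (Int.cast : ℤ → K) hab
  have hu : D.L 1 (b * x - 1) :=
    (((L.int b).mul h1 (k := 1) (by omega)).sub ((L.int a).mul L.seven' (by omega))).of_eq
      (by linear_combination hs')
  have h0 := hu.ne_zero
  have hb : (b : K) ≠ 0 := left_ne_zero_of_mul h0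
  have hx0 : x ≠ 0 := right_ne_zero_of_mul h0
  exact ⟨hx0, ((L.int b).mul hu.inv le_rfl).of_eq (by field_simp)⟩

theorem Gm.one (j : ℕ) : D.Gm j 1 := by
  refine ⟨(L.zero _).of_eq (by simp), (L.zero _).of_eq (by simp), (L.zero _).of_eq (by simp),
    (L.zero _).of_eq (by simp)⟩

theorem Gm.mul {j : ℕ} {g h : SL K} (hg : D.Gm j g) (hh : D.Gm j h) : D.Gm j (g * h) := by
  obtain ⟨ga, gb, gc, gd⟩ := hg
  obtain ⟨ha, hb, hc, hd⟩ := hh
  refine ⟨?_, ?_, ?_, ?_⟩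
  · exact (((ga.mul ha.of_sub_one (k := j) (by omega)).add ha).add
      (gb.mul hc (by omega))).of_eq (by simp only [SL.mul_a]; ring)
  · exact ((ga.of_sub_one.mul hb (k := j) (by omega)).add
      (gb.mul hd.of_sub_one (by omega))).of_eq (by simp only [SL.mul_b])
  · exact ((gc.mul ha.of_sub_one (k := j) (by omega)).add
      (gd.of_sub_one.mul hc (by omega))).of_eq (by simp only [SL.mul_c])
  · exact (((gd.mul hd.of_sub_one (k := j) (by omega)).add hd).add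
      (gc.mul hb (by omega))).of_eq (by simp only [SL.mul_d]; ring)

theorem Gm.inv {j : ℕ} {g : SL K} (hg : D.Gm j g) : D.Gm j g⁻¹ := by
  obtain ⟨ga, gb, gc, gd⟩ := hg
  exact ⟨gd, gb.neg, gc.neg, ga⟩

theorem Gm.mono {i j : ℕ} {g : SL K} (hg : D.Gm j g) (h : i ≤ j) : D.Gm i g := by
  obtain ⟨ga, gb, gc, gd⟩ := hg
  exact ⟨ga.mono h, gb.mono h, gc.mono h, gd.mono h⟩

theorem filt_conj_a (x g : SL K) : (g * x * g⁻¹).a - 1 = g.a * g.d * (x.a - 1) +
    -(g.a * g.c) * x.b + g.b * g.d * x.c + -(g.b * g.c) * (x.d - 1) := by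
  simp only [SL.mul_a, SL.mul_b, SL.inv_a, SL.inv_c]
  linear_combination g.det

theorem filt_conj_b (x g : SL K) : (g * x * g⁻¹).b = -(g.a * g.b) * (x.a - 1) +
    g.a * g.a * x.b + -(g.b * g.b) * x.c + g.a * g.b * (x.d - 1) := by
  simp only [SL.mul_a, SL.mul_b, SL.inv_b, SL.inv_d]
  ring

theorem filt_conj_c (x g : SL K) : (g * x * g⁻¹).c = g.c * g.d * (x.a - 1) +
    -(g.c * g.c) * x.b + g.d * g.d * x.c + -(g.c * g.d) * (x.d - 1) := by
  simp only [SL.mul_c, SL.mul_d, SL.inv_a, SL.inv_c]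
  ring

theorem filt_conj_d (x g : SL K) : (g * x * g⁻¹).d - 1 = -(g.b * g.c) * (x.a - 1) +
    g.a * g.c * x.b + -(g.b * g.d) * x.c + g.a * g.d * (x.d - 1) := by
  simp only [SL.mul_c, SL.mul_d, SL.inv_b, SL.inv_d]
  linear_combination g.det

theorem filt_lin {j : ℕ} {α β γ δ A B C E : K} (h1 : D.L 0 α) (h2 : D.L 0 β) (h3 : D.L 0 γ)
    (h4 : D.L 0 δ) (hA : D.L j A) (hB : D.L j B) (hC : D.L j C) (hE : D.L j E) :
    D.L j (α * A + β * B + γ * C + δ * E) :=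
  (((h1.mul hA (by omega)).add (h2.mul hB (by omega))).add (h3.mul hC (by omega))).add
    (h4.mul hE (by omega))

theorem filt_co_lin {j : ℕ} {α β γ δ A B C E : K} (h1 : D.L 0 α) (h2 : D.L 0 β) (h3 : D.L 0 γ)
    (h4 : D.L 0 δ) (hA : D.L j A) (hB : D.L j B) (hC : D.L j C) (hE : D.L j E) :
    D.co j (α * A + β * B + γ * C + δ * E) =
      D.co 0 α * D.co j A + D.co 0 β * D.co j B + D.co 0 γ * D.co j C + D.co 0 δ * D.co j E := by
  have a1 : D.L j (α * A) := h1.mul hA (by omega)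
  have a2 : D.L j (β * B) := h2.mul hB (by omega)
  have a3 : D.L j (γ * C) := h3.mul hC (by omega)
  have a4 : D.L j (δ * E) := h4.mul hE (by omega)
  rw [co_add ((a1.add a2).add a3) a4, co_add (a1.add a2) a3, co_add a1 a2, co_mul h1 hA,
    co_mul h2 hB, co_mul h3 hC, co_mul h4 hE]

theorem Gm.conj {j : ℕ} {x g : SL K} (hx : D.Gm j x) (hg : D.Gm 0 g) :
    D.Gm j (g * x * g⁻¹) := by
  obtain ⟨xa, xb, xc, xd⟩ := hx
  obtain ⟨ga, gb, gc, gd⟩ := hg
  have ga' := ga.of_sub_one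
  have gd' := gd.of_sub_one
  refine ⟨?_, ?_, ?_, ?_⟩
  · rw [filt_conj_a]
    exact filt_lin (ga'.mul gd' le_rfl) (ga'.mul gc le_rfl).neg (gb.mul gd' le_rfl)
      (gb.mul gc le_rfl).neg xa xb xc xd
  · rw [filt_conj_b]
    exact filt_lin (ga'.mul gb le_rfl).neg (ga'.mul ga' le_rfl) (gb.mul gb le_rfl).neg
      (ga'.mul gb le_rfl) xa xb xc xd
  · rw [filt_conj_c]
    exact filt_lin (gc.mul gd' le_rfl) (gc.mul gc le_rfl).neg (gd'.mul gd' le_rfl)
      (gc.mul gd' le_rfl).neg xa xb xc xd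
  · rw [filt_conj_d]
    exact filt_lin (gb.mul gc le_rfl).neg (ga'.mul gc le_rfl) (gb.mul gd' le_rfl).neg
      (ga'.mul gd' le_rfl) xa xb xc xd

theorem Gm.neg1 : D.Gm 0 (neg1 K) := by
  exact ⟨(L.one.neg.sub L.one), L.zero _, L.zero _, (L.one.neg.sub L.one)⟩

theorem filt_det {g : SL K} (hg : D.Gm 0 g) :
    D.co 0 g.a * D.co 0 g.d - D.co 0 g.b * D.co 0 g.c = 1 := by
  obtain ⟨ga, gb, gc, gd⟩ := hg
  rw [← co_mul ga.of_sub_one gd.of_sub_one, ← co_mul gb gc,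
    ← filt_co_sub (ga.of_sub_one.mul gd.of_sub_one le_rfl) (gb.mul gc le_rfl), g.det, filt_co_one]

theorem filt_red_a {g : SL K} (hg : D.Gm 0 g) : (D.red g).a = D.co 0 g.a := by
  rw [red, dif_pos (filt_det hg)]

theorem filt_red_b {g : SL K} (hg : D.Gm 0 g) : (D.red g).b = D.co 0 g.b := by
  rw [red, dif_pos (filt_det hg)]

theorem filt_red_c {g : SL K} (hg : D.Gm 0 g) : (D.red g).c = D.co 0 g.c := by
  rw [red, dif_pos (filt_det hg)]

theorem filt_red_d {g : SL K} (hg : D.Gm 0 g) : (D.red g).d = D.co 0 g.d := by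
  rw [red, dif_pos (filt_det hg)]

theorem red_neg1 : D.red (neg1 K) = neg1 F7 := by
  have h := Gm.neg1 (D := D)
  have e : D.co 0 (-1) = -1 := by rw [co_neg L.one, filt_co_one]
  ext
  · rw [filt_red_a h]; exact e
  · rw [filt_red_b h]; exact filt_co_zero 0
  · rw [filt_red_c h]; exact filt_co_zero 0
  · rw [filt_red_d h]; exact e

theorem red_mul {x y : SL K} (hx : D.Gm 0 x) (hy : D.Gm 0 y) :
    D.red (x * y) = D.red x * D.red y := by
  have hxy := hx.mul hy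
  have xa := hx.1.of_sub_one
  have xb := hx.2.1
  have xc := hx.2.2.1
  have xd := hx.2.2.2.of_sub_one
  have ya := hy.1.of_sub_one
  have yb := hy.2.1
  have yc := hy.2.2.1
  have yd := hy.2.2.2.of_sub_one
  ext
  · rw [filt_red_a hxy, SL.mul_a, SL.mul_a, filt_red_a hx, filt_red_b hx, filt_red_a hy,
      filt_red_c hy, co_add (xa.mul ya le_rfl) (xb.mul yc le_rfl), co_mul xa ya, co_mul xb yc]
  · rw [filt_red_b hxy, SL.mul_b, SL.mul_b, filt_red_a hx, filt_red_b hx, filt_red_b hy,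
      filt_red_d hy, co_add (xa.mul yb le_rfl) (xb.mul yd le_rfl), co_mul xa yb, co_mul xb yd]
  · rw [filt_red_c hxy, SL.mul_c, SL.mul_c, filt_red_c hx, filt_red_d hx, filt_red_a hy,
      filt_red_c hy, co_add (xc.mul ya le_rfl) (xd.mul yc le_rfl), co_mul xc ya, co_mul xd yc]
  · rw [filt_red_d hxy, SL.mul_d, SL.mul_d, filt_red_c hx, filt_red_d hx, filt_red_b hy,
      filt_red_d hy, co_add (xc.mul yb le_rfl) (xd.mul yd le_rfl), co_mul xc yb, co_mul xd yd]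

theorem red_eq_one {x : SL K} (hx : D.Gm 0 x) : D.red x = 1 ↔ D.Gm 1 x := by
  have key : ∀ {u : K}, D.L 0 (u - 1) → (D.co 0 u = 1 ↔ D.L 1 (u - 1)) := fun {u} hu => by
    rw [← co_eq_zero_iff hu, filt_co_sub hu.of_sub_one L.one, filt_co_one, sub_eq_zero]
  rw [SL.ext_iff, filt_red_a hx, filt_red_b hx, filt_red_c hx, filt_red_d hx, SL.one_a, SL.one_b,
    SL.one_c, SL.one_d, key hx.1, key hx.2.2.2, co_eq_zero_iff hx.2.1, co_eq_zero_iff hx.2.2.1]
  rfl

theorem red_surj (s : SL F7) : ∃ x, D.Gm 0 x ∧ D.red x = s := by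
  have hs := s.det
  by_cases ha : s.a = 0
  · have hc : s.c ≠ 0 := fun hc => by
      rw [ha, hc] at hs
      simp at hs
    obtain ⟨h0, hi⟩ := (L.nat (D := D) s.c.val).unit (by rwa [filt_co_val])
    let x : SL K := ⟨s.a.val, ((s.a.val : K) * s.d.val - 1) * (s.c.val : K)⁻¹, s.c.val, s.d.val,
      by field_simp; ring⟩
    have hx : D.Gm 0 x := ⟨(L.nat _).sub L.one,
      (((L.nat _).mul (L.nat _) le_rfl).sub L.one).mul hi le_rfl, L.nat _, (L.nat _).sub L.one⟩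
    have e1 : (D.red x).a = s.a := by rw [filt_red_a hx]; exact filt_co_val _
    have e3 : (D.red x).c = s.c := by rw [filt_red_c hx]; exact filt_co_val _
    have e4 : (D.red x).d = s.d := by rw [filt_red_d hx]; exact filt_co_val _
    have hd := (D.red x).det
    rw [e1, e3, e4] at hd
    exact ⟨x, hx, SL.ext e1 (mul_right_cancel₀ hc (by linear_combination hs - hd)) e3 e4⟩
  · obtain ⟨h0, hi⟩ := (L.nat (D := D) s.a.val).unit (by rwa [filt_co_val])
    let x : SL K := ⟨s.a.val, s.b.val, s.c.val, (1 + (s.b.val : K) * s.c.val) * (s.a.val : K)⁻¹,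
      by field_simp; ring⟩
    have hx : D.Gm 0 x := ⟨(L.nat _).sub L.one, L.nat _, L.nat _,
      ((L.one.add ((L.nat _).mul (L.nat _) le_rfl)).mul hi le_rfl).sub L.one⟩
    have e1 : (D.red x).a = s.a := by rw [filt_red_a hx]; exact filt_co_val _
    have e2 : (D.red x).b = s.b := by rw [filt_red_b hx]; exact filt_co_val _
    have e3 : (D.red x).c = s.c := by rw [filt_red_c hx]; exact filt_co_val _
    have hd := (D.red x).det
    rw [e1, e2, e3] at hd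
    exact ⟨x, hx, SL.ext e1 e2 e3 (mul_left_cancel₀ ha (by linear_combination hd - hs))⟩

theorem lead_mul {j : ℕ} (hj : 1 ≤ j) {x y : SL K} (hx : D.Gm j x) (hy : D.Gm j y) :
    D.lead j (x * y) = D.lead j x + D.lead j y := by
  obtain ⟨xa, xb, xc, xd⟩ := hx
  obtain ⟨ya, yb, yc, yd⟩ := hy
  simp only [lead, Prod.mk_add_mk, Prod.mk.injEq]
  refine ⟨?_, ?_, ?_⟩
  · rw [← co_add xa ya]
    exact co_congr (xa.add ya) (((xa.mul ya (by omega)).add (xb.mul yc (by omega))).of_eq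
      (by simp only [SL.mul_a]; ring))
  · rw [← co_add xb yb]
    exact co_congr (xb.add yb) (((xa.mul yb (by omega)).add (xb.mul yd (by omega))).of_eq
      (by simp only [SL.mul_b]; ring))
  · rw [← co_add xc yc]
    exact co_congr (xc.add yc) (((xc.mul ya (by omega)).add (xd.mul yc (by omega))).of_eq
      (by simp only [SL.mul_c]; ring))

theorem co_d {j : ℕ} (hj : 1 ≤ j) {x : SL K} (hx : D.Gm j x) :
    D.co j (x.d - 1) = -D.co j (x.a - 1) := by
  obtain ⟨xa, xb, xc, xd⟩ := hx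
  have h : D.co j (x.a - 1 + (x.d - 1)) = 0 :=
    (co_eq_zero_iff (xa.add xd)).2 (((xb.mul xc (by omega)).sub (xa.mul xd (by omega))).of_eq
      (by linear_combination x.det))
  rw [co_add xa xd] at h
  linear_combination h

theorem lead_eq_zero {j : ℕ} (hj : 1 ≤ j) {x : SL K} (hx : D.Gm j x) :
    D.lead j x = 0 ↔ D.Gm (j + 1) x := by
  have hd := co_d hj hx
  obtain ⟨xa, xb, xc, xd⟩ := hx
  simp only [lead, Prod.mk_eq_zero]
  constructor
  · rintro ⟨h1, h2, h3⟩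
    rw [h1, neg_zero] at hd
    exact ⟨(co_eq_zero_iff xa).1 h1, (co_eq_zero_iff xb).1 h2, (co_eq_zero_iff xc).1 h3,
      (co_eq_zero_iff xd).1 hd⟩
  · intro h
    exact ⟨(co_eq_zero_iff xa).2 h.1, (co_eq_zero_iff xb).2 h.2.1, (co_eq_zero_iff xc).2 h.2.2.1⟩

theorem lead_surj {j : ℕ} (hj : 1 ≤ j) (u : F7 × F7 × F7) : ∃ x, D.Gm j x ∧ D.lead j x = u := by
  obtain ⟨h, e, f⟩ := u
  have hl : ∀ s : F7, D.L j ((s.val : K) * D.p ^ j) := fun s =>
    (L.nat _).mul (L.pow j) (by omega)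
  have ha : D.L j (1 + (h.val : K) * D.p ^ j - 1) := (hl h).of_eq (by ring)
  have h1 := ha.mono hj
  have h0 := h1.ne_zero
  let x : SL K := ⟨1 + (h.val : K) * D.p ^ j, (e.val : K) * D.p ^ j, (f.val : K) * D.p ^ j,
    (1 + (e.val : K) * D.p ^ j * ((f.val : K) * D.p ^ j)) * (1 + (h.val : K) * D.p ^ j)⁻¹,
    by field_simp; ring⟩
  refine ⟨x, ⟨ha, hl e, hl f, ?_⟩, ?_⟩
  · exact ((((hl e).mul (hl f) (k := j) (by omega)).sub (hl h)).mul h1.inv (by omega)).of_eq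
      (by simp only [x]; linear_combination mul_inv_cancel₀ h0)
  · simp only [lead, x, add_sub_cancel_left, filt_co_pow]

theorem lead_conj {j : ℕ} (hj : 1 ≤ j) {x g : SL K} (hx : D.Gm j x) (hg : D.Gm 0 g) :
    D.lead j (g * x * g⁻¹) = Ad (D.red g) (D.lead j x) := by
  have hd := co_d hj hx
  obtain ⟨xa, xb, xc, xd⟩ := hx
  have ga := hg.1.of_sub_one
  have gb := hg.2.1
  have gc := hg.2.2.1
  have gd := hg.2.2.2.of_sub_one
  simp only [lead, Ad, Prod.mk.injEq, filt_red_a hg, filt_red_b hg, filt_red_c hg, filt_red_d hg]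
  refine ⟨?_, ?_, ?_⟩
  · rw [filt_conj_a, filt_co_lin (ga.mul gd le_rfl) (ga.mul gc le_rfl).neg (gb.mul gd le_rfl)
      (gb.mul gc le_rfl).neg xa xb xc xd, co_neg (ga.mul gc le_rfl), co_neg (gb.mul gc le_rfl),
      co_mul ga gd, co_mul ga gc, co_mul gb gd, co_mul gb gc, hd]
    ring
  · rw [filt_conj_b, filt_co_lin (ga.mul gb le_rfl).neg (ga.mul ga le_rfl) (gb.mul gb le_rfl).neg
      (ga.mul gb le_rfl) xa xb xc xd, co_neg (ga.mul gb le_rfl), co_neg (gb.mul gb le_rfl),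
      co_mul ga gb, co_mul ga ga, co_mul gb gb, hd]
    ring
  · rw [filt_conj_c, filt_co_lin (gc.mul gd le_rfl) (gc.mul gc le_rfl).neg (gd.mul gd le_rfl)
      (gc.mul gd le_rfl).neg xa xb xc xd, co_neg (gc.mul gc le_rfl), co_neg (gc.mul gd le_rfl),
      co_mul gc gd, co_mul gc gc, co_mul gd gd, hd]
    ring

theorem lead_step {j : ℕ} (hj : 1 ≤ j) {x : SL K} (hx : D.Gm j x) (h : D.lead j x = (0, 1, 0)) :
    D.Gm (j + 1) ⁅x, SL.fM D.p⁆ ∧ ¬ D.Gm (j + 2) ⁅x, SL.fM D.p⁆ := by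
  obtain ⟨xa, xb, xc, xd⟩ := hx
  have hb : D.co j x.b = 1 := congrArg (fun u => u.2.1) h
  have hp : D.L 1 D.p := (L.pow 1).of_eq (by ring)
  have pb : D.L (j + 1) (D.p * x.b) := xb.mul_p
  have pd : D.L (j + 1) (D.p * (x.d - x.a)) := ((xd.sub xa).of_eq (by ring)).mul_p
  have u1 : D.L 1 (D.p * x.b + x.d - 1) :=
    ((pb.mono (by omega)).add (xd.mono hj)).of_eq (by ring)
  have u0 := u1.of_sub_one
  have c0 : D.L 0 (D.p * x.a + x.c) :=
    (hp.mul xa.of_sub_one (by omega)).add (xc.mono (by omega))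
  have hdet := x.det
  have ea : ⁅x, SL.fM D.p⁆.a - 1 = (D.p * x.b + x.d) * (D.p * x.b) := by
    simp only [commutatorElement_def, SL.mul_a, SL.mul_b, SL.inv_a, SL.inv_b, SL.inv_c, SL.inv_d,
      SL.fM_a, SL.fM_b, SL.fM_c, SL.fM_d]
    linear_combination hdet
  have eb : ⁅x, SL.fM D.p⁆.b = -(x.b * (D.p * x.b)) := by
    simp only [commutatorElement_def, SL.mul_a, SL.mul_b, SL.inv_a, SL.inv_b, SL.inv_c, SL.inv_d,
      SL.fM_a, SL.fM_b, SL.fM_c, SL.fM_d]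
    ring
  have ec : ⁅x, SL.fM D.p⁆.c = (D.p * x.b + x.d) * (D.p * (x.d - x.a)) +
      (D.p * x.a + x.c) * (D.p * x.b) := by
    simp only [commutatorElement_def, SL.mul_c, SL.mul_d, SL.inv_a, SL.inv_b, SL.inv_c, SL.inv_d,
      SL.fM_a, SL.fM_b, SL.fM_c, SL.fM_d]
    ring
  have ed : ⁅x, SL.fM D.p⁆.d - 1 = -(x.b * (D.p * (x.d - x.a))) - x.a * (D.p * x.b) := by
    simp only [commutatorElement_def, SL.mul_c, SL.mul_d, SL.inv_a, SL.inv_b, SL.inv_c, SL.inv_d,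
      SL.fM_a, SL.fM_b, SL.fM_c, SL.fM_d]
    linear_combination hdet
  refine ⟨⟨?_, ?_, ?_, ?_⟩, fun hn => ?_⟩
  · rw [ea]; exact u0.mul pb (by omega)
  · rw [eb]; exact (xb.mul pb (by omega)).neg
  · rw [ec]; exact (u0.mul pd (by omega)).add (c0.mul pb (by omega))
  · rw [ed]; exact (xb.mul pd (by omega)).neg.sub (xa.of_sub_one.mul pb (by omega))
  · have h1 := hn.1
    rw [ea, ← co_eq_zero_iff (u0.mul pb (by omega)), co_mul u0 pb, filt_co_p xb, hb,
      co_congr L.one u1, filt_co_one, mul_one] at h1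
    exact one_ne_zero h1

theorem filt_dec {g : SL K} (hg : D.Gm 0 g) (hu : D.co 0 g.a ≠ 0) : ∃ y y' b : K, D.L 0 y ∧
    D.L 0 y' ∧ D.L 0 b ∧ g = SL.fM y * SL.eM 1 * SL.fM y' * SL.eM b := by
  obtain ⟨ga, gb, gc, gd⟩ := hg
  obtain ⟨h0, hi⟩ := ga.of_sub_one.unit hu
  refine ⟨(g.c - (g.a - 1)) * g.a⁻¹, g.a - 1, (g.b - 1) * g.a⁻¹,
    (gc.sub ga).mul hi (by omega), ga, (gb.sub L.one).mul hi (by omega), ?_⟩
  have hdet := g.det
  ext
  · simp
  · simp only [SL.mul_a, SL.mul_b, SL.fM_a, SL.fM_b, SL.fM_c, SL.fM_d, SL.eM_a, SL.eM_b, SL.eM_c,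
      SL.eM_d]
    field_simp
    ring
  · simp only [SL.mul_c, SL.mul_d, SL.fM_a, SL.fM_c, SL.fM_d, SL.eM_a, SL.eM_b, SL.eM_c,
      SL.eM_d]
    field_simp
    ring
  · simp only [SL.mul_c, SL.mul_d, SL.fM_a, SL.fM_b, SL.fM_c, SL.fM_d, SL.eM_a, SL.eM_b, SL.eM_c,
      SL.eM_d]
    field_simp
    linear_combination g.a * hdet

/-- the integral points are generated by unipotent elements -/
theorem Gm.decomp {g : SL K} (hg : D.Gm 0 g) : ∃ b₀ y y' b : K, D.L 0 b₀ ∧ D.L 0 y ∧ D.L 0 y' ∧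
    D.L 0 b ∧ g = SL.eM b₀ * SL.fM y * SL.eM 1 * SL.fM y' * SL.eM b := by
  by_cases ha : D.co 0 g.a = 0
  · have hd := filt_det hg
    have hc : D.co 0 g.c ≠ 0 := fun hc => by
      rw [ha, hc] at hd
      simp at hd
    have he : D.Gm 0 (SL.eM (1 : K)) :=
      ⟨(L.zero _).of_eq (by simp), L.one, L.zero _, (L.zero _).of_eq (by simp)⟩
    have hu : D.co 0 (SL.eM 1 * g).a ≠ 0 := by
      have e0 : (SL.eM (1 : K) * g).a = g.a + g.c := by simp
      rw [e0, co_add hg.1.of_sub_one hg.2.2.1, ha, zero_add]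
      exact hc
    obtain ⟨y, y', b, h1, h2, h3, e⟩ := filt_dec (he.mul hg) hu
    refine ⟨-1, y, y', b, L.one.neg, h1, h2, h3, ?_⟩
    have e1 : SL.eM (-1 : K) * SL.eM 1 = 1 := by ext <;> simp
    calc g = SL.eM (-1) * (SL.eM 1 * g) := by rw [← mul_assoc, e1, one_mul]
      _ = _ := by rw [e]; simp only [mul_assoc]
  · obtain ⟨y, y', b, h1, h2, h3, e⟩ := filt_dec hg ha
    refine ⟨0, y, y', b, L.zero _, h1, h2, h3, ?_⟩
    have e1 : SL.eM (0 : K) = 1 := rfl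
    rw [e1, one_mul]
    exact e

theorem filt_pow {k : ℕ} (hk : 0 < k) (n : ℕ) :
    D.L (k + 1) ((1 + D.p ^ k) ^ n - 1 - n * D.p ^ k) := by
  induction n with
  | zero => exact (L.zero _).of_eq (by simp)
  | succ n ih =>
    have h0 : D.L 0 (1 + D.p ^ k) := L.one.add ((L.pow k).mono (Nat.zero_le _))
    exact ((ih.mul h0 (k := k + 1) (by omega)).add
      (((L.nat n).mul (L.pow k) (k := k) (by omega)).mul (L.pow k) (by omega))).of_eq
      (by push_cast; ring)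

/-- on one-units of level `7 m` the symbol is a multiple of one character -/
theorem c_level {u : K} (hu : D.L (7 * D.m) (u - 1)) (y : K) :
    D.c u y = D.co (7 * D.m) (u - 1) * D.chi y := by
  have hm : 0 < 7 * D.m := by have := D.m_pos; omega
  obtain ⟨r, h1, e1⟩ := hu.exists_co
  obtain ⟨n, hn⟩ : ∃ n : ℕ, (n : ℤ) = r % 7 := ⟨(r % 7).toNat, by omega⟩
  have hrn : ((r - n : ℤ) : ZMod 7) = 0 := by
    rw [ZMod.intCast_zmod_eq_zero_iff_dvd]; omega
  have h2 : D.L 1 ((r - n : ℤ) : K) := L_int_iff.2 hrn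
  have h3 := filt_pow (D := D) hm n
  have hu0 : D.L 1 (1 + D.p ^ (7 * D.m) - 1) :=
    ((L.pow (7 * D.m)).mono hm).of_eq (by ring)
  have h4 : D.L 1 ((1 + D.p ^ (7 * D.m)) ^ n - 1) :=
    ((h3.mono (by omega)).add ((L.nat n).mul (L.pow (7 * D.m)) (by omega))).of_eq (by ring)
  have h5 : D.L (7 * D.m + 1) (u - (1 + D.p ^ (7 * D.m)) ^ n) :=
    ((h1.add (h2.mul (L.pow (7 * D.m)) (by omega))).sub h3).of_eq (by push_cast; ring)
  have hne := h4.ne_zero
  have h6 : D.L (7 * D.m + 1) (u * ((1 + D.p ^ (7 * D.m)) ^ n)⁻¹ - 1) :=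
    (h5.mul h4.inv (by omega)).of_eq (by field_simp)
  obtain ⟨w, hw0, e⟩ := h6.exists_root
  have e2 : u = w ^ 7 * (1 + D.p ^ (7 * D.m)) ^ n := by rw [e]; field_simp
  have e3 : (r : ZMod 7) = n := by
    rw [Int.cast_sub, Int.cast_natCast, sub_eq_zero] at hrn; exact hrn
  rw [e1, e3, chi, ← D.c_pow_left y hu0.ne_zero n]
  conv_lhs => rw [e2]
  rw [D.c_mul_left y (pow_ne_zero _ hw0) hne, D.c_sev_left y hw0, zero_add]

theorem filt_co_chi {y : K} (hy : D.L (7 * D.m) y) : D.co (7 * D.m) y * D.chi y = 0 := by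
  by_cases h0 : y = 0
  · rw [h0, filt_co_zero, zero_mul]
  have hm : 1 ≤ 7 * D.m := by have := D.m_pos; omega
  have hu : D.L (7 * D.m) (1 + y - 1) := hy.of_eq (by ring)
  have e := D.c_add_one (hu.mono hm).ne_zero (neg_ne_zero.2 h0) (by ring)
  rw [c_level hu, add_sub_cancel_left, chi, D.c_neg_right _ h0] at e
  exact e

theorem chi_unit {w : K} (hw : D.L 0 w) (h : D.co 0 w ≠ 0) : D.chi w = 0 := by
  obtain ⟨h0, -⟩ := hw.unit h
  have hp := pow_ne_zero (7 * D.m) D.p_ne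
  have e := filt_co_chi (hw.mul (L.pow (7 * D.m)) (by omega))
  have e7 : ((7 * D.m : ℕ) : ZMod 7) = 0 := by
    rw [Nat.cast_mul]; exact mul_eq_zero_of_left rfl _
  rw [co_mul hw (L.pow _), co_pow, mul_one, chi, D.c_mul_right _ h0 hp,
    D.c_pow_right _ D.p_ne, e7, zero_mul, add_zero] at e
  exact (mul_eq_zero.1 e).resolve_left h

theorem co_chi {y : K} (hy : D.L (7 * D.m) y) : D.co (7 * D.m) y * D.chi y = 0 := by
  exact filt_co_chi hy

end Dt

end Pool.Agent.Lib.MP_c05f82_nt.LG
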