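import Pool.Agent.Lib.MP_c05f82_nt.LG.Cov
import Pool.Agent.Lib.MP_c05f82_nt.LG.Filt

/-!
The bottom of the filtration of the cover.
-/

open scoped commutatorElement

namespace Pool.Agent.Lib.MP_c05f82_nt.LG

open Pool.Agent.Lib.MP_c05f82_nt.GC

variable {K : Type} [Field K]

namespace Dt

variable (D : Dt K)

/-- the last congruence subgroup -/
abbrev G0 (g : SL K) : Prop := D.Gm (7 * D.m) g

/-- the splitting over the last congruence subgroup -/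
noncomputable def s1 (g : SL K) : ZMod 7 := D.c g.a g.x

lemma one_le : 1 ≤ 7 * D.m := by have := D.m_pos; omega

lemma chi_div {x y : K} (hx : x ≠ 0) (hy : y ≠ 0) : D.chi (x / y) = D.chi x - D.chi y :=
  D.c_div_right _ hx hy

variable {D}

lemma co_zero (k : ℕ) : D.co k 0 = 0 := (co_eq_zero_iff (L.zero k)).2 (L.zero _)

lemma lev_ne {u : K} (hu : D.L (7 * D.m) (u - 1)) : u ≠ 0 := (hu.mono D.one_le).ne_zero

lemma lev_u0 : D.L (7 * D.m) (1 + D.p ^ (7 * D.m) - 1) := (L.pow _).of_eq (by ring)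

lemma c_lev_lev {u w : K} (hu : D.L (7 * D.m) (u - 1)) (hw : D.L (7 * D.m) (w - 1)) :
    D.c u w = 0 := by
  have h0 := lev_ne (D := D) lev_u0
  rw [c_level hu, chi, D.c_swap (lev_ne hw) h0, c_level hw, chi, D.c_self h0]
  simp

lemma G0.co_a_mul {x y : SL K} (hx : D.G0 x) (hy : D.G0 y) : D.co (7 * D.m) ((x * y).a - 1) =
    D.co (7 * D.m) (x.a - 1) + D.co (7 * D.m) (y.a - 1) :=
  congrArg Prod.fst (lead_mul D.one_le hx hy)

lemma G0.sig {t t' : SL K} (h : D.G0 t) (h' : D.G0 t') :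
    D.sig t t' = D.s1 (t * t') - D.s1 t - D.s1 t' := by
  have x0 := (t * t').x_ne
  rw [D.sig_eq (lev_ne h'.1) (lev_ne h.2.2.2), c_lev_lev h'.1 h.2.2.2, s1, s1, s1,
    c_level h'.1, c_level h.2.2.2, c_level (h.mul h').1, c_level h.1, c_level h'.1, h.co_a_mul h',
    co_d D.one_le h, D.chi_div x0 t.x_ne, D.chi_div x0 t'.x_ne]
  ring

lemma s1_one : D.s1 1 = 0 := by simp [s1, c_one_left]

lemma G0.sig_conj {t n n' : SL K} (h : D.G0 t) (hn : n.d = 1) (hn' : n'.a = 1)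
    (ld : D.L (7 * D.m) ((n * t).d - 1)) (la : D.L (7 * D.m) ((n * t * n').a - 1)) :
    D.sig n t + D.sig (n * t) n' = D.s1 (n * t * n') - D.s1 t +
      (D.co (7 * D.m) (t.a - 1) + D.co (7 * D.m) ((n * t).d - 1)) * D.chi (n * t).x -
      (D.co (7 * D.m) ((n * t).d - 1) + D.co (7 * D.m) ((n * t * n').a - 1)) *
        D.chi (n * t * n').x := by
  have x1 := (n * t).x_ne
  have x2 := (n * t * n').x_ne
  rw [D.sig_eq (lev_ne h.1) (by simp [hn]), D.sig_eq (by simp [hn']) (lev_ne ld), hn, hn',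
    D.c_one_left, D.c_one_left, D.c_one_left, D.c_one_right, s1, s1,
    c_level h.1, c_level ld, c_level la, c_level h.1, D.chi_div x1 t.x_ne, D.chi_div x2 x1]
  ring

lemma G0.sig_E {t : SL K} (h : D.G0 t) {b : K} (hb : D.L 0 b) :
    D.sig (SL.eM b) t + D.sig (SL.eM b * t) (SL.eM (-b)) =
      D.s1 (SL.eM b * t * SL.eM (-b)) - D.s1 t := by
  have hbc : D.L (7 * D.m) (b * t.c) := hb.mul h.2.2.1 (by omega)
  have e1 : (SL.eM b * t).d - 1 = t.d - 1 := by simp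
  have e2 : (SL.eM b * t * SL.eM (-b)).a - 1 = t.a - 1 + b * t.c := by simp; ring
  have e3 : (SL.eM b * t * SL.eM (-b)).c = t.c := by simp
  rw [h.sig_conj rfl rfl (e1 ▸ h.2.2.2) (e2 ▸ h.1.add hbc), e1, e2, co_add h.1 hbc,
    co_d D.one_le h, co_mul hb h.2.2.1]
  by_cases hc : t.c = 0
  · rw [hc, co_zero]; ring
  · rw [SL.x_of_ne (g := SL.eM b * t * SL.eM (-b)) (e3.symm ▸ hc), e3]
    linear_combination -D.co 0 b * co_chi h.2.2.1

lemma G0.sig_F {t : SL K} (h : D.G0 t) {y : K} (hy : D.L 0 y) :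
    D.sig (SL.fM y) t + D.sig (SL.fM y * t) (SL.fM (-y)) =
      D.s1 (SL.fM y * t * SL.fM (-y)) - D.s1 t := by
  have hyb : D.L (7 * D.m) (y * t.b) := hy.mul h.2.1 (by omega)
  have e1 : (SL.fM y * t).d - 1 = t.d - 1 + y * t.b := by simp; ring
  have e2 : (SL.fM y * t * SL.fM (-y)).a - 1 = t.a - 1 + -(y * t.b) := by simp; ring
  have e3 : (SL.fM y * t).c = y + (y * (t.a - 1) + t.c) := by simp; ring
  rw [h.sig_conj rfl rfl (e1 ▸ h.2.2.2.add hyb) (e2 ▸ h.1.add hyb.neg), e1, e2,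
    co_add h.2.2.2 hyb, co_add h.1 hyb.neg, co_neg hyb, co_d D.one_le h, co_mul hy h.2.1]
  by_cases hc : D.co 0 y = 0
  · rw [hc]; ring
  · have l1 : D.L 1 (y * (t.a - 1) + t.c) :=
      (hy.mul (h.1.mono D.one_le) le_rfl).add (h.2.2.1.mono D.one_le)
    have l0 : D.L 0 (SL.fM y * t).c := e3 ▸ hy.add (l1.mono (by omega))
    have c0 : D.co 0 (SL.fM y * t).c ≠ 0 := by
      rwa [co_congr hy (l1.of_eq (by rw [e3]; ring))]
    rw [SL.x_of_ne (l0.unit c0).1, chi_unit l0 c0]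
    ring

lemma Gm_eM {k : ℕ} {b : K} (hb : D.L k b) : D.Gm k (SL.eM b) :=
  ⟨(L.zero _).of_eq (by simp), hb, L.zero _, (L.zero _).of_eq (by simp)⟩

lemma Gm_fM {l : ℕ} {y : K} (hy : D.L l y) : D.Gm l (SL.fM y) :=
  ⟨(L.zero _).of_eq (by simp), L.zero _, hy, (L.zero _).of_eq (by simp)⟩

end Dt

namespace Cv

variable (D : Dt K)

/-- the complement of the centre in the last congruence subgroup -/
def S : Subgroup (Cv D) where
  carrier := {x | D.G0 x.g ∧ x.z = D.s1 x.g}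
  mul_mem' := fun {x y} hx hy => ⟨hx.1.mul hy.1, by
    rw [mul_z, mul_g, hx.1.sig hy.1, hx.2, hy.2]; ring⟩
  one_mem' := ⟨Dt.Gm.one _, Dt.s1_one.symm⟩
  inv_mem' := fun {x} hx => ⟨hx.1.inv, by
    rw [inv_z, inv_g, Dt.G0.sig hx.1.inv hx.1, inv_mul_cancel, Dt.s1_one, hx.2]; ring⟩

variable {D}

lemma mem_S {x : Cv D} : x ∈ S D ↔ D.G0 x.g ∧ x.z = D.s1 x.g := Iff.rfl

lemma conj_E {b : K} (hb : D.L 0 b) {x : Cv D} (hx : x ∈ S D) :
    E D b * x * (E D b)⁻¹ ∈ S D := by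
  refine ⟨Dt.Gm.conj hx.1 (Dt.Gm_eM hb), ?_⟩
  rw [E_inv]
  simp only [mul_z, mul_g, E_g, E_z, hx.2]
  linear_combination hx.1.sig_E hb

lemma conj_F {y : K} (hy : D.L 0 y) {x : Cv D} (hx : x ∈ S D) :
    F D y * x * (F D y)⁻¹ ∈ S D := by
  refine ⟨Dt.Gm.conj hx.1 (Dt.Gm_fM hy), ?_⟩
  rw [F_inv]
  simp only [mul_z, mul_g, F_g, F_z, hx.2]
  linear_combination hx.1.sig_F hy

lemma conj_S {g : Cv D} (hg : D.Gm 0 g.g) {x : Cv D} (hx : x ∈ S D) :
    g * x * g⁻¹ ∈ S D := by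
  obtain ⟨b₀, y, y', b, hb₀, hy, hy', hb, e⟩ := hg.decomp
  obtain ⟨k, hk⟩ : ∃ k, g = E D b₀ * F D y * E D 1 * F D y' * E D b * zc D k :=
    ⟨g.z - (E D b₀ * F D y * E D 1 * F D y' * E D b).z, by
      rw [mul_zc]; exact Cv.ext e (by simp)⟩
  have h := conj_E hb₀ (conj_F hy (conj_E Dt.L.one (conj_F hy' (conj_E hb hx))))
  have hz : zc D k * x * (zc D k)⁻¹ = x := by rw [(zc_comm D k x).eq, mul_inv_cancel_right]
  rw [← hz] at h
  rw [hk]
  convert h using 1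
  group

lemma exists_z {x : Cv D} (hx : D.G0 x.g) : ∃ k, x * (zc D k)⁻¹ ∈ S D :=
  ⟨x.z - D.s1 x.g, by rw [zc_inv, mul_zc]; exact ⟨hx, by simp⟩⟩

lemma comm_S {x g : Cv D} (hx : D.G0 x.g) (hg : D.Gm 0 g.g) : ⁅x, g⁆ ∈ S D := by
  obtain ⟨k, hs⟩ := exists_z hx
  have hz : (zc D k)⁻¹ * g * zc D k = g := by
    rw [mul_assoc, ← (zc_comm D k g).eq, inv_mul_cancel_left]
  have hx' : (zc D k)⁻¹ * x * zc D k = x := by
    rw [mul_assoc, ← (zc_comm D k x).eq, inv_mul_cancel_left]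
  have := mul_mem hs (conj_S hg (inv_mem hs))
  rw [commutatorElement_def]
  convert this using 1
  calc x * g * x⁻¹ * g⁻¹ = x * ((zc D k)⁻¹ * g * zc D k) * x⁻¹ * g⁻¹ := by rw [hz]
    _ = _ := by group

/-- the commutator of two opposite unipotent elements -/
lemma comm_EF (b y : K) (hby : b * y ≠ 0) (h1 : 1 - b * y ≠ 0) :
    ⁅E D b, F D y⁆ =
      ⟨⟨1 + b * y + b ^ 2 * y ^ 2, -(b ^ 2 * y), b * y ^ 2, 1 - b * y, by ring⟩, 0⟩ := by
  have hy : y ≠ 0 := right_ne_zero_of_mul hby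
  rw [commutatorElement_def, E_inv, F_inv]
  refine Cv.ext (by ext <;> simp <;> ring) ?_
  have a1 : D.sig (SL.eM b * SL.fM y * SL.eM (-b)) (SL.fM (-y)) = 0 := by
    have d : (SL.eM b * SL.fM y * SL.eM (-b)).d = 1 - b * y := by simp; ring
    have c : (SL.eM b * SL.fM y * SL.eM (-b)).c = y := by simp
    have c' : (SL.eM b * SL.fM y * SL.eM (-b) * SL.fM (-y)).c = b * y * y := by simp; ring
    rw [D.sig_eq (by simp) (d ▸ h1), d, SL.x_of_ne (g := _ * SL.fM (-y)) (c' ▸ mul_ne_zero hby hy),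
      SL.x_of_ne (g := _ * SL.eM (-b)) (c.symm ▸ hy), c, c', SL.fM_a, D.c_one_left, D.c_one_left,
      mul_div_cancel_right₀ _ hy, D.c_add_one h1 hby (by ring)]
    simp
  simp only [mul_z, mul_g, E_g, F_g, E_z, F_z, a1]
  rw [D.sig_of_one rfl rfl, D.sig_of_one rfl (by simp)]
  simp

lemma key {n : ℕ} (hn : n + 1 = 7 * D.m) : ⁅E D (D.p ^ n), F D D.p⁆ ∉ S D := by
  have hp := D.p_ne
  have e : D.p ^ n * D.p = D.p ^ (7 * D.m) := by rw [← hn, pow_succ]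
  have hN := pow_ne_zero (7 * D.m) hp
  have l : D.L (7 * D.m) (D.p ^ n * D.p) := e ▸ Dt.L.pow _
  rw [comm_EF _ _ (e ▸ hN) (Dt.lev_ne (l.neg.of_eq (by ring)))]
  rintro ⟨h, hz⟩
  have ca : D.co (7 * D.m) (1 + D.p ^ n * D.p + (D.p ^ n) ^ 2 * D.p ^ 2 - 1) = 1 := by
    rw [← Dt.co_pow (D := D) (7 * D.m)]
    exact Dt.co_congr (Dt.L.pow _) ((l.mul l (by omega)).of_eq (by rw [← e]; ring))
  have n1 : D.p ^ n * D.p ^ 2 ≠ 0 := by positivity
  rw [Dt.s1, Dt.c_level h.1, SL.x_of_ne n1] at hz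
  simp only at hz
  rw [ca, show D.p ^ n * D.p ^ 2 = D.p * (D.p ^ D.m) ^ 7 by
      rw [← pow_mul D.p D.m, mul_comm D.m, ← hn]; ring, Dt.chi,
    D.c_mul_right _ hp (by positivity), D.c_sev_right _ (by positivity)] at hz
  exact D.key (by simpa using hz.symm)

end Cv

end Pool.Agent.Lib.MP_c05f82_nt.LG
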