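import Pool.Agent.Lib.MP_c05f82_nt.LG.Defs
import Pool.Agent.Lib.MP_c05f82_nt.GC.Wc

/-!
Frobenius groups with a complement of prime order.
-/

open scoped commutatorElement

namespace Pool.Agent.Lib.MP_c05f82_nt.LG

open Pool.Agent.Lib.MP_c05f82_nt.GC SemidirectProduct

section

variable {W : Type} [AddCommGroup W] {ω : W →+ W} {m : ℕ}

/-- the action of the generator -/
def FrobOm (h1 : ∀ x, ω^[m + 1] x = x) : MulAut (Multiplicative W) where
  toFun x := Multiplicative.ofAdd (ω x.toAdd)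
  invFun x := Multiplicative.ofAdd (ω^[m] x.toAdd)
  left_inv x := congrArg Multiplicative.ofAdd (h1 x.toAdd)
  right_inv x := congrArg Multiplicative.ofAdd
    ((Function.iterate_succ_apply' ω m x.toAdd).symm.trans (h1 x.toAdd))
  map_mul' x y := by simp

variable (h1 : ∀ x, ω^[m + 1] x = x)

lemma FrobOm_pow (i : ℕ) (x : Multiplicative W) :
    (FrobOm h1 ^ i) x = Multiplicative.ofAdd (ω^[i] x.toAdd) := by
  induction i with
  | zero => rfl
  | succ i ih =>
    rw [pow_succ', MulAut.mul_apply, ih, Function.iterate_succ_apply']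
    rfl

lemma FrobOm_ord : FrobOm h1 ^ (m + 1) = 1 := by
  ext x
  rw [FrobOm_pow, h1]
  rfl

/-- the action of the cyclic group -/
def FrobPhi : Multiplicative (ZMod (m + 1)) →* MulAut (Multiplicative W) where
  toFun q := FrobOm h1 ^ q.toAdd.val
  map_one' := by simp
  map_mul' a b := by
    rw [toAdd_mul, ZMod.val_add, ← pow_add, ← pow_eq_pow_mod _ (FrobOm_ord h1)]

lemma FrobPhi_apply (q : Multiplicative (ZMod (m + 1))) (x : Multiplicative W) :
    FrobPhi h1 q x = Multiplicative.ofAdd (ω^[q.toAdd.val] x.toAdd) := FrobOm_pow h1 _ x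

/-- the semidirect product -/
abbrev FrobG : Type := Multiplicative W ⋊[FrobPhi h1] Multiplicative (ZMod (m + 1))

lemma Frob_conj (g : FrobG h1) (u : Multiplicative W) :
    g * inl u * g⁻¹ = inl (FrobPhi h1 g.right u) := by
  ext
  · simp only [mul_left, mul_right, inv_left, left_inl, right_inl, mul_one]
    rw [← MulAut.mul_apply, ← map_mul, mul_inv_cancel, map_one, MulAut.one_apply,
      mul_inv_cancel_comm]
  · simp

lemma Frob_eq_inl {g : FrobG h1} (hg : g.right = 1) : g = inl g.left := by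
  ext
  · simp
  · simp [hg]

lemma Frob_inj {i : ℕ} (h2 : ∀ x, ω^[i] x = x → x = 0) :
    Function.Injective fun u : W => ω^[i] u - u := by
  intro u v h
  have h' : ω^[i] u - u = ω^[i] v - v := h
  refine sub_eq_zero.1 (h2 _ ?_)
  rw [iterate_map_sub, sub_eq_sub_iff_sub_eq_sub.1 h']

lemma Frob_iter_mem {H : AddSubgroup W} (hH : ∀ x ∈ H, ω x ∈ H) (i : ℕ) {x : W} (hx : x ∈ H) :
    ω^[i] x ∈ H := by
  induction i with
  | zero => exact hx
  | succ i ih => rw [Function.iterate_succ_apply']; exact hH _ ih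

/-- the part of a subgroup inside the module -/
def FrobL (P : Subgroup (FrobG h1)) : AddSubgroup W :=
  Subgroup.toAddSubgroup' (P.comap (inl : Multiplicative W →* FrobG h1))

/-- the subgroup attached to a subgroup of the module -/
def FrobP (H : AddSubgroup W) : Subgroup (FrobG h1) :=
  (AddSubgroup.toSubgroup H).map (inl : Multiplicative W →* FrobG h1)

lemma FrobL_P (H : AddSubgroup W) : FrobL h1 (FrobP h1 H) = H := by
  ext w
  exact Subgroup.mem_map_iff_mem inl_injective

lemma FrobP_card (H : AddSubgroup W) : Nat.card (FrobP h1 H) = Nat.card H :=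
  Subgroup.card_map_of_injective inl_injective

lemma FrobP_normal {H : AddSubgroup W} (hH : ∀ x ∈ H, ω x ∈ H) : (FrobP h1 H).Normal := by
  refine ⟨?_⟩
  rintro _ ⟨u, hu, rfl⟩ g
  rw [Frob_conj]
  refine ⟨_, ?_, rfl⟩
  rw [FrobPhi_apply]
  exact Frob_iter_mem hH _ hu

lemma FrobL_inv (hm : 0 < m) {P : Subgroup (FrobG h1)} (hP : P.Normal) :
    ∀ x ∈ FrobL h1 P, ω x ∈ FrobL h1 P := by
  intro x hx
  have : Fact (1 < m + 1) := ⟨by omega⟩
  have k := hP.conj_mem _ (show (inl (Multiplicative.ofAdd x) : FrobG h1) ∈ P from hx)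
    (inr (Multiplicative.ofAdd 1))
  rw [Frob_conj, FrobPhi_apply, right_inr, toAdd_ofAdd, ZMod.val_one] at k
  exact k

variable [Finite W] (h2 : ∀ i, 0 < i → i < m + 1 → ∀ x, ω^[i] x = x → x = 0)

include h2 in
lemma Frob_all {P : Subgroup (FrobG h1)} {g : FrobG h1} (hg : g.right ≠ 1)
    (h : ∀ y, ⁅g, y⁆ ∈ P) (u : Multiplicative W) : (inl u : FrobG h1) ∈ P := by
  have hv : 0 < g.right.toAdd.val := Nat.pos_of_ne_zero fun e =>
    hg (congrArg Multiplicative.ofAdd ((ZMod.val_eq_zero _).1 e))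
  obtain ⟨v, hv⟩ := Finite.injective_iff_surjective.1
    (Frob_inj (h2 _ hv (ZMod.val_lt _))) u.toAdd
  have k := h (inl (Multiplicative.ofAdd v))
  rw [commutatorElement_def, Frob_conj, ← map_inv, ← map_mul, FrobPhi_apply] at k
  have e : Multiplicative.ofAdd (ω^[g.right.toAdd.val] (Multiplicative.ofAdd v).toAdd) *
      (Multiplicative.ofAdd v)⁻¹ = u := by
    rw [← ofAdd_neg, ← ofAdd_add, ← sub_eq_add_neg]
    exact congrArg Multiplicative.ofAdd hv
  rwa [e] at k

include h2 in
lemma Frob_cases (hn : (m + 1).Prime) {P : Subgroup (FrobG h1)} (hP : P.Normal) :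
    P = ⊤ ∨ P = FrobP h1 (FrobL h1 P) := by
  by_cases h : ∀ g ∈ P, g.right = 1
  · right
    ext g
    constructor
    · intro hg
      have e := Frob_eq_inl h1 (h g hg)
      exact ⟨g.left, show (inl g.left : FrobG h1) ∈ P from e ▸ hg, e.symm⟩
    · rintro ⟨u, hu, rfl⟩
      exact hu
  · left
    push Not at h
    obtain ⟨g, hg, hg'⟩ := h
    have k1 := Frob_all h1 h2 hg' fun y => by
      rw [commutatorElement_def, mul_assoc, mul_assoc, ← mul_assoc y]
      exact P.mul_mem hg (hP.conj_mem _ (P.inv_mem hg) y)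
    have k2 : (inr g.right : FrobG h1) ∈ P := by
      have := P.mul_mem (P.inv_mem (k1 g.left)) hg
      convert this using 1
      rw [eq_inv_mul_iff_mul_eq, inl_left_mul_inr_right]
    have : Fact (Nat.card (Multiplicative (ZMod (m + 1)))).Prime := ⟨by simpa using hn⟩
    have k3 : P.comap (inr : Multiplicative (ZMod (m + 1)) →* FrobG h1) = ⊤ :=
      (Subgroup.eq_bot_or_eq_top_of_prime_card _).resolve_left fun e => hg' (by
        have k : g.right ∈ P.comap (inr : Multiplicative (ZMod (m + 1)) →* FrobG h1) := k2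
        rwa [e, Subgroup.mem_bot] at k)
    rw [eq_top_iff]
    intro x _
    rw [← inl_left_mul_inr_right x]
    have k : x.right ∈ P.comap (inr : Multiplicative (ZMod (m + 1)) →* FrobG h1) := by
      rw [k3]; trivial
    exact P.mul_mem (k1 _) k

include h2 in
lemma Frob_cenExp (hm : 0 < m) : CenExp (FrobG h1) (m + 1) := by
  intro M hM x hx
  by_cases h : x.right = 1
  · have : Fact (1 < m + 1) := ⟨by omega⟩
    refine M.pow_mem ?_ _
    have k := M.inv_mem (hx (inr (Multiplicative.ofAdd 1)))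
    rw [commutatorElement_inv, Frob_eq_inl h1 h, commutatorElement_def, Frob_conj, ← map_inv,
      ← map_mul, FrobPhi_apply, right_inr, toAdd_ofAdd, ZMod.val_one] at k
    have k1 : ω^[1] x.left.toAdd - x.left.toAdd ∈ FrobL h1 M := by
      rw [sub_eq_add_neg]; exact k
    have hi := Frob_inj (h2 1 one_pos (by omega))
    have hs : Function.Surjective fun u : FrobL h1 M =>
        (⟨ω^[1] u.1 - u.1, (FrobL h1 M).sub_mem (FrobL_inv h1 hm hM _ u.2) u.2⟩ : FrobL h1 M) :=
      Finite.injective_iff_surjective.1 fun u v e => Subtype.ext (hi (congrArg Subtype.val e))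
    obtain ⟨u, hu⟩ := hs ⟨_, k1⟩
    have e : u.1 = x.left.toAdd := hi (congrArg Subtype.val hu)
    have k2 := u.2
    rw [e] at k2
    rw [Frob_eq_inl h1 h]
    exact k2
  · have e : (x ^ (m + 1)).right = 1 := by
      have := pow_card_eq_one' (x := x.right)
      rw [← rightHom_eq_right, map_pow, rightHom_eq_right]
      simpa using this
    rw [Frob_eq_inl h1 e]
    exact Frob_all h1 h2 h hx _

end

theorem atom_frob {W : Type} [AddCommGroup W] [Finite W] (ω : W →+ W) (n : ℕ) (hn : n.Prime)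
    (h1 : ∀ x, ω^[n] x = x) (h2 : ∀ i, 0 < i → i < n → ∀ x, ω^[i] x = x → x = 0) :
    Atom (Nat.card W * n) (DW ω + Nat.card W * n) n := by
  classical
  obtain ⟨m, rfl⟩ : ∃ m, n = m + 1 := ⟨n - 1, by have := hn.pos; omega⟩
  have hm : 0 < m := by have := hn.one_lt; omega
  have hfin : Finite (FrobG h1) := Finite.of_equiv _ SemidirectProduct.equivProd.symm
  have hcard : Nat.card (FrobG h1) = Nat.card W * (m + 1) := by
    rw [SemidirectProduct.card, Nat.card_congr (Multiplicative.toAdd (α := W))]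
    simp
  refine ⟨FrobG h1, inferInstance, hfin, hcard, ?_, Frob_cenExp h1 h2 hm⟩
  let _ : Fintype (AddSubgroup W) := Fintype.ofFinite _
  have hinj : Function.Injective (FrobP h1) := fun H K e => by
    rw [← FrobL_P h1 H, e, FrobL_P]
  have htop : (⊤ : Subgroup (FrobG h1)) ∉
      (Finset.univ.filter fun H : AddSubgroup W => ∀ x ∈ H, ω x ∈ H).image (FrobP h1) := by
    intro h
    obtain ⟨H, -, e⟩ := Finset.mem_image.1 h
    have k : (inr (Multiplicative.ofAdd 1) : FrobG h1) ∈ FrobP h1 H := by rw [e]; trivial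
    obtain ⟨u, -, hu⟩ := k
    have : Fact (1 < m + 1) := ⟨by omega⟩
    have k2 := congrArg SemidirectProduct.right hu
    rw [right_inl, right_inr] at k2
    have k3 : (0 : ZMod (m + 1)) = 1 := congrArg Multiplicative.toAdd k2
    exact zero_ne_one k3
  rw [DD, DW, wt_eq_sum (insert ⊤
      ((Finset.univ.filter fun H : AddSubgroup W => ∀ x ∈ H, ω x ∈ H).image (FrobP h1))),
    awt_eq_sum (Finset.univ.filter fun H : AddSubgroup W => ∀ x ∈ H, ω x ∈ H) (by simp),
    Finset.sum_insert htop, Finset.sum_image hinj.injOn, Subgroup.card_top, hcard, add_comm]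
  · exact congrArg (· + _) (Finset.sum_congr rfl fun H _ => FrobP_card h1 H)
  · intro P
    rw [Finset.mem_insert, Finset.mem_image]
    constructor
    · rintro (rfl | ⟨H, hH, rfl⟩)
      · infer_instance
      · exact FrobP_normal h1 (Finset.mem_filter.1 hH).2
    · intro hP
      exact (Frob_cases h1 h2 hn hP).imp id fun e =>
        ⟨_, Finset.mem_filter.2 ⟨Finset.mem_univ _, FrobL_inv h1 hm hP⟩, e.symm⟩

lemma Frob_mul_iter {F : Type} [Field F] (k : F) (i : ℕ) (x : F) :
    (AddMonoidHom.mulLeft k)^[i] x = k ^ i * x := by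
  induction i with
  | zero => simp
  | succ i ih =>
    rw [Function.iterate_succ_apply', ih, pow_succ', mul_assoc]
    rfl

lemma Frob_field {F : Type} [Field F] [Finite F] (n : ℕ) (hn : n.Prime)
    (h : n ∣ Nat.card F - 1) : ∃ k : F, (∀ x, (AddMonoidHom.mulLeft k)^[n] x = x) ∧
      ∀ i, 0 < i → i < n → ∀ x, (AddMonoidHom.mulLeft k)^[i] x = x → x = 0 := by
  have : Fact n.Prime := ⟨hn⟩
  obtain ⟨k, hk⟩ := exists_prime_orderOf_dvd_card' (G := Fˣ) n (by rwa [Nat.card_units])
  rw [← orderOf_units] at hk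
  refine ⟨k, fun x => ?_, fun i i1 i2 x hx => ?_⟩
  · rw [Frob_mul_iter, ← hk, pow_orderOf_eq_one, one_mul]
  · rw [Frob_mul_iter] at hx
    by_contra h0
    exact pow_ne_one_of_lt_orderOf i1.ne' (hk ▸ i2) ((mul_eq_right₀ h0).1 hx)

theorem atom_frob_prime (l n : ℕ) (hl : l.Prime) (hn : n.Prime) (h : n ∣ l - 1) :
    Atom (l * n) (l + 1 + l * n) n := by
  have : Fact l.Prime := ⟨hl⟩
  obtain ⟨k, k1, k2⟩ := Frob_field (F := ZMod l) n hn (by rwa [Nat.card_zmod])
  have := atom_frob (mu l k) n hn k1 k2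
  rwa [DW_mu l hl.ne_zero, Nat.card_zmod, hl.sum_divisors] at this

theorem atom_frob_field (l f n : ℕ) (hl : l.Prime) (hn : n.Prime) (hf : f ≠ 0)
    (h1 : l ^ f % n = 1) (h2 : ∀ i, 0 < i → i < f → l ^ i % n ≠ 1) :
    Atom (l ^ f * n) (l ^ f + 1 + l ^ f * n) n := by
  classical
  have : Fact l.Prime := ⟨hl⟩
  have : Fact n.Prime := ⟨hn⟩
  have hc : Nat.card (GaloisField l f) = l ^ f := GaloisField.card l f hf
  obtain ⟨k, k1, k2⟩ := Frob_field (F := GaloisField l f) n hn (by
    rw [hc, ← h1]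
    exact Nat.dvd_sub_mod _)
  have hA := atom_frob (AddMonoidHom.mulLeft k) n hn k1 k2
  have hne : (⊥ : AddSubgroup (GaloisField l f)) ≠ ⊤ := bot_ne_top
  rw [DW, awt_eq_sum ({⊥, ⊤} : Finset (AddSubgroup (GaloisField l f))), Finset.sum_pair hne,
    AddSubgroup.card_bot, AddSubgroup.card_top, hc, add_comm 1] at hA
  · exact hA
  intro H
  rw [Finset.mem_insert, Finset.mem_singleton]
  constructor
  · rintro (rfl | rfl) x hx
    · rw [AddSubgroup.mem_bot] at hx ⊢
      rw [hx, map_zero]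
    · trivial
  · intro hH
    obtain ⟨i, hi, e⟩ := (Nat.dvd_prime_pow hl).1 (hc ▸ H.card_addSubgroup_dvd_card)
    let _ : Fintype H := Fintype.ofFinite _
    let g : Function.End H := fun x => ⟨_, hH x.1 x.2⟩
    have hg : ∀ (j : ℕ) (x : H), ((g ^ j) x).1 = (AddMonoidHom.mulLeft k)^[j] x.1 := by
      intro j x
      induction j with
      | zero => rfl
      | succ j ih =>
        rw [pow_succ', Function.iterate_succ_apply', ← ih]
        rfl
    have hm := Equiv.Perm.card_fixedPoints_modEq (f := g) (p := n) (n := 1)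
      (funext fun x => Subtype.ext (by rw [pow_one, hg, k1]; rfl))
    have hfix : Fintype.card g.fixedPoints = 1 := Fintype.card_eq_one_iff.2
      ⟨⟨0, Subtype.ext (map_zero _)⟩, fun y => Subtype.ext (Subtype.ext
        (k2 1 one_pos hn.one_lt _ (congrArg Subtype.val y.2)))⟩
    rw [hfix, ← Nat.card_eq_fintype_card, e, Nat.ModEq, Nat.mod_eq_of_lt hn.one_lt] at hm
    rcases Nat.eq_zero_or_pos i with rfl | i0
    · exact Or.inl (AddSubgroup.card_eq_one.1 (by simpa using e))
    · rcases hi.eq_or_lt with rfl | hi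
      · exact Or.inr ((AddSubgroup.card_eq_iff_eq_top H).1 (e.trans hc.symm))
      · exact absurd hm (h2 i i0 hi)

end Pool.Agent.Lib.MP_c05f82_nt.LG
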