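import Pool.Agent.Lib.MP_c05f82_nt.LG.Defs

/-!
Simple groups.
-/

open scoped commutatorElement

namespace Pool.Agent.Lib.MP_c05f82_nt.LG

open Pool.Agent.Lib.MP_c05f82_nt.GC

theorem atom_simple (G : Type) [Group G] [Finite G] [IsSimpleGroup G]
    (h : ∃ x y : G, x * y ≠ y * x) : Atom (Nat.card G) (Nat.card G + 1) 1 := by
  classical
  refine ⟨G, inferInstance, inferInstance, rfl, ?_, ?_⟩
  · rw [DD, wt_eq_sum ({⊤, ⊥} : Finset (Subgroup G)) fun N => ?_]
    · rw [Finset.sum_pair top_ne_bot]
      simp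
    · simp only [Finset.mem_insert, Finset.mem_singleton]
      refine ⟨?_, fun hN => (hN.eq_bot_or_eq_top).symm⟩
      rintro (rfl | rfl) <;> infer_instance
  · intro M hM x hx
    rcases hM.eq_bot_or_eq_top with rfl | rfl
    · have hc : x ∈ Subgroup.center G := Subgroup.mem_center_iff.2 fun g =>
        (commutatorElement_eq_one_iff_mul_comm.1 (Subgroup.mem_bot.1 (hx g))).symm
      rcases (inferInstance : (Subgroup.center G).Normal).eq_bot_or_eq_top with h1 | h1
      · rw [pow_one, ← h1]
        exact hc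
      · obtain ⟨a, b, hab⟩ := h
        have : b ∈ Subgroup.center G := h1 ▸ Subgroup.mem_top b
        exact absurd (Subgroup.mem_center_iff.1 this a) hab
    · exact Subgroup.mem_top _

theorem Simp_card_SL (p : ℕ) [Fact p.Prime] :
    Nat.card (Matrix.SpecialLinearGroup (Fin 2) (ZMod p)) = p * (p ^ 2 - 1) := by
  have hp : p.Prime := Fact.out
  let D : GL (Fin 2) (ZMod p) →* (ZMod p)ˣ := Matrix.GeneralLinearGroup.det
  have e : Matrix.SpecialLinearGroup (Fin 2) (ZMod p) ≃ D.ker :=
    { toFun := fun A => ⟨Matrix.SpecialLinearGroup.toGL A, by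
        rw [MonoidHom.mem_ker]
        ext
        simp [D]⟩
      invFun := fun B => ⟨(B.1 : Matrix (Fin 2) (Fin 2) (ZMod p)), by
        have := congrArg Units.val (MonoidHom.mem_ker.1 B.2)
        simpa [D] using this⟩
      left_inv := fun A => rfl
      right_inv := fun B => Subtype.ext (Units.ext rfl) }
  have h1 := D.ker.card_mul_index
  rw [Subgroup.index_ker, MonoidHom.range_eq_top.2 Matrix.GeneralLinearGroup.det_surjective,
    Subgroup.card_top, Matrix.card_GL_field, Nat.card_eq_fintype_card (α := (ZMod p)ˣ),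
    ZMod.card_units, ← Nat.card_congr e, Fin.prod_univ_two, ZMod.card] at h1
  have h2 : p ^ 2 - p = p * (p - 1) := by rw [Nat.mul_sub_one, pow_two]
  simp only [Fin.val_zero, Fin.val_one, pow_zero, pow_one, h2] at h1
  refine Nat.eq_of_mul_eq_mul_right (m := p - 1) (by have := hp.two_le; omega) ?_
  rw [h1]
  ring

theorem Simp_card_center (p : ℕ) [Fact p.Prime] (h5 : 5 ≤ p) :
    Nat.card (Subgroup.center (Matrix.SpecialLinearGroup (Fin 2) (ZMod p))) = 2 := by
  have : Fact (2 < p) := ⟨by omega⟩
  have hne : (1 : Matrix.SpecialLinearGroup (Fin 2) (ZMod p)) ≠ -1 := by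
    intro h
    have h1 := congrArg (fun A : Matrix.SpecialLinearGroup (Fin 2) (ZMod p) => A.1 0 0) h
    simp only [Matrix.SpecialLinearGroup.coe_one, Matrix.SpecialLinearGroup.coe_neg,
      Matrix.neg_apply, Matrix.one_apply_eq] at h1
    exact ZMod.neg_one_ne_one h1.symm
  have hs : (Subgroup.center (Matrix.SpecialLinearGroup (Fin 2) (ZMod p)) :
      Set (Matrix.SpecialLinearGroup (Fin 2) (ZMod p))) = {1, -1} := by
    ext A
    simp only [SetLike.mem_coe, Set.mem_insert_iff, Set.mem_singleton_iff]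
    constructor
    · intro hA
      obtain ⟨r, hr, hA'⟩ := Matrix.SpecialLinearGroup.mem_center_iff.1 hA
      rw [Fintype.card_fin, sq_eq_one_iff] at hr
      rcases hr with rfl | rfl
      · left
        apply Subtype.ext
        rw [← hA']
        simp
      · right
        apply Subtype.ext
        rw [← hA', map_neg, map_one]
        simp
    · rintro (rfl | rfl)
      · exact Subgroup.one_mem _
      · exact Subgroup.mem_center_iff.2 fun g => by simp
  have := Set.ncard_pair hne
  rw [← hs] at this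
  exact this

theorem atom_psl (p : ℕ) (hp : p.Prime) (h5 : 5 ≤ p) :
    Atom (p * (p ^ 2 - 1) / 2) (p * (p ^ 2 - 1) / 2 + 1) 1 := by
  have : Fact p.Prime := ⟨hp⟩
  have h4 : 4 ≤ Nat.card (ZMod p) := by
    rw [Nat.card_zmod]
    omega
  have hS := Matrix.ProjectiveSpecialLinearGroup.rank_two_simple h4
  have hc : Nat.card (Matrix.ProjectiveSpecialLinearGroup (Fin 2) (ZMod p)) =
      p * (p ^ 2 - 1) / 2 := by
    have h1 := Subgroup.card_eq_card_quotient_mul_card_subgroup
      (Subgroup.center (Matrix.SpecialLinearGroup (Fin 2) (ZMod p)))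
    rw [Simp_card_SL, Simp_card_center p h5] at h1
    rw [h1, Nat.mul_div_cancel _ two_pos]
  rw [← hc]
  refine atom_simple _ ?_
  by_contra hn
  have hcm : ∀ x y : Matrix.ProjectiveSpecialLinearGroup (Fin 2) (ZMod p), x * y = y * x :=
    fun x y => by_contra fun h => hn ⟨x, y, h⟩
  have h2 : (2 : ZMod p) ≠ 0 ∧ (2 : ZMod p) ^ 2 ≠ 1 := by
    constructor
    · intro h
      have := (ZMod.natCast_eq_zero_iff 2 p).1 (by exact_mod_cast h)
      have := Nat.le_of_dvd two_pos this
      omega
    · intro h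
      have h3 : ((3 : ℕ) : ZMod p) = 0 := by
        push_cast
        linear_combination h
      have := Nat.le_of_dvd (by norm_num) ((ZMod.natCast_eq_zero_iff 3 p).1 h3)
      omega
  have ht := SL2Simple.PSL_commutator_eq_top ⟨2, h2⟩
  have hb : commutator (Matrix.ProjectiveSpecialLinearGroup (Fin 2) (ZMod p)) = ⊥ := by
    rw [commutator, Subgroup.commutator_eq_bot_iff_le_centralizer]
    intro x _
    exact Subgroup.mem_centralizer_iff.2 fun y _ => hcm y x
  exact top_ne_bot (ht.symm.trans hb)

end Pool.Agent.Lib.MP_c05f82_nt.LG
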