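import Pool.Agent.Lib.MP_c05f82_nt.LG.Prod
import Pool.Agent.Lib.MP_c05f82_nt.LG.Simp
import Pool.Agent.Lib.MP_c05f82_nt.LG.Frob

/-!
The fixed cofactor.
-/

namespace Pool.Agent.Lib.MP_c05f82_nt.LG

open Pool.Agent.Lib.MP_c05f82_nt.GC

lemma atom_3721 : Atom 3721 3783 3721 := by
  have h : ∑ d ∈ Nat.divisors (61 ^ 2), d = 3783 := by
    rw [Nat.sum_divisors_prime_pow (by norm_num)]
    simp [Finset.sum_range_succ]
  exact h ▸ atom_cyc (61 ^ 2) (by norm_num)

lemma atom_343 : Atom (7 ^ 3 * 19) (7 ^ 3 + 1 + 7 ^ 3 * 19) 19 :=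
  atom_frob_field 7 3 19 (by norm_num) (by norm_num) (by norm_num) (by norm_num)
    fun i h1 h2 => by interval_cases i <;> norm_num

lemma cof_cyc : Atom (236017 * 32003 * 6823 * 6211 * 6073 * 3037 * 769 * 647 * 499 * 311 * 167 *
      113 * 3721) (236018 * 32004 * 6824 * 6212 * 6074 * 3038 * 770 * 648 * 500 * 312 * 168 *
      114 * 3783) (236017 * 32003 * 6823 * 6211 * 6073 * 3037 * 769 * 647 * 499 * 311 * 167 *
      113 * 3721) :=
  ((((((((((((atom_prime 236017 (by norm_num)).mul (atom_prime 32003 (by norm_num))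
    (by norm_num)).mul (atom_prime 6823 (by norm_num)) (by norm_num)).mul
    (atom_prime 6211 (by norm_num)) (by norm_num)).mul (atom_prime 6073 (by norm_num))
    (by norm_num)).mul (atom_prime 3037 (by norm_num)) (by norm_num)).mul
    (atom_prime 769 (by norm_num)) (by norm_num)).mul (atom_prime 647 (by norm_num))
    (by norm_num)).mul (atom_prime 499 (by norm_num)) (by norm_num)).mul
    (atom_prime 311 (by norm_num)) (by norm_num)).mul (atom_prime 167 (by norm_num))
    (by norm_num)).mul (atom_prime 113 (by norm_num)) (by norm_num)).mul atom_3721 (by norm_num)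

lemma cof_psl : Atom (60 * 3420 * 6072 * 12180 * 14880 * 2964780 * 5980925808)
    (61 * 3421 * 6073 * 12181 * 14881 * 2964781 * 5980925809) (1 * 1 * 1 * 1 * 1 * 1 * 1) :=
  ((((((atom_psl 5 (by norm_num) (by norm_num)).mul (atom_psl 19 (by norm_num) (by norm_num))
    (by norm_num)).mul (atom_psl 23 (by norm_num) (by norm_num)) (by norm_num)).mul
    (atom_psl 29 (by norm_num) (by norm_num)) (by norm_num)).mul
    (atom_psl 31 (by norm_num) (by norm_num)) (by norm_num)).mul
    (atom_psl 181 (by norm_num) (by norm_num)) (by norm_num)).mul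
    (atom_psl 2287 (by norm_num) (by norm_num)) (by norm_num)

lemma cof_frob : Atom (26237 * 937 * (1553 * 97) * (7 ^ 3 * 19))
    ((26237 + 1 + 26237 * 937) * (1553 + 1 + 1553 * 97) * (7 ^ 3 + 1 + 7 ^ 3 * 19))
    (937 * 97 * 19) :=
  ((atom_frob_prime 26237 937 (by norm_num) (by norm_num) (by norm_num)).mul
    (atom_frob_prime 1553 97 (by norm_num) (by norm_num) (by norm_num)) (by norm_num)).mul
    atom_343 (by norm_num)

theorem exists_cofactor : ∃ n d k, Atom n d k ∧ 236017 * d = 266136 * n ∧ k.Coprime 42 :=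
  ⟨_, _, _, (cof_cyc.mul cof_psl (by norm_num)).mul cof_frob (by norm_num), by norm_num,
    by norm_num⟩

end Pool.Agent.Lib.MP_c05f82_nt.LG
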