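import Pool.Agent.Lib.MP_c05f82_nt.LG.Defs

/-!
The natural action of the special linear group over the field with seven elements.
-/

open scoped commutatorElement

namespace Pool.Agent.Lib.MP_c05f82_nt.LG

open Pool.Agent.Lib.MP_c05f82_nt.GC

lemma nat_mul (g h : SL F7) (v : F7 × F7) : nat (g * h) v = nat g (nat h v) := by
  ext <;> simp [nat] <;> ring

lemma nat_one (v : F7 × F7) : nat 1 v = v := by ext <;> simp [nat]

lemma nat_add (g : SL F7) (v w : F7 × F7) : nat g (v + w) = nat g v + nat g w := by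
  ext <;> simp [nat] <;> ring

lemma nat_smul (g : SL F7) (c : F7) (v : F7 × F7) : nat g (c • v) = c • nat g v := by
  ext <;> simp [nat] <;> ring

lemma nat_neg (g : SL F7) (v : F7 × F7) : nat g (-v) = -nat g v := by
  ext <;> simp [nat] <;> ring

lemma nat_zero (g : SL F7) : nat g 0 = 0 := by ext <;> simp [nat]

lemma nat_neg1 (v : F7 × F7) : nat (neg1 F7) v = -v := by ext <;> simp [nat, neg1]

lemma dt_nat (g : SL F7) (v w : F7 × F7) : dt (nat g v) (nat g w) = dt v w := by
  simp only [dt, nat]
  linear_combination (v.1 * w.2 - v.2 * w.1) * g.det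

lemma dt_add_left (u v w : F7 × F7) : dt (u + v) w = dt u w + dt v w := by simp [dt]; ring
lemma dt_add_right (u v w : F7 × F7) : dt u (v + w) = dt u v + dt u w := by simp [dt]; ring
lemma dt_smul_left (c : F7) (v w : F7 × F7) : dt (c • v) w = c * dt v w := by simp [dt]; ring
lemma dt_smul_right (c : F7) (v w : F7 × F7) : dt v (c • w) = c * dt v w := by simp [dt]; ring
lemma dt_neg_left (v w : F7 × F7) : dt (-v) w = -dt v w := by simp [dt]; ring
lemma dt_zero_left (w : F7 × F7) : dt 0 w = 0 := by simp [dt]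
lemma dt_zero_right (w : F7 × F7) : dt w 0 = 0 := by simp [dt]

lemma Ad_add (g : SL F7) (x y : F7 × F7 × F7) : Ad g (x + y) = Ad g x + Ad g y := by
  ext <;> simp [Ad] <;> ring

lemma neg1_ne_one : neg1 F7 ≠ 1 := fun h => absurd (congrArg SL.a h) (by decide)

lemma neg1_mul_neg1 {K : Type} [Field K] : neg1 K * neg1 K = 1 := by ext <;> simp [neg1]

lemma neg1_comm {K : Type} [Field K] (g : SL K) : neg1 K * g = g * neg1 K := by
  ext <;> simp [neg1]

end Pool.Agent.Lib.MP_c05f82_nt.LG
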