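import Pool.Agent.Lib.MP_c05f82_nt.LG.Kub
import Pool.Agent.Lib.MP_c05f82_nt.LG.Nat7

/-!
The sevenfold cover of the special linear group.
-/

open scoped commutatorElement

namespace Pool.Agent.Lib.MP_c05f82_nt.LG

open Pool.Agent.Lib.MP_c05f82_nt.GC

variable {K : Type} [Field K]

namespace Dt

variable (D : Dt K)

lemma sig_one_left (g : SL K) : D.sig 1 g = 0 := by
  rw [sig, one_mul, div_self g.x_ne, c_one_right]

lemma sig_one_right (g : SL K) : D.sig g 1 = 0 := by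
  rw [sig, mul_one, div_self g.x_ne, c_one_left]

lemma sig_of_one {g h : SL K} (ha : h.a = 1) (hd : g.d = 1) : D.sig g h = 0 := by
  rw [D.sig_eq (by simp [ha]) (by simp [hd]), ha, hd]
  simp [c_one_left]

lemma neg1_x (g : SL K) : (neg1 K * g).x = -g.x := by
  by_cases h : g.c = 0
  · rw [SL.x_of_eq h, SL.x_of_eq (by simp [neg1, h])]; simp [neg1]
  · rw [SL.x_of_ne h, SL.x_of_ne (by simp [neg1, h])]; simp [neg1]

lemma sig_neg1_left (g : SL K) : D.sig (neg1 K) g = 0 := by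
  rw [sig, neg1_x, neg_div g.x, div_self g.x_ne, D.c_neg_right _ one_ne_zero, c_one_right]

lemma sig_neg1_right (g : SL K) : D.sig g (neg1 K) = 0 := by
  rw [sig, ← neg1_comm, neg1_x, neg_div g.x, div_self g.x_ne, D.c_neg_left _ one_ne_zero,
    c_one_left]

end Dt

/-- the cover -/
@[ext] structure Cv (D : Dt K) where
  g : SL K
  z : ZMod 7

namespace Cv

variable {D : Dt K}

noncomputable instance : Mul (Cv D) := ⟨fun x y => ⟨x.g * y.g, x.z + y.z + D.sig x.g y.g⟩⟩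
instance : One (Cv D) := ⟨⟨1, 0⟩⟩
noncomputable instance : Inv (Cv D) := ⟨fun x => ⟨x.g⁻¹, -x.z - D.sig x.g⁻¹ x.g⟩⟩

@[simp] lemma mul_g (x y : Cv D) : (x * y).g = x.g * y.g := rfl
lemma mul_z (x y : Cv D) : (x * y).z = x.z + y.z + D.sig x.g y.g := rfl
@[simp] lemma one_g : (1 : Cv D).g = 1 := rfl
@[simp] lemma one_z : (1 : Cv D).z = 0 := rfl
@[simp] lemma inv_g (x : Cv D) : (x⁻¹).g = x.g⁻¹ := rfl
lemma inv_z (x : Cv D) : (x⁻¹).z = -x.z - D.sig x.g⁻¹ x.g := rfl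

noncomputable instance : Group (Cv D) := Group.ofLeftAxioms
  (fun x y w => Cv.ext (mul_assoc _ _ _) (by
    simp only [mul_z, mul_g]
    linear_combination D.sig_cocycle x.g y.g w.g))
  (fun x => Cv.ext (one_mul _) (by simp [mul_z, D.sig_one_left]))
  (fun x => Cv.ext (inv_mul_cancel _) (by simp only [mul_z, inv_z, inv_g, one_z]; ring))

@[simp] lemma comm_g (x y : Cv D) : (⁅x, y⁆).g = ⁅x.g, y.g⁆ := rfl

variable (D)

/-- lifts -/
def E (b : K) : Cv D := ⟨SL.eM b, 0⟩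
def F (y : K) : Cv D := ⟨SL.fM y, 0⟩
def zc (k : ZMod 7) : Cv D := ⟨1, k⟩
def io : Cv D := ⟨neg1 K, 0⟩

@[simp] lemma E_g (b : K) : (E D b).g = SL.eM b := rfl
@[simp] lemma F_g (b : K) : (F D b).g = SL.fM b := rfl
@[simp] lemma zc_g (k : ZMod 7) : (zc D k).g = 1 := rfl
@[simp] lemma io_g : (io D).g = neg1 K := rfl
@[simp] lemma E_z (b : K) : (E D b).z = 0 := rfl
@[simp] lemma F_z (b : K) : (F D b).z = 0 := rfl
@[simp] lemma zc_z (k : ZMod 7) : (zc D k).z = k := rfl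
@[simp] lemma io_z : (io D).z = 0 := rfl

lemma E_inv (b : K) : (E D b)⁻¹ = E D (-b) := by
  refine inv_eq_of_mul_eq_one_right (Cv.ext (by ext <;> simp) ?_)
  simp only [mul_z, E_g, E_z]
  rw [D.sig_of_one rfl rfl]; simp

lemma F_inv (y : K) : (F D y)⁻¹ = F D (-y) := by
  refine inv_eq_of_mul_eq_one_right (Cv.ext (by ext <;> simp) ?_)
  simp only [mul_z, F_g, F_z]
  rw [D.sig_of_one rfl rfl]; simp

lemma mul_zc (x : Cv D) (k : ZMod 7) : x * zc D k = ⟨x.g, x.z + k⟩ :=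
  Cv.ext (mul_one _) (by simp [mul_z, D.sig_one_right])

lemma zc_mul (x : Cv D) (k : ZMod 7) : zc D k * x = ⟨x.g, x.z + k⟩ :=
  Cv.ext (one_mul _) (by simp [mul_z, D.sig_one_left, add_comm])

lemma zc_comm (k : ZMod 7) (x : Cv D) : Commute (zc D k) x := by
  rw [Commute, SemiconjBy, mul_zc, zc_mul]

lemma zc_add (k l : ZMod 7) : zc D (k + l) = zc D k * zc D l := by rw [mul_zc]; rfl

lemma zc_inv (k : ZMod 7) : (zc D k)⁻¹ = zc D (-k) :=
  inv_eq_of_mul_eq_one_right (by rw [← zc_add, add_neg_cancel]; rfl)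

lemma io_comm (x : Cv D) : Commute (io D) x :=
  Cv.ext (neg1_comm x.g) (by simp [mul_z, D.sig_neg1_left, D.sig_neg1_right])

lemma io_sq : io D * io D = 1 :=
  Cv.ext neg1_mul_neg1 (by simp [mul_z, D.sig_neg1_left])

end Cv

end Pool.Agent.Lib.MP_c05f82_nt.LG
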