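import Pool.Agent.Lib.MP_c05f82_nt.GC.Defs

/-!
Definitions for the infinite family of finite groups with `D(G) = 2 |G|`.
-/

open scoped commutatorElement

namespace Pool.Agent.Lib.MP_c05f82_nt.LG

open Pool.Agent.Lib.MP_c05f82_nt.GC

instance fact7 : Fact (Nat.Prime 7) := ⟨by norm_num⟩

abbrev F7 : Type := ZMod 7

/-- the centre of every quotient has exponent dividing `k` -/
def CenExp (G : Type) [Group G] (k : ℕ) : Prop :=
  ∀ M : Subgroup G, M.Normal → ∀ x : G, (∀ g, ⁅x, g⁆ ∈ M) → x ^ k ∈ M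

/-- there is a finite group of order `n` with sum `d` and central exponent `k` -/
def Atom (n d k : ℕ) : Prop :=
  ∃ (G : Type) (_ : Group G) (_ : Finite G), Nat.card G = n ∧ DD G = d ∧ CenExp G k

/-- minus the identity -/
def neg1 (K : Type) [Field K] : SL K := ⟨-1, 0, 0, -1, by ring⟩

/-- the adjoint action on the matrix with rows `(x.1, x.2.1)` and `(x.2.2, -x.1)` -/
def Ad (g : SL F7) (x : F7 × F7 × F7) : F7 × F7 × F7 :=
  ((g.a * g.d + g.b * g.c) * x.1 - g.a * g.c * x.2.1 + g.b * g.d * x.2.2,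
    -2 * g.a * g.b * x.1 + g.a ^ 2 * x.2.1 - g.b ^ 2 * x.2.2,
    2 * g.c * g.d * x.1 - g.c ^ 2 * x.2.1 + g.d ^ 2 * x.2.2)

/-- the natural action -/
def nat (g : SL F7) (v : F7 × F7) : F7 × F7 := (g.a * v.1 + g.b * v.2, g.c * v.1 + g.d * v.2)

/-- the symplectic form -/
def dt (v w : F7 × F7) : F7 := v.1 * w.2 - v.2 * w.1

/-- a filtration with layers of order 343 above a central subgroup of order seven -/
structure Tw (X : Type) [Group X] (N : ℕ) where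
  G : ℕ → Subgroup X
  S : Subgroup X
  zc : F7 → X
  io : X
  rho : X → SL F7
  lam : ℕ → X → F7 × F7 × F7
  two_le : 2 ≤ N
  anti : ∀ j ≤ N, G (j + 1) ≤ G j
  conj : ∀ j ≤ N + 1, ∀ x ∈ G j, ∀ g ∈ G 0, g * x * g⁻¹ ∈ G j
  S_le : S ≤ G N
  S_conj : ∀ x ∈ S, ∀ g ∈ G 0, g * x * g⁻¹ ∈ S
  zc_add : ∀ k l, zc (k + l) = zc k * zc l
  zc_mem : ∀ k, zc k ∈ G (N + 1)
  zc_comm : ∀ k g, Commute (zc k) g
  exists_z : ∀ x ∈ G N, ∃ k, x * (zc k)⁻¹ ∈ S
  z_S : ∀ k, zc k ∈ S → k = 0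
  io_mem : io ∈ G 0
  io_comm : ∀ g, Commute io g
  io_sq : io * io = 1
  rho_io : rho io = neg1 F7
  rho_mul : ∀ x ∈ G 0, ∀ y ∈ G 0, rho (x * y) = rho x * rho y
  rho_ker : ∀ x ∈ G 0, rho x = 1 ↔ x ∈ G 1
  rho_surj : ∀ s, ∃ x ∈ G 0, rho x = s
  lam_mul : ∀ j, 1 ≤ j → j ≤ N → ∀ x ∈ G j, ∀ y ∈ G j, lam j (x * y) = lam j x + lam j y
  lam_ker : ∀ j, 1 ≤ j → j ≤ N → ∀ x ∈ G j, lam j x = 0 ↔ x ∈ G (j + 1)
  lam_surj : ∀ j, 1 ≤ j → j ≤ N → ∀ u, ∃ x ∈ G j, lam j x = u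
  lam_conj : ∀ j, 1 ≤ j → j ≤ N → ∀ x ∈ G j, ∀ g ∈ G 0,
    lam j (g * x * g⁻¹) = Ad (rho g) (lam j x)
  step : ∀ j, 1 ≤ j → j < N → ∀ x ∈ G j, lam j x = (0, 1, 0) →
    ∃ y ∈ G 0, ⁅x, y⁆ ∈ G (j + 1) ∧ ⁅x, y⁆ ∉ G (j + 2)
  key : ∀ j, j + 1 = N → ∀ x ∈ G j, lam j x = (0, 1, 0) → ∃ y ∈ G 0, ⁅x, y⁆ ∈ G N ∧ ⁅x, y⁆ ∉ S

/-- the filtration starts with the whole group and its bottom is trivial -/
structure Tw.Red {X : Type} [Group X] {N : ℕ} (T : Tw X N) : Prop where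
  top : T.G 0 = ⊤
  bot : T.S ⊓ T.G (N + 1) = ⊥

/-- what is used of the finite cover -/
structure BD (B : Type) [Group B] (A g : ℕ) where
  zc : F7 → B
  io : B
  rho : B →* SL F7
  fin : Finite B
  zc_add : ∀ k l, zc (k + l) = zc k * zc l
  zc_comm : ∀ k x, Commute (zc k) x
  zc_inj : ∀ k, zc k = 1 → k = 0
  rho_zc : ∀ k, rho (zc k) = 1
  io_comm : ∀ x, Commute io x
  rho_io : rho io = neg1 F7
  rho_surj : Function.Surjective rho
  card_ker : Nat.card rho.ker = 7 * A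
  io_mem : ∀ M : Subgroup B, M.Normal → ¬ M ≤ rho.ker → io ∈ M
  eq_top : ∀ M : Subgroup B, M.Normal → (∃ x ∈ M, rho x ≠ 1 ∧ rho x ≠ neg1 F7) → M = ⊤
  w1 : wt (fun M : Subgroup B => M.Normal ∧ M ≤ rho.ker) = 344 + 7 * g
  w2 : wt (fun M : Subgroup B => M.Normal ∧ M ≤ rho.ker ∧ zc 1 ∈ M) = 7 * g
  w3 : wt (fun M : Subgroup B => M.Normal ∧ zc 1 ∈ M) = 21 * g + 7 * 336 * A

/-! ### local data -/

/-- `p` is not a norm from the extension obtained by adjoining a seventh root of `u` -/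
def NoNorm {K : Type} (Ω : Type) [Field K] [Field Ω] [Algebra K Ω] (ζ u p : K) : Prop :=
  ∀ α : Ω, α ^ 7 = algebraMap K Ω u → (∃ σ : Ω ≃ₐ[K] Ω, σ α ≠ α) ∧
    ∀ (s : Ω ≃ₐ[K] Ω) (γ : Ω), s α = algebraMap K Ω ζ * α →
      (∀ h : Ω ≃ₐ[K] Ω, h α = α → h γ = γ) →
      ∏ k ∈ Finset.range 7, (s ^ k) γ ≠ algebraMap K Ω p

/-- a discretely valued subfield with residue field of order seven -/
structure Lc (K Ω : Type) [Field K] [NormedField Ω] [Algebra K Ω] where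
  m : ℕ
  p : K
  m_pos : 0 < m
  pow : p ^ (6 * m) = -7
  p_ne : p ≠ 0
  p_lt : ‖algebraMap K Ω p‖ < 1
  val : ∀ x : K, x ≠ 0 → ∃ k : ℤ, ‖algebraMap K Ω x‖ = ‖algebraMap K Ω p‖ ^ k
  res : ∀ x : K, ‖algebraMap K Ω x‖ ≤ 1 → ∃ r : ℤ, ‖algebraMap K Ω (x - r)‖ < 1
  iso : ∀ (σ : Ω ≃ₐ[K] Ω) (x : Ω), ‖σ x‖ = ‖x‖

/-- a ramified extension of the seven-adic numbers with a symbol of order seven -/
structure Dt (K : Type) [Field K] where
  m : ℕ
  O : Subring K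
  p : K
  c : K → K → ZMod 7
  m_pos : 0 < m
  p_mem : p ∈ O
  p_ne : p ≠ 0
  pow : p ^ (6 * m) = -7
  resid : ∀ x ∈ O, ∃ r : ℤ, ∃ y ∈ O, x = r + p * y
  nunit : ∀ y ∈ O, p * y ≠ 1
  unit : ∀ y ∈ O, (1 + p * y)⁻¹ ∈ O
  root : ∀ y ∈ O, ∃ w : K, w ^ 7 = 1 + p ^ (7 * m + 1) * y
  c_mul_left : ∀ {x y : K} (z : K), x ≠ 0 → y ≠ 0 → c (x * y) z = c x z + c y z
  c_mul_right : ∀ (z : K) {x y : K}, x ≠ 0 → y ≠ 0 → c z (x * y) = c z x + c z y
  stein : ∀ {x : K}, x ≠ 0 → x ≠ 1 → c x (1 - x) = 0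
  key : c (1 + p ^ (7 * m)) p ≠ 0

variable {K : Type} [Field K]

namespace Dt

variable (D : Dt K)

/-! ### the symbol -/

lemma c_one_left (z : K) : D.c 1 z = 0 := by
  have := D.c_mul_left z one_ne_zero one_ne_zero
  simpa using this

lemma c_one_right (z : K) : D.c z 1 = 0 := by
  have := D.c_mul_right z one_ne_zero one_ne_zero
  simpa using this

lemma c_inv_left (z : K) {x : K} (hx : x ≠ 0) : D.c x⁻¹ z = -D.c x z := by
  have := D.c_mul_left z hx (inv_ne_zero hx)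
  rw [mul_inv_cancel₀ hx, c_one_left] at this
  linear_combination -this

lemma c_inv_right (z : K) {x : K} (hx : x ≠ 0) : D.c z x⁻¹ = -D.c z x := by
  have := D.c_mul_right z hx (inv_ne_zero hx)
  rw [mul_inv_cancel₀ hx, c_one_right] at this
  linear_combination -this

lemma c_div_left (z : K) {x y : K} (hx : x ≠ 0) (hy : y ≠ 0) :
    D.c (x / y) z = D.c x z - D.c y z := by
  rw [div_eq_mul_inv, D.c_mul_left z hx (inv_ne_zero hy), c_inv_left _ _ hy, sub_eq_add_neg]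

lemma c_div_right (z : K) {x y : K} (hx : x ≠ 0) (hy : y ≠ 0) :
    D.c z (x / y) = D.c z x - D.c z y := by
  rw [div_eq_mul_inv, D.c_mul_right z hx (inv_ne_zero hy), c_inv_right _ _ hy, sub_eq_add_neg]

lemma c_pow_left (z : K) {x : K} (hx : x ≠ 0) (n : ℕ) : D.c (x ^ n) z = n * D.c x z := by
  induction n with
  | zero => simp [c_one_left]
  | succ n ih => rw [pow_succ, D.c_mul_left z (pow_ne_zero _ hx) hx, ih]; push_cast; ring

lemma c_pow_right (z : K) {x : K} (hx : x ≠ 0) (n : ℕ) : D.c z (x ^ n) = n * D.c z x := by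
  induction n with
  | zero => simp [c_one_right]
  | succ n ih => rw [pow_succ, D.c_mul_right z (pow_ne_zero _ hx) hx, ih]; push_cast; ring

lemma c_sev_left (z : K) {x : K} (hx : x ≠ 0) : D.c (x ^ 7) z = 0 := by
  rw [c_pow_left _ _ hx]; exact mul_eq_zero_of_left rfl _

lemma c_sev_right (z : K) {x : K} (hx : x ≠ 0) : D.c z (x ^ 7) = 0 := by
  rw [c_pow_right _ _ hx]; exact mul_eq_zero_of_left rfl _

lemma c_neg_left (z : K) {x : K} (hx : x ≠ 0) : D.c (-x) z = D.c x z := by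
  rw [show -x = (-1) ^ 7 * x by ring, D.c_mul_left z (by simp) hx, c_sev_left _ _ (by simp),
    zero_add]

lemma c_neg_right (z : K) {x : K} (hx : x ≠ 0) : D.c z (-x) = D.c z x := by
  rw [show -x = (-1) ^ 7 * x by ring, D.c_mul_right z (by simp) hx, c_sev_right _ _ (by simp),
    zero_add]

lemma c_self {x : K} (hx : x ≠ 0) : D.c x x = 0 := by
  by_cases h1 : x = 1
  · rw [h1, c_one_left]
  have h2 : 1 - x ≠ 0 := sub_ne_zero.2 (Ne.symm h1)
  have h3 : x⁻¹ ≠ 1 := by simpa using h1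
  have h4 : 1 - x⁻¹ ≠ 0 := sub_ne_zero.2 (Ne.symm h3)
  have a := D.stein (inv_ne_zero hx) h3
  rw [c_inv_left _ _ hx, show 1 - x⁻¹ = -((1 - x) / x) by field_simp; ring,
    c_neg_right _ _ (div_ne_zero h2 hx), c_div_right _ _ h2 hx, D.stein hx h1] at a
  linear_combination a

lemma c_swap {x y : K} (hx : x ≠ 0) (hy : y ≠ 0) : D.c y x = -D.c x y := by
  have := D.c_self (mul_ne_zero hx hy)
  rw [D.c_mul_left _ hx hy, D.c_mul_right _ hx hy, D.c_mul_right _ hx hy, D.c_self hx,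
    D.c_self hy] at this
  linear_combination this

lemma c_add_one {u w : K} (hu : u ≠ 0) (hw : w ≠ 0) (h : u + w = 1) : D.c u w = 0 := by
  rw [show w = 1 - u by linear_combination h]
  exact D.stein hu fun h1 => hw (by linear_combination h - h1)

/-! ### levels -/

/-- `x` is divisible by `p ^ k` -/
def L (k : ℕ) (x : K) : Prop := ∃ y ∈ D.O, x = D.p ^ k * y

variable {D}

lemma L_zero {x : K} : D.L 0 x ↔ x ∈ D.O := by simp [L]
lemma L.zero (k : ℕ) : D.L k 0 := ⟨0, zero_mem _, by simp⟩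
lemma L.add {k : ℕ} {x y : K} (hx : D.L k x) (hy : D.L k y) : D.L k (x + y) := by
  obtain ⟨a, ha, rfl⟩ := hx; obtain ⟨b, hb, rfl⟩ := hy
  exact ⟨a + b, add_mem ha hb, by ring⟩
lemma L.neg {k : ℕ} {x : K} (hx : D.L k x) : D.L k (-x) := by
  obtain ⟨a, ha, rfl⟩ := hx; exact ⟨-a, neg_mem ha, by ring⟩
lemma L.sub {k : ℕ} {x y : K} (hx : D.L k x) (hy : D.L k y) : D.L k (x - y) := by
  rw [sub_eq_add_neg]; exact hx.add hy.neg
lemma L.mono {k l : ℕ} {x : K} (hx : D.L k x) (h : l ≤ k) : D.L l x := by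
  obtain ⟨a, ha, rfl⟩ := hx
  obtain ⟨n, rfl⟩ := Nat.exists_eq_add_of_le h
  exact ⟨D.p ^ n * a, mul_mem (pow_mem D.p_mem n) ha, by ring⟩
lemma L.mul {i j k : ℕ} {x y : K} (hx : D.L i x) (hy : D.L j y) (h : k ≤ i + j) :
    D.L k (x * y) := by
  obtain ⟨a, ha, rfl⟩ := hx; obtain ⟨b, hb, rfl⟩ := hy
  exact L.mono ⟨a * b, mul_mem ha hb, by ring⟩ h
lemma L.of_eq {k : ℕ} {x y : K} (hx : D.L k x) (h : y = x) : D.L k y := h ▸ hx
lemma L.pow (k : ℕ) : D.L k (D.p ^ k) := ⟨1, one_mem _, by simp⟩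
lemma L.one : D.L 0 1 := L_zero.2 (one_mem _)
lemma L.int (r : ℤ) : D.L 0 r := L_zero.2 (intCast_mem _ r)
lemma L.nat (r : ℕ) : D.L 0 r := L_zero.2 (natCast_mem _ r)
lemma L.seven : D.L (6 * D.m) 7 := ⟨-1, neg_mem (one_mem _), by rw [D.pow]; ring⟩
lemma L.seven' : D.L 1 7 := L.seven.mono (by have := D.m_pos; omega)
lemma seven_ne (D : Dt K) : (7 : K) ≠ 0 := fun h =>
  pow_ne_zero (6 * D.m) D.p_ne (by rw [D.pow, h]; simp)
lemma L.mul_p {k : ℕ} {x : K} (hx : D.L k x) : D.L (k + 1) (D.p * x) := by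
  obtain ⟨a, ha, rfl⟩ := hx; exact ⟨a, ha, by ring⟩
lemma L.div_p {k : ℕ} {x : K} (hx : D.L (k + 1) x) : D.L k (x / D.p) := by
  obtain ⟨a, ha, rfl⟩ := hx
  exact ⟨a, ha, by have := D.p_ne; field_simp; ring⟩
lemma not_L_one : ¬ D.L 1 1 := fun ⟨y, hy, h⟩ => D.nunit y hy (by simpa using h.symm)
lemma not_L_pow (k : ℕ) : ¬ D.L (k + 1) (D.p ^ k) := fun ⟨y, hy, h⟩ =>
  D.nunit y hy (mul_left_cancel₀ (pow_ne_zero k D.p_ne) (by linear_combination -h))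
/-- one-units are integral -/
lemma L.of_sub_one {k : ℕ} {u : K} (hu : D.L k (u - 1)) : D.L 0 u :=
  ((hu.mono (Nat.zero_le _)).add L.one).of_eq (by ring)
lemma L.ne_zero {u : K} (hu : D.L 1 (u - 1)) : u ≠ 0 := fun h =>
  not_L_one (hu.neg.of_eq (by rw [h]; ring))
lemma L.inv {u : K} (hu : D.L 1 (u - 1)) : D.L 0 u⁻¹ := by
  obtain ⟨y, hy, h⟩ := hu
  rw [L_zero, show u = 1 + D.p * y by linear_combination h]
  exact D.unit y hy
lemma L.inv_sub_one {k : ℕ} {u : K} (hu : D.L (k + 1) (u - 1)) : D.L (k + 1) (u⁻¹ - 1) := by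
  have h1 := hu.mono (show 1 ≤ k + 1 by omega)
  have h0 := h1.ne_zero
  exact (hu.neg.mul h1.inv le_rfl).of_eq (by field_simp; ring)
lemma L.exists_root {u : K} (hu : D.L (7 * D.m + 1) (u - 1)) : ∃ w, w ≠ 0 ∧ w ^ 7 = u := by
  have h0 := (hu.mono (show 1 ≤ 7 * D.m + 1 by omega)).ne_zero
  obtain ⟨y, hy, h⟩ := hu
  obtain ⟨w, e⟩ := D.root y hy
  have e' : w ^ 7 = u := by linear_combination e - h
  exact ⟨w, fun hw => h0 (by rw [← e', hw]; simp), e'⟩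

lemma L_int_iff {r : ℤ} : D.L 1 r ↔ (r : ZMod 7) = 0 := by
  rw [ZMod.intCast_zmod_eq_zero_iff_dvd]
  constructor
  · intro h
    by_contra h7
    have hc : IsCoprime (7 : ℤ) r := (Int.prime_iff_natAbs_prime.2 (by norm_num) :
      Prime (7 : ℤ)).coprime_iff_not_dvd.2 h7
    obtain ⟨a, b, hab⟩ := hc
    have hs' : (a : K) * 7 + b * r = 1 := by exact_mod_cast congrArg (Int.cast : ℤ → K) hab
    exact not_L_one ((((L.int a).mul L.seven' le_rfl).add ((L.int b).mul h le_rfl)).of_eq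
      hs'.symm)
  · rintro ⟨s, rfl⟩
    exact (L.seven'.mul (L.int s) le_rfl).of_eq (by push_cast; ring)

variable (D) in
open Classical in
/-- the coefficient of `p ^ k` -/
noncomputable def co (k : ℕ) (x : K) : ZMod 7 :=
  if h : ∃ r : ℤ, D.L (k + 1) (x - r * D.p ^ k) then (h.choose : ZMod 7) else 0

lemma co_eq {k : ℕ} {x : K} {r : ℤ} (h : D.L (k + 1) (x - r * D.p ^ k)) : D.co k x = r := by
  have ex : ∃ r : ℤ, D.L (k + 1) (x - r * D.p ^ k) := ⟨r, h⟩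
  rw [co, dif_pos ex, ← sub_eq_zero, ← Int.cast_sub, ← L_int_iff (D := D)]
  obtain ⟨y, hy, e⟩ := h.sub ex.choose_spec
  exact ⟨y, hy, mul_left_cancel₀ (pow_ne_zero k D.p_ne) (by push_cast; linear_combination e)⟩

lemma L.exists_co {k : ℕ} {x : K} (hx : D.L k x) :
    ∃ r : ℤ, D.L (k + 1) (x - r * D.p ^ k) ∧ D.co k x = r := by
  obtain ⟨a, ha, rfl⟩ := hx
  obtain ⟨r, y, hy, rfl⟩ := D.resid a ha
  have : D.L (k + 1) (D.p ^ k * (r + D.p * y) - r * D.p ^ k) := ⟨y, hy, by ring⟩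
  exact ⟨r, this, co_eq this⟩

lemma co_add {k : ℕ} {x y : K} (hx : D.L k x) (hy : D.L k y) :
    D.co k (x + y) = D.co k x + D.co k y := by
  obtain ⟨r, h1, e1⟩ := hx.exists_co
  obtain ⟨s, h2, e2⟩ := hy.exists_co
  rw [e1, e2, co_eq (r := r + s) ((h1.add h2).of_eq (by push_cast; ring)), Int.cast_add]

lemma co_congr {k : ℕ} {x y : K} (hy : D.L k y) (h : D.L (k + 1) (x - y)) :
    D.co k x = D.co k y := by
  obtain ⟨s, h2, e2⟩ := hy.exists_co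
  rw [e2, co_eq (r := s) ((h.add h2).of_eq (by ring))]

lemma co_eq_zero_iff {k : ℕ} {x : K} (hx : D.L k x) : D.co k x = 0 ↔ D.L (k + 1) x := by
  constructor
  · intro h
    obtain ⟨r, h1, e1⟩ := hx.exists_co
    rw [e1, ← L_int_iff (D := D)] at h
    exact (h1.add (h.mul (L.pow k) (by omega))).of_eq (by ring)
  · intro h
    simpa using co_eq (r := 0) (h.of_eq (by simp))

lemma co_pow (k : ℕ) : D.co k (D.p ^ k) = 1 := by
  simpa using co_eq (D := D) (k := k) (x := D.p ^ k) (r := 1) ((L.zero _).of_eq (by simp))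

variable (D)

noncomputable def sig (g h : SL K) : ZMod 7 := D.c ((g * h).x / g.x) ((g * h).x / h.x)

/-- the principal congruence condition -/
def Gm (j : ℕ) (g : SL K) : Prop :=
  D.L j (g.a - 1) ∧ D.L j g.b ∧ D.L j g.c ∧ D.L j (g.d - 1)

open Classical in
/-- reduction modulo `p` -/
noncomputable def red (g : SL K) : SL F7 :=
  if h : D.co 0 g.a * D.co 0 g.d - D.co 0 g.b * D.co 0 g.c = 1 then
    ⟨D.co 0 g.a, D.co 0 g.b, D.co 0 g.c, D.co 0 g.d, h⟩ else 1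

/-- the leading term at level `j` -/
noncomputable def lead (j : ℕ) (g : SL K) : F7 × F7 × F7 :=
  (D.co j (g.a - 1), D.co j g.b, D.co j g.c)

/-- the character given by the distinguished one-unit -/
def chi (y : K) : ZMod 7 := D.c (1 + D.p ^ (7 * D.m)) y

end Dt

end Pool.Agent.Lib.MP_c05f82_nt.LG
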