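import Pool.Agent.Lib.MP_c05f82_nt.LG.Defs

/-!
Deep one-units are seventh powers.
-/

open scoped commutatorElement

namespace Pool.Agent.Lib.MP_c05f82_nt.LG

open Pool.Agent.Lib.MP_c05f82_nt.GC

section aux

variable {Ω : Type} [NormedField Ω] [IsUltrametricDist Ω]

/-- the closed unit ball as a subring -/
def Root_O (Ω : Type) [NormedField Ω] [IsUltrametricDist Ω] : Subring Ω where
  carrier := {x | ‖x‖ ≤ 1}
  mul_mem' := by
    intro a b ha hb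
    show ‖a * b‖ ≤ 1
    rw [norm_mul]; exact mul_le_one₀ ha (norm_nonneg _) hb
  one_mem' := by show ‖(1 : Ω)‖ ≤ 1; rw [norm_one]
  add_mem' := by
    intro a b ha hb
    exact (IsUltrametricDist.norm_add_le_max a b).trans (max_le ha hb)
  zero_mem' := by show ‖(0 : Ω)‖ ≤ 1; rw [norm_zero]; exact zero_le_one
  neg_mem' := by
    intro a ha
    show ‖-a‖ ≤ 1
    rw [norm_neg]; exact ha

lemma Root_add_lt {a b : Ω} {r : ℝ} (ha : ‖a‖ < r) (hb : ‖b‖ < r) : ‖a + b‖ < r :=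
  (IsUltrametricDist.norm_add_le_max a b).trans_lt (max_lt ha hb)

lemma Root_mul_lt {a b : Ω} (ha : ‖a‖ < 1) (hb : b ∈ Root_O Ω) : ‖a * b‖ < 1 := by
  rw [norm_mul]
  exact (mul_le_of_le_one_right (norm_nonneg _) hb).trans_lt ha

lemma Root_h {Y : Ω} (hY : Y ∈ Root_O Ω) :
    1 + 3 * Y + 5 * Y ^ 2 + 5 * Y ^ 3 + 3 * Y ^ 4 + Y ^ 5 ∈ Root_O Ω := by
  have h3 : (3 : Ω) ∈ Root_O Ω := ofNat_mem _ 3
  have h5 : (5 : Ω) ∈ Root_O Ω := ofNat_mem _ 5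
  exact add_mem (add_mem (add_mem (add_mem (add_mem (one_mem _) (mul_mem h3 hY))
    (mul_mem h5 (pow_mem hY 2))) (mul_mem h5 (pow_mem hY 3))) (mul_mem h3 (pow_mem hY 4)))
    (pow_mem hY 5)

lemma Root_g {Y : Ω} (hY : Y ∈ Root_O Ω) :
    3 + 5 * Y + 5 * Y ^ 2 + 3 * Y ^ 3 + Y ^ 4 ∈ Root_O Ω := by
  have h3 : (3 : Ω) ∈ Root_O Ω := ofNat_mem _ 3
  have h5 : (5 : Ω) ∈ Root_O Ω := ofNat_mem _ 5
  exact add_mem (add_mem (add_mem (add_mem h3 (mul_mem h5 hY))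
    (mul_mem h5 (pow_mem hY 2))) (mul_mem h3 (pow_mem hY 3))) (pow_mem hY 4)

omit [IsUltrametricDist Ω] in
lemma Root_eq {q X t : Ω} (hq0 : q ≠ 0) (hq : q ^ 6 = -7)
    (h : (1 + q * X) ^ 7 = 1 + q ^ 7 * t) :
    X ^ 7 = t + X * (1 + 3 * (q * X) + 5 * (q * X) ^ 2 + 5 * (q * X) ^ 3 + 3 * (q * X) ^ 4
      + (q * X) ^ 5) := by
  apply mul_left_cancel₀ (pow_ne_zero 7 hq0)
  linear_combination h - q * X * (1 + 3 * (q * X) + 5 * (q * X) ^ 2 + 5 * (q * X) ^ 3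
    + 3 * (q * X) ^ 4 + (q * X) ^ 5) * hq

lemma Root_int {q X t : Ω} (hq0 : q ≠ 0) (hq : q ^ 6 = -7) (hq1 : ‖q‖ < 1) (ht : ‖t‖ < 1)
    (h : (1 + q * X) ^ 7 = 1 + q ^ 7 * t) : X ∈ Root_O Ω := by
  have hqO : q ∈ Root_O Ω := hq1.le
  have htO : t ∈ Root_O Ω := ht.le
  have h1 : (1 + q * X) ^ 7 ∈ Root_O Ω := by
    rw [h]; exact add_mem (one_mem _) (mul_mem (pow_mem hqO 7) htO)
  have h2 : 1 + q * X ∈ Root_O Ω := by
    have h3 : ‖(1 + q * X) ^ 7‖ ≤ 1 := h1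
    rw [norm_pow] at h3
    exact (pow_le_one_iff_of_nonneg (norm_nonneg _) (by norm_num)).1 h3
  have hY : q * X ∈ Root_O Ω := by
    have := sub_mem h2 (one_mem _)
    rwa [add_sub_cancel_left] at this
  have hh : ‖1 + 3 * (q * X) + 5 * (q * X) ^ 2 + 5 * (q * X) ^ 3 + 3 * (q * X) ^ 4
      + (q * X) ^ 5‖ ≤ 1 := Root_h hY
  have e := Root_eq hq0 hq h
  by_contra hX
  have hX1 : 1 < ‖X‖ := lt_of_not_ge hX
  have h4 : ‖X ^ 7‖ ≤ ‖X‖ := by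
    rw [e]
    refine (IsUltrametricDist.norm_add_le_max _ _).trans (max_le (by linarith) ?_)
    rw [norm_mul]
    exact mul_le_of_le_one_right (norm_nonneg _) hh
  rw [norm_pow] at h4
  have h5 : ‖X‖ ^ 1 < ‖X‖ ^ 7 := pow_lt_pow_right₀ hX1 (by norm_num)
  rw [pow_one] at h5
  linarith

lemma Root_near {q X t : Ω} (hq0 : q ≠ 0) (hq : q ^ 6 = -7) (hq1 : ‖q‖ < 1) (ht : ‖t‖ < 1)
    (h : (1 + q * X) ^ 7 = 1 + q ^ 7 * t) : ∃ r : ℤ, ‖X - r‖ < 1 := by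
  have hqO : q ∈ Root_O Ω := hq1.le
  have hX := Root_int hq0 hq hq1 ht h
  have hY : q * X ∈ Root_O Ω := mul_mem hqO hX
  have e := Root_eq hq0 hq h
  have h2 : (2 : Ω) ∈ Root_O Ω := ofNat_mem _ 2
  have h5 : (5 : Ω) ∈ Root_O Ω := ofNat_mem _ 5
  have h7 : (7 : Ω) ∈ Root_O Ω := ofNat_mem _ 7
  have hA : X ^ 2 * (3 + 5 * (q * X) + 5 * (q * X) ^ 2 + 3 * (q * X) ^ 3 + (q * X) ^ 4)
      + q ^ 5 * (2 * X ^ 5 - 7 * X ^ 3 + 5 * X) ∈ Root_O Ω :=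
    add_mem (mul_mem (pow_mem hX 2) (Root_g hY)) (mul_mem (pow_mem hqO 5)
      (add_mem (sub_mem (mul_mem h2 (pow_mem hX 5)) (mul_mem h7 (pow_mem hX 3))) (mul_mem h5 hX)))
  have hlt := Root_add_lt ht (Root_mul_lt hq1 hA)
  have e2 : t + q * (X ^ 2 * (3 + 5 * (q * X) + 5 * (q * X) ^ 2 + 3 * (q * X) ^ 3 + (q * X) ^ 4)
      + q ^ 5 * (2 * X ^ 5 - 7 * X ^ 3 + 5 * X))
      = ∏ r ∈ ({-3, -2, -1, 0, 1, 2, 3} : Finset ℤ), (X - (r : Ω)) := by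
    rw [Finset.prod_insert (by decide), Finset.prod_insert (by decide),
      Finset.prod_insert (by decide), Finset.prod_insert (by decide),
      Finset.prod_insert (by decide), Finset.prod_insert (by decide), Finset.prod_singleton]
    push_cast
    linear_combination -e + (2 * X ^ 5 - 7 * X ^ 3 + 5 * X) * hq
  rw [e2, norm_prod] at hlt
  by_contra hc
  push Not at hc
  exact absurd (Finset.one_le_prod (s := ({-3, -2, -1, 0, 1, 2, 3} : Finset ℤ))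
    (fun r _ => hc r)) (not_le.2 hlt)

lemma Root_uniq {q d : Ω} (hq0 : q ≠ 0) (hq : q ^ 6 = -7) (hq1 : ‖q‖ < 1) (hd : ‖d‖ < 1)
    (h : (1 + q * d) ^ 7 = 1) : d = 0 := by
  have hqO : q ∈ Root_O Ω := hq1.le
  have hdO : d ∈ Root_O Ω := hd.le
  have hY : q * d ∈ Root_O Ω := mul_mem hqO hdO
  have e := Root_eq (t := 0) hq0 hq (by rw [h]; ring)
  by_contra h0
  have e1 : (1 : Ω) = d * (d ^ 5 - q * (3 + 5 * (q * d) + 5 * (q * d) ^ 2 + 3 * (q * d) ^ 3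
      + (q * d) ^ 4)) := mul_left_cancel₀ h0 (by linear_combination -e)
  have h1 := Root_mul_lt hd (sub_mem (pow_mem hdO 5) (mul_mem hqO (Root_g hY)))
  rw [← e1, norm_one] at h1
  exact lt_irrefl _ h1

end aux

theorem Lc.root {K Ω : Type} [Field K] [NormedField Ω] [Algebra K Ω] [IsUltrametricDist Ω]
    [IsAlgClosed Ω] [IsGalois K Ω] (L : Lc K Ω) (t : K) (ht : ‖algebraMap K Ω t‖ < 1) (v : Ω)
    (hv : v ^ 7 = algebraMap K Ω (1 + L.p ^ (7 * L.m) * t)) : ∃ w : K, algebraMap K Ω w = v := by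
  obtain ⟨q, hqd⟩ : ∃ q : Ω, q = algebraMap K Ω (L.p ^ L.m) := ⟨_, rfl⟩
  have hq0 : q ≠ 0 := by rw [hqd]; exact (map_ne_zero _).2 (pow_ne_zero _ L.p_ne)
  have hq : q ^ 6 = -7 := by
    rw [hqd, ← map_pow, ← pow_mul, mul_comm, L.pow, map_neg, map_ofNat]
  have hq1 : ‖q‖ < 1 := by
    rw [hqd, map_pow, norm_pow]
    exact pow_lt_one₀ (norm_nonneg _) L.p_lt L.m_pos.ne'
  obtain ⟨X, rfl⟩ : ∃ X : Ω, v = 1 + q * X := ⟨(v - 1) / q, by field_simp; ring⟩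
  have h : (1 + q * X) ^ 7 = 1 + q ^ 7 * algebraMap K Ω t := by
    rw [hv, hqd, map_add, map_one, map_mul, ← map_pow, ← pow_mul, mul_comm L.m 7]
  have hX := Root_int hq0 hq hq1 ht h
  obtain ⟨r, hr⟩ := Root_near hq0 hq hq1 ht h
  have hv1 : ‖1 + q * X‖ = 1 := by
    have h1 := Root_mul_lt hq1 hX
    rw [IsUltrametricDist.norm_add_eq_max_of_norm_ne_norm (by rw [norm_one]; exact h1.ne'),
      norm_one, max_eq_left h1.le]
  have hv0 : 1 + q * X ≠ 0 := by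
    intro h0
    rw [h0, norm_zero] at hv1
    exact zero_ne_one hv1
  refine (InfiniteGalois.mem_range_algebraMap_iff_fixed _).2 fun σ => ?_
  have hσq : σ q = q := by rw [hqd]; exact σ.commutes _
  have hσ : σ (1 + q * X) = 1 + q * σ X := by rw [map_add, map_one, map_mul, hσq]
  have h7 : (1 + q * σ X) ^ 7 = (1 + q * X) ^ 7 := by
    rw [← hσ, ← map_pow, hv]; exact σ.commutes _
  have hr' : ‖σ X - r‖ < 1 := by
    rw [← L.iso σ, map_sub, map_intCast] at hr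
    exact hr
  have hd : ‖(σ X - X) / (1 + q * X)‖ < 1 := by
    rw [norm_div, hv1, div_one, show σ X - X = (σ X - r) + -(X - r) by ring]
    exact Root_add_lt hr' (by rwa [norm_neg])
  have h0 := Root_uniq hq0 hq hq1 hd (by
    rw [show 1 + q * ((σ X - X) / (1 + q * X)) = (1 + q * σ X) / (1 + q * X) by
      field_simp; ring, div_pow, h7, div_self (pow_ne_zero _ hv0)])
  rw [div_eq_zero_iff, or_iff_left hv0, sub_eq_zero] at h0
  rw [hσ, h0]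

theorem Lc.zeta {K Ω : Type} [Field K] [NormedField Ω] [Algebra K Ω] [IsUltrametricDist Ω]
    [IsAlgClosed Ω] [IsGalois K Ω] (L : Lc K Ω) : ∃ ζ : K, IsPrimitiveRoot ζ 7 := by
  have h7K : (7 : K) ≠ 0 := by
    intro h
    have := L.pow
    rw [h, neg_zero] at this
    exact pow_ne_zero _ L.p_ne this
  have h7 : ((7 : ℕ) : Ω) ≠ 0 := by
    have := (map_ne_zero (algebraMap K Ω)).2 h7K
    rwa [map_ofNat] at this
  have : NeZero ((7 : ℕ) : Ω) := ⟨h7⟩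
  obtain ⟨z, hz⟩ := HasEnoughRootsOfUnity.exists_primitiveRoot Ω 7
  obtain ⟨w, rfl⟩ := L.root 0 (by rw [map_zero, norm_zero]; exact zero_lt_one) z
    (by rw [hz.pow_eq_one, mul_zero, add_zero, map_one])
  exact ⟨w, hz.of_map_of_injective (algebraMap K Ω).injective⟩

end Pool.Agent.Lib.MP_c05f82_nt.LG
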