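import Pool.Agent.Lib.MP_c05f82_nt.LG.Sym2

/-!
A Steinberg symbol of order seven that detects a given element that is not a norm.
-/

open scoped commutatorElement

namespace Pool.Agent.Lib.MP_c05f82_nt.LG

open Pool.Agent.Lib.MP_c05f82_nt.GC

section

variable {Ω : Type} [Field Ω] {Z : Ω}

theorem sym7_pow_mod (hZ : IsPrimitiveRoot Z 7) (n : ℕ) : Z ^ (n % 7) = Z ^ n := by
  conv_rhs => rw [← Nat.mod_add_div n 7, pow_add, pow_mul, hZ.pow_eq_one, one_pow, mul_one]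

theorem sym7_add (hZ : IsPrimitiveRoot Z 7) (a b : ZMod 7) :
    Z ^ (a + b).val = Z ^ a.val * Z ^ b.val := by
  rw [ZMod.val_add, sym7_pow_mod hZ, pow_add]

theorem sym7_mul (hZ : IsPrimitiveRoot Z 7) (a b : ZMod 7) :
    Z ^ (a * b).val = (Z ^ a.val) ^ b.val := by
  rw [ZMod.val_mul, sym7_pow_mod hZ, pow_mul]

theorem sym7_inj (hZ : IsPrimitiveRoot Z 7) {a b : ZMod 7} {r : Ω} (hr : r ≠ 0)
    (h : Z ^ a.val * r = Z ^ b.val * r) : a = b :=
  ZMod.val_injective 7 (hZ.pow_inj (ZMod.val_lt a) (ZMod.val_lt b) (mul_right_cancel₀ hr h))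

theorem sym7_root (hZ : IsPrimitiveRoot Z 7) {x r : Ω} (h : x ^ 7 = r ^ 7) :
    ∃ k : ZMod 7, x = Z ^ k.val * r := by
  by_cases hr : r = 0
  · rw [hr, zero_pow (by norm_num)] at h
    exact ⟨0, by rw [hr, mul_zero]; exact pow_eq_zero_iff (by norm_num) |>.1 h⟩
  obtain ⟨i, -, hi⟩ := hZ.eq_pow_of_pow_eq_one (ξ := x / r)
    (by rw [div_pow, h, div_self (pow_ne_zero _ hr)])
  exact ⟨i, by rw [ZMod.val_natCast, sym7_pow_mod hZ, hi, div_mul_cancel₀ _ hr]⟩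

theorem sym7_prod (hZ : IsPrimitiveRoot Z 7) (r : Ω) (n : ℕ) :
    ∏ i ∈ Finset.range n, (1 - Z ^ i * r) =
      (1 - r ^ 7) ^ (n / 7) * ∏ i ∈ Finset.range (n % 7), (1 - Z ^ i * r) := by
  induction n using Nat.strong_induction_on with
  | _ n ih =>
    rcases lt_or_ge n 7 with h | h
    · rw [Nat.div_eq_of_lt h, Nat.mod_eq_of_lt h, pow_zero, one_mul]
    · obtain ⟨m, rfl⟩ := Nat.exists_eq_add_of_le h
      have h3 : ∏ i ∈ Finset.range 7, (1 - Z ^ i * r) = 1 - r ^ 7 := by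
        have := congrArg (Polynomial.eval 1)
          (X_pow_sub_C_eq_prod hZ (α := r) (by norm_num) rfl)
        simpa [Polynomial.eval_prod] using this.symm
      have h4 : ∀ i, Z ^ (7 + i) = Z ^ i := fun i => by rw [pow_add, hZ.pow_eq_one, one_mul]
      rw [Finset.prod_range_add, h3, Nat.add_mod_left, show (7 + m) / 7 = m / 7 + 1 by omega]
      simp only [h4]
      rw [ih m (by omega), pow_succ]
      ring

theorem sym7_prod_ne (hZ : IsPrimitiveRoot Z 7) {r : Ω} (hr : 1 - r ^ 7 ≠ 0) (n : ℕ) :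
    ∏ i ∈ Finset.range n, (1 - Z ^ i * r) ≠ 0 := by
  refine Finset.prod_ne_zero_iff.2 fun i _ h => hr ?_
  have h1 : Z ^ i * r = 1 := by linear_combination -h
  have h2 : (Z ^ i * r) ^ 7 = r ^ 7 := by
    rw [mul_pow, ← pow_mul, mul_comm i 7, pow_mul, hZ.pow_eq_one, one_pow, one_mul]
  rw [← h2, h1]; simp

end

/-- the functions of two automorphisms whose exponential is a continuous coboundary -/
def sym7U {K Ω : Type} [Field K] [Field Ω] [Algebra K Ω] (ζ : K) (hζ : IsPrimitiveRoot ζ 7) :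
    AddSubgroup ((Ω ≃ₐ[K] Ω) × (Ω ≃ₐ[K] Ω) → ZMod 7) where
  carrier := {φ | ∃ (T : Finset Ω) (c : (Ω ≃ₐ[K] Ω) → Ω), (∀ σ, c σ ≠ 0) ∧
    (∀ h : Ω ≃ₐ[K] Ω, (∀ y ∈ T, h y = y) → c h = 1) ∧
    ∀ σ τ, c σ * σ (c τ) = algebraMap K Ω ζ ^ (φ (σ, τ)).val * c (σ * τ)}
  zero_mem' := ⟨∅, fun _ => 1, fun _ => one_ne_zero, fun _ _ => rfl, fun _ _ => by simp⟩
  add_mem' := by
    classical
    have hZ := hζ.map_of_injective (algebraMap K Ω).injective
    rintro φ ψ ⟨T, c, h0, h1, h2⟩ ⟨T', c', h0', h1', h2'⟩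
    refine ⟨T ∪ T', fun σ => c σ * c' σ, fun σ => mul_ne_zero (h0 σ) (h0' σ), fun h hh => ?_,
      fun σ τ => ?_⟩
    · beta_reduce
      rw [h1 h fun y hy => hh y (Finset.mem_union_left _ hy),
        h1' h fun y hy => hh y (Finset.mem_union_right _ hy), one_mul]
    · rw [Pi.add_apply, sym7_add hZ, map_mul]
      linear_combination (c' σ * σ (c' τ)) * h2 σ τ +
        (algebraMap K Ω ζ ^ (φ (σ, τ)).val * c (σ * τ)) * h2' σ τ
  neg_mem' := by
    have hZ := hζ.map_of_injective (algebraMap K Ω).injective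
    rintro φ ⟨T, c, h0, h1, h2⟩
    refine ⟨T, fun σ => (c σ)⁻¹, fun σ => inv_ne_zero (h0 σ), fun h hh => ?_, fun σ τ => ?_⟩
    · beta_reduce
      rw [h1 h hh, inv_one]
    · have h3 := sym7_add hZ (-φ (σ, τ)) (φ (σ, τ))
      rw [neg_add_cancel, ZMod.val_zero, pow_zero] at h3
      rw [Pi.neg_apply, map_inv₀, ← mul_inv, h2 σ τ, mul_inv, eq_inv_of_mul_eq_one_left h3.symm]

theorem exists_symbol7 {K Ω : Type} [Field K] [Field Ω] [Algebra K Ω] [IsAlgClosed Ω]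
    [IsGalois K Ω] (ζ : K) (hζ : IsPrimitiveRoot ζ 7) (u p : K) (hu : u ≠ 0)
    (hp : p ≠ 0) (hN : NoNorm Ω ζ u p) : ∃ c : K → K → ZMod 7,
      (∀ {x y : K} (z : K), x ≠ 0 → y ≠ 0 → c (x * y) z = c x z + c y z) ∧
      (∀ (z : K) {x y : K}, x ≠ 0 → y ≠ 0 → c z (x * y) = c z x + c z y) ∧
      (∀ {x : K}, x ≠ 0 → x ≠ 1 → c x (1 - x) = 0) ∧ c u p ≠ 0 := by
  classical
  have hZ := hζ.map_of_injective (algebraMap K Ω).injective
  choose rt hrt using fun a : K =>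
    IsAlgClosed.exists_pow_nat_eq (algebraMap K Ω a) (by norm_num : 0 < 7)
  have rt0 : ∀ {a : K}, a ≠ 0 → rt a ≠ 0 := fun {a} ha h => by
    have := hrt a
    rw [h, zero_pow (by norm_num)] at this
    exact (map_ne_zero (algebraMap K Ω)).2 ha this.symm
  choose χ hχ using fun (a : K) (σ : Ω ≃ₐ[K] Ω) => sym7_root hZ (x := σ (rt a)) (r := rt a)
    (by rw [← map_pow, hrt, AlgEquiv.commutes])
  have hfix : ∀ (σ : Ω ≃ₐ[K] Ω) (n : ℕ), σ (algebraMap K Ω ζ ^ n) = algebraMap K Ω ζ ^ n :=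
    fun σ n => by rw [map_pow, AlgEquiv.commutes]
  have χσ : ∀ {a : K}, a ≠ 0 → ∀ σ τ, χ a (σ * τ) = χ a σ + χ a τ := fun {a} ha σ τ => by
    refine sym7_inj hZ (rt0 ha) ?_
    rw [← hχ, AlgEquiv.mul_apply, hχ a τ, map_mul, hfix, hχ a σ, sym7_add hZ]
    ring
  have χ1 : ∀ {a : K}, a ≠ 0 → ∀ σ : Ω ≃ₐ[K] Ω, σ (rt a) = rt a → χ a σ = 0 := fun {a} ha σ h => by
    refine sym7_inj hZ (rt0 ha) ?_
    rw [← hχ, h, ZMod.val_zero, pow_zero, one_mul]
  have χa : ∀ {a b : K}, a ≠ 0 → b ≠ 0 → ∀ σ, χ (a * b) σ = χ a σ + χ b σ :=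
    fun {a b} ha hb σ => by
    obtain ⟨k, hk⟩ := sym7_root hZ (x := rt (a * b)) (r := rt a * rt b)
      (by rw [mul_pow, hrt, hrt, hrt, map_mul])
    refine sym7_inj hZ (rt0 (mul_ne_zero ha hb)) ?_
    rw [← hχ, hk, map_mul, map_mul, hfix, hχ a σ, hχ b σ, sym7_add hZ]
    ring
  have c1 : ∀ {a : K} (b : K), a ≠ 0 → ∀ σ τ : Ω ≃ₐ[K] Ω,
      rt b ^ (χ a σ).val * σ (rt b ^ (χ a τ).val) = algebraMap K Ω ζ ^ (χ b σ * χ a τ).val *
        algebraMap K Ω b ^ (((χ a σ).val + (χ a τ).val) / 7) * rt b ^ (χ a (σ * τ)).val :=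
    fun {a} b ha σ τ => by
    rw [map_pow, hχ b σ, χσ ha, ZMod.val_add, sym7_mul hZ, ← hrt b, ← pow_mul (rt b) 7, mul_assoc,
      ← pow_add, Nat.div_add_mod, mul_pow, pow_add]
    ring
  let f : K → K → ((Ω ≃ₐ[K] Ω) × (Ω ≃ₐ[K] Ω) → ZMod 7) := fun a b x => χ b x.1 * χ a x.2
  have hnot : f u p ∉ AddSubgroup.toZModSubmodule 7 (sym7U (Ω := Ω) ζ hζ) := by
    rintro ⟨T, c, h0, h1, h2⟩
    refine norm_of_cob7 ζ hζ u p hu (rt u) (hrt u) (χ u) (hχ u) (insert (rt u) T)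
      (fun σ => rt p ^ (χ u σ).val / c σ)
      (fun σ => div_ne_zero (pow_ne_zero _ (rt0 hp)) (h0 σ)) (fun h hh => ?_) (fun σ τ => ?_) hN
    · rw [χ1 hu h (hh _ (Finset.mem_insert_self _ _)),
        h1 h fun y hy => hh y (Finset.mem_insert_of_mem hy), ZMod.val_zero, pow_zero, div_one]
    · have hZ0 : algebraMap K Ω ζ ^ (χ p σ * χ u τ).val ≠ 0 :=
        pow_ne_zero _ (hZ.ne_zero (by norm_num))
      rw [map_div₀, div_mul_div_comm, c1 p hu, h2 σ τ, mul_assoc, mul_div_mul_left _ _ hZ0,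
        mul_div_assoc]
  obtain ⟨l, hl, hl0⟩ := Submodule.exists_dual_map_eq_bot_of_notMem hnot inferInstance
  refine ⟨fun a b => l (f a b), fun {x y} z hx hy => ?_, fun z {x y} hx hy => ?_,
    fun {x} hx hx1 => ?_, hl⟩
  · beta_reduce
    rw [← map_add]; congr 1; funext s
    simp only [f, χa hx hy, Pi.add_apply, mul_add]
  · beta_reduce
    rw [← map_add]; congr 1; funext s
    simp only [f, χa hx hy, Pi.add_apply, add_mul]
  · have hb : 1 - x ≠ 0 := sub_ne_zero.2 hx1.symm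
    have hb1 : 1 - rt x ^ 7 = algebraMap K Ω (1 - x) := by rw [hrt, map_sub, map_one]
    have hb2 : algebraMap K Ω (1 - x) ≠ 0 := (map_ne_zero _).2 hb
    have hmem : f x (1 - x) ∈ AddSubgroup.toZModSubmodule 7 (sym7U (Ω := Ω) ζ hζ) := by
      refine ⟨{rt x}, fun σ => rt (1 - x) ^ (χ x σ).val /
        ∏ i ∈ Finset.range (χ x σ).val, (1 - algebraMap K Ω ζ ^ i * rt x),
        fun σ => div_ne_zero (pow_ne_zero _ (rt0 hb)) (sym7_prod_ne hZ (hb1 ▸ hb2) _),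
        fun h hh => ?_, fun σ τ => ?_⟩
      · simp [χ1 hx h (hh _ (Finset.mem_singleton_self _))]
      · have c2 : (∏ i ∈ Finset.range (χ x σ).val, (1 - algebraMap K Ω ζ ^ i * rt x)) *
            σ (∏ i ∈ Finset.range (χ x τ).val, (1 - algebraMap K Ω ζ ^ i * rt x)) =
            algebraMap K Ω (1 - x) ^ (((χ x σ).val + (χ x τ).val) / 7) *
              ∏ i ∈ Finset.range (χ x (σ * τ)).val, (1 - algebraMap K Ω ζ ^ i * rt x) := by
          rw [χσ hx, ZMod.val_add, ← hb1, ← sym7_prod hZ, Finset.prod_range_add, map_prod]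
          congr 1
          refine Finset.prod_congr rfl fun i _ => ?_
          rw [map_sub, map_one, map_mul, hfix, hχ x σ, pow_add]
          ring
        rw [map_div₀, div_mul_div_comm, c1 (1 - x) hx, c2, mul_assoc, mul_div_assoc,
          mul_div_mul_left _ _ (pow_ne_zero _ hb2)]
    have : l (f x (1 - x)) ∈ Submodule.map l _ := Submodule.mem_map_of_mem hmem
    rwa [hl0, Submodule.mem_bot] at this

end Pool.Agent.Lib.MP_c05f82_nt.LG
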