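import Pool.Agent.Lib.MP_c05f82_nt.LG.Defs

/-!
The uniformizer is not a norm from the unramified extension of degree seven.
-/

open scoped commutatorElement

namespace Pool.Agent.Lib.MP_c05f82_nt.LG

open Pool.Agent.Lib.MP_c05f82_nt.GC

section aux

variable {Ω : Type} [NormedField Ω] [IsUltrametricDist Ω]

lemma unr7_add_lt {a b : Ω} {r : ℝ} (ha : ‖a‖ < r) (hb : ‖b‖ < r) : ‖a + b‖ < r :=
  (IsUltrametricDist.norm_add_le_max a b).trans_lt (max_lt ha hb)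

lemma unr7_add_le {a b : Ω} {r : ℝ} (ha : ‖a‖ ≤ r) (hb : ‖b‖ ≤ r) : ‖a + b‖ ≤ r :=
  (IsUltrametricDist.norm_add_le_max a b).trans (max_le ha hb)

lemma unr7_sub_lt {a b : Ω} {r : ℝ} (ha : ‖a‖ < r) (hb : ‖b‖ < r) : ‖a - b‖ < r := by
  rw [sub_eq_add_neg]; exact unr7_add_lt ha (by rwa [norm_neg])

omit [IsUltrametricDist Ω] in
lemma unr7_mul_le {a b : Ω} (ha : ‖a‖ ≤ 1) (hb : ‖b‖ ≤ 1) : ‖a * b‖ ≤ 1 := by
  rw [norm_mul]; exact mul_le_one₀ ha (norm_nonneg _) hb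

omit [IsUltrametricDist Ω] in
lemma unr7_mul_lt {a b : Ω} {r : ℝ} (ha : ‖a‖ < r) (hb : ‖b‖ ≤ 1) : ‖a * b‖ < r := by
  rw [norm_mul]
  exact (mul_le_of_le_one_right (norm_nonneg _) hb).trans_lt ha

omit [IsUltrametricDist Ω] in
lemma unr7_pow_le {a : Ω} (ha : ‖a‖ ≤ 1) (n : ℕ) : ‖a ^ n‖ ≤ 1 := by
  rw [norm_pow]; exact pow_le_one₀ (norm_nonneg _) ha

lemma unr7_three : ‖(3 : Ω)‖ ≤ 1 := by
  simpa using IsUltrametricDist.norm_natCast_le_one Ω 3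

lemma unr7_five : ‖(5 : Ω)‖ ≤ 1 := by
  simpa using IsUltrametricDist.norm_natCast_le_one Ω 5

lemma unr7_norm_one {a : Ω} (h : ‖a - 1‖ < 1) : ‖a‖ = 1 := by
  refine le_antisymm ?_ (not_lt.1 fun ha => ?_)
  · rw [show a = a - 1 + 1 by ring]
    exact unr7_add_le h.le norm_one.le
  · have := unr7_sub_lt ha h
    rw [sub_sub_cancel, norm_one] at this
    exact lt_irrefl _ this

lemma unr7_pow_sub {x y : Ω} (hx : ‖x‖ ≤ 1) (hy : ‖y‖ ≤ 1) (h : ‖x - y‖ < 1) (n : ℕ) :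
    ‖x ^ n - y ^ n‖ < 1 := by
  induction n with
  | zero => simp
  | succ n ih =>
    rw [show x ^ (n + 1) - y ^ (n + 1) = (x ^ n - y ^ n) * x + (x - y) * y ^ n by ring]
    exact unr7_add_lt (unr7_mul_lt ih hx) (unr7_mul_lt h (unr7_pow_le hy n))

omit [IsUltrametricDist Ω] in
lemma unr7_eq {q X t : Ω} (hq0 : q ≠ 0) (hq6 : q ^ 6 = -7) (h : (1 + q * X) ^ 7 = 1 + q ^ 7 * t) :
    X ^ 7 - X - t =
      q * (X * (3 * X + 5 * q * X ^ 2 + 5 * q ^ 2 * X ^ 3 + 3 * q ^ 3 * X ^ 4 + q ^ 4 * X ^ 5)) := by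
  refine mul_left_cancel₀ (pow_ne_zero 7 hq0) ?_
  linear_combination h - (q * X + 3 * q ^ 2 * X ^ 2 + 5 * q ^ 3 * X ^ 3 + 5 * q ^ 4 * X ^ 4 +
    3 * q ^ 5 * X ^ 5 + q ^ 6 * X ^ 6) * hq6

lemma unr7_G {q X : Ω} (hq : ‖q‖ ≤ 1) (hX : ‖X‖ ≤ 1) :
    ‖3 * X + 5 * q * X ^ 2 + 5 * q ^ 2 * X ^ 3 + 3 * q ^ 3 * X ^ 4 + q ^ 4 * X ^ 5‖ ≤ 1 :=
  unr7_add_le (unr7_add_le (unr7_add_le (unr7_add_le (unr7_mul_le unr7_three hX)
    (unr7_mul_le (unr7_mul_le unr7_five hq) (unr7_pow_le hX _)))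
    (unr7_mul_le (unr7_mul_le unr7_five (unr7_pow_le hq _)) (unr7_pow_le hX _)))
    (unr7_mul_le (unr7_mul_le unr7_three (unr7_pow_le hq _)) (unr7_pow_le hX _)))
    (unr7_mul_le (unr7_pow_le hq _) (unr7_pow_le hX _))

lemma unr7_le {q X t : Ω} (hq0 : q ≠ 0) (hq : ‖q‖ < 1) (hq6 : q ^ 6 = -7) (ht : ‖t‖ ≤ 1)
    (h : (1 + q * X) ^ 7 = 1 + q ^ 7 * t) : ‖X‖ ≤ 1 := by
  by_contra hX
  rw [not_le] at hX
  have hX0 : X ≠ 0 := norm_pos_iff.1 (one_pos.trans hX)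
  have e := unr7_eq hq0 hq6 h
  obtain ⟨Y, hXY⟩ : ∃ Y, X * Y = 1 := ⟨X⁻¹, mul_inv_cancel₀ hX0⟩
  have hY : ‖Y‖ < 1 := by
    have := congrArg norm hXY
    rw [norm_mul, norm_one] at this
    nlinarith [norm_nonneg Y]
  have e1 : (1 : Ω) = Y * (Y ^ 5 + t * Y ^ 6 +
      q * (3 * Y ^ 4 + 5 * q * Y ^ 3 + 5 * q ^ 2 * Y ^ 2 + 3 * q ^ 3 * Y + q ^ 4)) := by
    obtain rfl : Y = X⁻¹ := (inv_eq_of_mul_eq_one_right hXY).symm
    field_simp
    linear_combination e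
  have h1 : ‖Y * (Y ^ 5 + t * Y ^ 6 +
      q * (3 * Y ^ 4 + 5 * q * Y ^ 3 + 5 * q ^ 2 * Y ^ 2 + 3 * q ^ 3 * Y + q ^ 4))‖ < 1 :=
    unr7_mul_lt hY (unr7_add_le (unr7_add_le (unr7_pow_le hY.le _)
      (unr7_mul_le ht (unr7_pow_le hY.le _))) (unr7_mul_le hq.le
      (unr7_add_le (unr7_add_le (unr7_add_le (unr7_add_le
        (unr7_mul_le unr7_three (unr7_pow_le hY.le _))
        (unr7_mul_le (unr7_mul_le unr7_five hq.le) (unr7_pow_le hY.le _)))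
        (unr7_mul_le (unr7_mul_le unr7_five (unr7_pow_le hq.le _)) (unr7_pow_le hY.le _)))
        (unr7_mul_le (unr7_mul_le unr7_three (unr7_pow_le hq.le _)) hY.le))
        (unr7_pow_le hq.le _))))
  rw [← e1, norm_one] at h1
  exact lt_irrefl _ h1

lemma unr7_root {q z : Ω} (hq0 : q ≠ 0) (hq : ‖q‖ < 1) (hq6 : q ^ 6 = -7) (hz : z ^ 7 = 1)
    (hz1 : z ≠ 1) : ‖(z - 1) / q‖ = 1 := by
  have h : (1 + q * ((z - 1) / q)) ^ 7 = 1 + q ^ 7 * 0 := by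
    rw [mul_div_cancel₀ _ hq0, add_sub_cancel, hz]; simp
  have hX0 : (z - 1) / q ≠ 0 := div_ne_zero (sub_ne_zero.2 hz1) hq0
  generalize (z - 1) / q = X at h hX0
  have hX := unr7_le hq0 hq hq6 (by simp) h
  have e := unr7_eq hq0 hq6 h
  have e1 : X ^ 6 - 1 =
      q * (3 * X + 5 * q * X ^ 2 + 5 * q ^ 2 * X ^ 3 + 3 * q ^ 3 * X ^ 4 + q ^ 4 * X ^ 5) :=
    mul_left_cancel₀ hX0 (by linear_combination e)
  have h1 : ‖X ^ 6‖ = 1 := unr7_norm_one (by rw [e1]; exact unr7_mul_lt hq (unr7_G hq.le hX))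
  rw [norm_pow] at h1
  exact (pow_eq_one_iff_of_nonneg (norm_nonneg _) (by norm_num)).1 h1

lemma unr7_vdm {g θ : ℕ → Ω} {r : ℝ} (hθ : ∀ k, ‖θ k‖ ≤ 1)
    (h : ∀ j : ℕ, ‖∑ k ∈ Finset.range 7, g k * θ k ^ j‖ < r) (S : Finset ℕ) :
    ∀ j : ℕ, ‖∑ k ∈ Finset.range 7, g k * θ k ^ j * ∏ l ∈ S, (θ k - θ l)‖ < r := by
  induction S using Finset.induction_on with
  | empty => simpa using h
  | insert l S hl ih =>
    intro j
    have e : ∑ k ∈ Finset.range 7, g k * θ k ^ j * ∏ l ∈ insert l S, (θ k - θ l) =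
        ∑ k ∈ Finset.range 7, g k * θ k ^ (j + 1) * ∏ l ∈ S, (θ k - θ l) -
          (∑ k ∈ Finset.range 7, g k * θ k ^ j * ∏ l ∈ S, (θ k - θ l)) * θ l := by
      rw [Finset.sum_mul, ← Finset.sum_sub_distrib]
      refine Finset.sum_congr rfl fun k _ => ?_
      rw [Finset.prod_insert hl]; ring
    rw [e]
    exact unr7_sub_lt (ih _) (unr7_mul_lt (ih _) (hθ l))

end aux

lemma unr7_shift {M : Type} [AddCommGroup M] {f : ℕ → M} (hf : ∀ k, f (k + 7) = f k) (i : ℕ) :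
    ∑ k ∈ Finset.range 7, f (i + k) = ∑ k ∈ Finset.range 7, f k := by
  induction i with
  | zero => simp
  | succ i ih =>
    have h1 := Finset.sum_range_succ (fun k => f (i + k)) 7
    have h2 := Finset.sum_range_succ' (fun k => f (i + k)) 7
    rw [h2, hf, add_zero, add_left_inj] at h1
    rw [← ih, ← h1]
    exact Finset.sum_congr rfl fun k _ => congrArg f (by omega)

theorem Lc.noNorm {K Ω : Type} [Field K] [NormedField Ω] [Algebra K Ω] [IsUltrametricDist Ω]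
    [IsGalois K Ω] (L : Lc K Ω) (ζ : K) (hζ : IsPrimitiveRoot ζ 7) :
    NoNorm Ω ζ (1 + L.p ^ (7 * L.m)) L.p := by
  intro α hα
  have hp0 : 0 < ‖algebraMap K Ω L.p‖ := norm_pos_iff.2 ((map_ne_zero _).2 L.p_ne)
  obtain ⟨q₀, hq₀⟩ : ∃ q₀ : K, q₀ = L.p ^ L.m := ⟨_, rfl⟩
  obtain ⟨q, hqd⟩ : ∃ q : Ω, q = algebraMap K Ω q₀ := ⟨_, rfl⟩
  have hq : ‖q‖ < 1 := by
    rw [hqd, hq₀, map_pow, norm_pow]
    exact pow_lt_one₀ hp0.le L.p_lt L.m_pos.ne'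
  have hq0 : q ≠ 0 := by
    rw [hqd, hq₀]; exact (map_ne_zero _).2 (pow_ne_zero _ L.p_ne)
  have hq6 : q ^ 6 = -7 := by
    rw [hqd, hq₀, ← map_pow, ← pow_mul, mul_comm, L.pow, map_neg, map_ofNat]
  have hα' : α ^ 7 = 1 + q ^ 7 := by
    rw [hα, hqd, hq₀, map_add, map_one, ← map_pow, ← pow_mul, mul_comm]
  have hσq : ∀ σ : Ω ≃ₐ[K] Ω, σ q = q := fun σ => by rw [hqd, AlgEquiv.commutes]
  obtain ⟨θ, hθ⟩ : ∃ θ : Ω, θ = (α - 1) / q := ⟨_, rfl⟩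
  have hθα : 1 + q * θ = α := by rw [hθ, mul_div_cancel₀ _ hq0, add_sub_cancel]
  have hθ7 : (1 + q * θ) ^ 7 = 1 + q ^ 7 * 1 := by rw [hθα, hα', mul_one]
  have hθ1 : ‖θ‖ ≤ 1 := unr7_le hq0 hq hq6 norm_one.le hθ7
  have hσθ : ∀ σ : Ω ≃ₐ[K] Ω, σ θ = (σ α - 1) / q := fun σ => by
    rw [hθ, map_div₀, map_sub, map_one, hσq]
  have hα1 : ‖α‖ = 1 := unr7_norm_one (by
    rw [← hθα, add_sub_cancel_left]; exact unr7_mul_lt hq hθ1)
  have hα0 : α ≠ 0 := norm_pos_iff.1 (hα1 ▸ one_pos)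
  constructor
  · by_contra hall
    push Not at hall
    obtain ⟨w, hw⟩ := (InfiniteGalois.mem_range_algebraMap_iff_fixed θ).2 fun σ => by
      rw [hσθ, hall, hθ]
    obtain ⟨r, hr⟩ := L.res w (by rw [hw]; exact hθ1)
    rw [map_sub, map_intCast, hw] at hr
    have h1 : ‖θ ^ 7 - θ - 1‖ < 1 := by
      rw [unr7_eq hq0 hq6 hθ7]
      exact unr7_mul_lt hq (unr7_mul_le hθ1 (unr7_G hq.le hθ1))
    have h2 := unr7_pow_sub hθ1 (IsUltrametricDist.norm_intCast_le_one Ω r) hr 7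
    have h3 : (7 : ℤ) ∣ r ^ 7 - r := by
      have key : ∀ a : ZMod 7, a ^ 7 - a = 0 := by decide
      exact (ZMod.intCast_zmod_eq_zero_iff_dvd _ 7).1 (by push_cast; exact key _)
    obtain ⟨c, hc⟩ := h3
    have hc' : (r : Ω) ^ 7 - r = 7 * c := by exact_mod_cast congrArg (Int.cast : ℤ → Ω) hc
    have h4 : ‖q * (q ^ 5 * (c : Ω))‖ < 1 := unr7_mul_lt hq
      (unr7_mul_le (unr7_pow_le hq.le _) (IsUltrametricDist.norm_intCast_le_one Ω c))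
    have h5 := unr7_sub_lt (unr7_sub_lt (unr7_sub_lt h2 hr) h4) h1
    rw [show θ ^ 7 - (r : Ω) ^ 7 - (θ - r) - q * (q ^ 5 * (c : Ω)) - (θ ^ 7 - θ - 1) = 1 by
      linear_combination -hc' - (c : Ω) * hq6, norm_one] at h5
    exact lt_irrefl _ h5
  · intro s γ hs hγ hN
    have hz : IsPrimitiveRoot (algebraMap K Ω ζ) 7 := hζ.map_of_injective (algebraMap K Ω).injective
    have hσz : ∀ σ : Ω ≃ₐ[K] Ω, σ (algebraMap K Ω ζ) = algebraMap K Ω ζ := fun σ => σ.commutes ζ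
    generalize algebraMap K Ω ζ = z at hs hz hσz
    have hsk : ∀ k : ℕ, (s ^ k) α = z ^ k * α := by
      intro k
      induction k with
      | zero => simp
      | succ k ih => rw [pow_succ', AlgEquiv.mul_apply, ih, map_mul, map_pow, hσz, hs]; ring
    have hnγ : ‖γ‖ ^ 7 = ‖algebraMap K Ω L.p‖ := by
      rw [← hN, norm_prod]
      simp only [L.iso]
      simp
    have hγ0 : 0 < ‖γ‖ := by
      refine (norm_nonneg γ).lt_of_ne fun h => hp0.ne ?_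
      rw [← hnγ, ← h]; simp
    have hcong : ∀ (j : ℕ) (τ τ' : Ω ≃ₐ[K] Ω), τ α = τ' α → τ (γ * θ ^ j) = τ' (γ * θ ^ j) := by
      intro j τ τ' h
      have h1 : (τ'⁻¹ * τ) α = α := by
        rw [AlgEquiv.mul_apply, h]; exact τ'.symm_apply_apply α
      have h2 : τ γ = τ' γ := by
        have := congrArg τ' (hγ _ h1)
        rwa [← AlgEquiv.mul_apply, mul_inv_cancel_left] at this
      rw [map_mul, map_mul, map_pow, map_pow, hσθ, hσθ, h, h2]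
    have hfix : ∀ (j : ℕ) (σ : Ω ≃ₐ[K] Ω), σ (∑ k ∈ Finset.range 7, (s ^ k) (γ * θ ^ j)) =
        ∑ k ∈ Finset.range 7, (s ^ k) (γ * θ ^ j) := by
      intro j σ
      have h1 : (σ α / α) ^ 7 = 1 := by
        rw [div_pow, ← map_pow, hα, AlgEquiv.commutes, ← hα, div_self (pow_ne_zero _ hα0)]
      obtain ⟨i, -, hi⟩ := hz.eq_pow_of_pow_eq_one h1
      have h2 : σ α = z ^ i * α := by rw [hi, div_mul_cancel₀ _ hα0]
      rw [map_sum, ← unr7_shift (f := fun k => (s ^ k) (γ * θ ^ j)) (fun k => hcong j _ _ (by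
        rw [hsk, hsk, pow_add, hz.pow_eq_one, mul_one])) i]
      refine Finset.sum_congr rfl fun k _ => ?_
      rw [← AlgEquiv.mul_apply]
      refine hcong j _ _ ?_
      rw [AlgEquiv.mul_apply, hsk, hsk, map_mul, map_pow, hσz, h2]; ring
    have hth : ∀ k : ℕ, ‖(s ^ k) θ‖ ≤ 1 := fun k => by rw [L.iso]; exact hθ1
    obtain ⟨j, hj⟩ : ∃ j : ℕ, ‖γ‖ ≤ ‖∑ k ∈ Finset.range 7, (s ^ k) (γ * θ ^ j)‖ := by
      by_contra hc
      push Not at hc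
      have h1 := unr7_vdm (g := fun k => (s ^ k) γ) (θ := fun k => (s ^ k) θ) hth
        (fun j => by simpa only [map_mul, map_pow] using hc j) (Finset.Ico 1 7) 0
      rw [Finset.sum_eq_single 0 (fun k hk hk0 => by
        rw [Finset.prod_eq_zero (i := k) (Finset.mem_Ico.2 ⟨by omega, Finset.mem_range.1 hk⟩)
          (sub_self _), mul_zero]) (by simp), norm_mul, norm_prod,
        Finset.prod_eq_one (fun l hl => ?_)] at h1
      · simp at h1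
      · obtain ⟨l1, l7⟩ := Finset.mem_Ico.1 hl
        have e : (s ^ 0) θ - (s ^ l) θ = -((z ^ l - 1) / q * α) := by
          rw [hσθ, hσθ, hsk, hsk]; field_simp; ring
        rw [e, norm_neg, norm_mul, hα1, mul_one]
        exact unr7_root hq0 hq hq6 (by rw [← pow_mul, mul_comm, pow_mul, hz.pow_eq_one, one_pow])
          (hz.pow_ne_one_of_pos_of_lt (by omega) l7)
    have hle : ‖∑ k ∈ Finset.range 7, (s ^ k) (γ * θ ^ j)‖ ≤ ‖γ‖ := by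
      refine IsUltrametricDist.norm_sum_le_of_forall_le_of_nonneg hγ0.le fun k _ => ?_
      rw [L.iso, norm_mul]
      exact mul_le_of_le_one_right hγ0.le (unr7_pow_le hθ1 j)
    obtain ⟨w, hw⟩ := (InfiniteGalois.mem_range_algebraMap_iff_fixed _).2 (hfix j)
    have hwn : ‖algebraMap K Ω w‖ = ‖γ‖ := by rw [hw]; exact le_antisymm hle hj
    have hw0 : w ≠ 0 := by
      rintro rfl
      rw [map_zero, norm_zero] at hwn
      exact hγ0.ne hwn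
    obtain ⟨k, hk⟩ := L.val w hw0
    rw [← hwn, hk, ← zpow_natCast, ← zpow_mul] at hnγ
    have := zpow_right_injective₀ hp0 L.p_lt.ne (hnγ.trans (zpow_one _).symm)
    omega

end Pool.Agent.Lib.MP_c05f82_nt.LG
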