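import Pool.Agent.Lib.MP_c05f82_nt.LG.Defs

/-!
The fields obtained from the seven-adic numbers by adjoining a root of minus seven.
-/

open scoped commutatorElement

namespace Pool.Agent.Lib.MP_c05f82_nt.LG

open Polynomial Finset

section

variable {n : ℕ} {π : PadicAlgCl 7}

theorem Fld_pow (h : π ^ n = -7) : ‖π‖ ^ n = 7⁻¹ := by
  have e : (7 : PadicAlgCl 7) = algebraMap ℚ_[7] (PadicAlgCl 7) ((7 : ℕ) : ℚ_[7]) := by
    rw [map_natCast, Nat.cast_ofNat]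
  have e' := PadicAlgCl.norm_extends 7 ((7 : ℕ) : ℚ_[7])
  rw [← norm_pow, h, norm_neg, e, e', Padic.norm_p]
  norm_num

theorem Fld_ne (hn : 0 < n) (h : π ^ n = -7) : π ≠ 0 := by
  rintro rfl
  rw [zero_pow hn.ne'] at h
  norm_num at h

theorem Fld_lt (h : π ^ n = -7) : ‖π‖ < 1 := by
  by_contra hc
  have := one_le_pow₀ (n := n) (not_lt.1 hc)
  rw [Fld_pow h] at this
  norm_num at this

theorem Fld_inj (hn : 0 < n) (h : π ^ n = -7) {a b : ℤ} (e : ‖π‖ ^ a = ‖π‖ ^ b) : a = b :=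
  zpow_right_injective₀ (norm_pos_iff.2 (Fld_ne hn h)) (Fld_lt h).ne e

theorem Fld_term (hn : 0 < n) (h : π ^ n = -7) {a : ℚ_[7]} (ha : a ≠ 0) (i : ℕ) :
    ∃ v : ℤ, ‖a • π ^ i‖ = ‖π‖ ^ ((n : ℤ) * v + i) := by
  refine ⟨a.valuation, ?_⟩
  rw [norm_smul, Padic.norm_eq_zpow_neg_valuation ha, norm_pow,
    zpow_add₀ (norm_pos_iff.2 (Fld_ne hn h)).ne', zpow_mul, zpow_natCast, zpow_natCast, Fld_pow h,
    inv_zpow', Nat.cast_ofNat]

theorem Fld_sum (hn : 0 < n) (h : π ^ n = -7) (a : ℕ → ℚ_[7]) (k : ℕ) (hk : k ≤ n) :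
    (∑ i ∈ range k, a i • π ^ i = 0 ∨
      ∃ v : ℤ, ∃ i < k, ‖∑ i ∈ range k, a i • π ^ i‖ = ‖π‖ ^ ((n : ℤ) * v + i)) ∧
      ∀ i < k, ‖a i • π ^ i‖ ≤ ‖∑ i ∈ range k, a i • π ^ i‖ := by
  induction k with
  | zero => simp
  | succ k ih =>
    obtain ⟨h1, h2⟩ := ih (by omega)
    rw [sum_range_succ]
    by_cases ha : a k = 0
    · rw [ha, zero_smul, add_zero]
      refine ⟨h1.imp id fun ⟨v, i, hi, e⟩ => ⟨v, i, by omega, e⟩, fun i hi => ?_⟩
      rcases Nat.lt_succ_iff_lt_or_eq.1 hi with hi | rfl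
      · exact h2 i hi
      · rw [ha, zero_smul, norm_zero]
        exact norm_nonneg _
    obtain ⟨w, hw⟩ := Fld_term hn h ha k
    rcases h1 with h1 | ⟨v, i, hi, e⟩
    · rw [h1, zero_add]
      refine ⟨Or.inr ⟨w, k, by omega, hw⟩, fun i hi => ?_⟩
      rcases Nat.lt_succ_iff_lt_or_eq.1 hi with hi | rfl
      · have := h2 i hi
        rw [h1, norm_zero] at this
        exact this.trans (norm_nonneg _)
      · exact le_rfl
    have ne : ‖∑ i ∈ range k, a i • π ^ i‖ ≠ ‖a k • π ^ k‖ := by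
      rw [e, hw]
      intro q
      have q' := Fld_inj hn h q
      have d : (n : ℤ) ∣ (k : ℤ) - i := ⟨v - w, by linear_combination -q'⟩
      have := Int.le_of_dvd (by omega) d
      omega
    have mx := IsUltrametricDist.norm_add_eq_max_of_norm_ne_norm ne
    refine ⟨Or.inr ?_, fun j hj => ?_⟩
    · rcases max_choice ‖∑ i ∈ range k, a i • π ^ i‖ ‖a k • π ^ k‖ with c | c
      · exact ⟨v, i, by omega, by rw [mx, c, e]⟩
      · exact ⟨w, k, by omega, by rw [mx, c, hw]⟩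
    · rw [mx]
      rcases Nat.lt_succ_iff_lt_or_eq.1 hj with hj | rfl
      · exact (h2 j hj).trans (le_max_left _ _)
      · exact le_max_right _ _

theorem Fld_rep (hn : 0 < n) (h : π ^ n = -7) {x : PadicAlgCl 7}
    (hx : x ∈ IntermediateField.adjoin ℚ_[7] {π}) :
    ∃ a : ℕ → ℚ_[7], x = ∑ i ∈ range n, a i • π ^ i := by
  rw [← IntermediateField.mem_toSubalgebra, IntermediateField.adjoin_simple_toSubalgebra_of_isAlgebraic
    (Algebra.IsAlgebraic.isAlgebraic π), Algebra.adjoin_singleton_eq_range_aeval] at hx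
  obtain ⟨f, rfl⟩ := hx
  have mo : (X ^ n + C (7 : ℚ_[7])).Monic := monic_X_pow_add_C _ hn.ne'
  have dg : (X ^ n + C (7 : ℚ_[7])).natDegree = n := natDegree_X_pow_add_C
  have rt : aeval π (X ^ n + C (7 : ℚ_[7])) = 0 := by
    rw [map_add, map_pow, aeval_X, aeval_C, h, map_ofNat, neg_add_cancel]
  have n1 : (X ^ n + C (7 : ℚ_[7])) ≠ 1 := fun e => by
    rw [e, natDegree_one] at dg
    omega
  have lt := natDegree_modByMonic_lt f mo n1
  rw [dg] at lt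
  exact ⟨_, (aeval_modByMonic_eq_self_of_root rt).symm.trans (aeval_eq_sum_range' lt π)⟩

theorem Fld_add {x y : PadicAlgCl 7} (hx : ‖x‖ < 1) (hy : ‖y‖ < 1) : ‖x + y‖ < 1 :=
  (IsUltrametricDist.norm_add_le_max x y).trans_lt (max_lt hx hy)

theorem Fld_res (hn : 0 < n) (h : π ^ n = -7) (a : ℕ → ℚ_[7])
    (hx : ‖∑ i ∈ range n, a i • π ^ i‖ ≤ 1) :
    ∃ r : ℤ, ‖∑ i ∈ range n, a i • π ^ i - r‖ < 1 := by
  have h2 := fun i hi => ((Fld_sum hn h a n le_rfl).2 i hi).trans hx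
  have a0 : ‖a 0‖ ≤ 1 := by simpa [norm_smul] using h2 0 hn
  obtain ⟨r, -, hr⟩ := PadicInt.exists_mem_range (⟨a 0, a0⟩ : ℤ_[7])
  have hr' : ‖a 0 - r‖ < 1 := by
    have := PadicInt.mem_nonunits.1 hr
    rwa [PadicInt.norm_def, PadicInt.coe_sub, PadicInt.coe_natCast] at this
  obtain ⟨k, rfl⟩ : ∃ k, n = k + 1 := ⟨n - 1, by omega⟩
  refine ⟨r, ?_⟩
  have e : a 0 • π ^ 0 - ((r : ℤ) : PadicAlgCl 7) = algebraMap ℚ_[7] _ (a 0 - r) := by
    simp [Algebra.smul_def]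
  rw [sum_range_succ', add_sub_assoc, e]
  refine Fld_add (sum_induction _ (fun y => ‖y‖ < 1) (fun _ _ => Fld_add) (by simp) fun i hi => ?_)
    ((PadicAlgCl.norm_extends 7 _).trans_lt hr')
  have hi' := mem_range.1 hi
  by_cases ha : a (i + 1) = 0
  · simp [ha]
  obtain ⟨v, hv⟩ := Fld_term hn h ha (i + 1)
  refine (h2 (i + 1) (by omega)).lt_of_ne fun q => ?_
  rw [hv, ← zpow_zero ‖π‖] at q
  have q' := Fld_inj hn h q
  have d : ((k + 1 : ℕ) : ℤ) ∣ ((i + 1 : ℕ) : ℤ) := ⟨-v, by linear_combination q'⟩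
  have := Int.le_of_dvd (by omega) d
  omega

end

theorem exists_lc (m : ℕ) (hm : 0 < m) :
    ∃ (K : IntermediateField ℚ_[7] (PadicAlgCl 7)) (L : Lc K (PadicAlgCl 7)), L.m = m := by
  have hn : 0 < 6 * m := by omega
  obtain ⟨π, h⟩ := IsAlgClosed.exists_pow_nat_eq (-7 : PadicAlgCl 7) hn
  refine ⟨IntermediateField.adjoin ℚ_[7] {π}, ⟨m, ⟨π, IntermediateField.mem_adjoin_simple_self _ π⟩,
    hm, Subtype.ext ?_, fun e => Fld_ne hn h (congrArg Subtype.val e), Fld_lt h, fun x hx => ?_,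
    fun x hx => ?_, fun σ x => ?_⟩, rfl⟩
  · exact h
  · obtain ⟨a, ha⟩ := Fld_rep hn h x.2
    rcases (Fld_sum hn h a _ le_rfl).1 with e | ⟨v, i, -, e⟩
    · exact absurd (Subtype.ext (ha.trans e)) hx
    · exact ⟨_, (congrArg norm ha).trans e⟩
  · obtain ⟨a, ha⟩ := Fld_rep hn h x.2
    obtain ⟨r, hr⟩ := Fld_res hn h a (ha ▸ hx)
    refine ⟨r, ?_⟩
    rw [map_sub, map_intCast]
    rwa [← ha] at hr
  · exact (spectralNorm_eq_of_equiv (σ.restrictScalars ℚ_[7]) x).symm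

theorem isGalois_padic (K : IntermediateField ℚ_[7] (PadicAlgCl 7)) :
    IsGalois K (PadicAlgCl 7) :=
  have : IsGalois ℚ_[7] (PadicAlgCl 7) := {}
  IsGalois.tower_top_of_isGalois ℚ_[7] K _

end Pool.Agent.Lib.MP_c05f82_nt.LG
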