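import Pool.Agent.Lib.MP_c05f82_nt.LG.Defs
import Pool.Agent.Lib.MP_c05f82_nt.GC.Fpf

/-!
Semidirect products with a fixed point free action through a group of order three.
-/

open scoped commutatorElement

namespace Pool.Agent.Lib.MP_c05f82_nt.LG

open Pool.Agent.Lib.MP_c05f82_nt.GC

section

open SemidirectProduct

variable {W : Type} [AddCommGroup W] {ω : W →+ W} (hω : Eis ω) {Q : Type} [Group Q]
  (χ : Q →* C3)

lemma Fpf_pow {g : FpfG hω χ} (hg : g.right ∈ χ.ker) (n : ℕ) :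
    (g ^ n).left = g.left ^ n ∧ (g ^ n).right = g.right ^ n := by
  induction n with
  | zero => simp
  | succ n ih =>
    rw [pow_succ, mul_left, mul_right, ih.1, ih.2, FpfPhi_ker hω χ (χ.ker.pow_mem hg n)]
    exact ⟨(pow_succ _ _).symm, (pow_succ _ _).symm⟩

lemma Fpf_cop {e : ℕ} (he : e.Coprime (Nat.card W)) (H : AddSubgroup W) {a : W}
    (h : e • a ∈ H) : a ∈ H := by
  obtain ⟨u, v, huv⟩ := Nat.isCoprime_iff_coprime.2 he
  have h1 : a = u • (e • a) + v • (Nat.card W • a) := by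
    rw [← natCast_zsmul, ← natCast_zsmul, smul_smul, smul_smul, ← add_smul, huv, one_smul]
  rw [h1, card_nsmul_eq_zero', smul_zero, add_zero]
  exact H.zsmul_mem h u

variable {q₀ : Q} (h₀ : χ q₀ = Multiplicative.ofAdd 1) {e : ℕ} (he : e.Coprime (Nat.card W))
  (hc : ∀ q : Q, (⁅q₀, q⁆ : Q) ^ e = 1)

include h₀ he hc in
lemma Fpf_left {P : Subgroup (FpfG hω χ)} (hP : P.Normal) {g : FpfG hω χ}
    (hg : ⁅(inr q₀ : FpfG hω χ), g⁆ ∈ P) : g.left.toAdd ∈ FpfL hω χ P := by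
  have hr : (⁅(inr q₀ : FpfG hω χ), g⁆ : FpfG hω χ).right = ⁅q₀, g.right⁆ := by
    simp [commutatorElement_def]
  have hk : (⁅q₀, g.right⁆ : Q) ∈ χ.ker := by
    rw [MonoidHom.mem_ker, map_commutatorElement, commutatorElement_eq_one_iff_mul_comm, mul_comm]
  have hl : (⁅(inr q₀ : FpfG hω χ), g⁆ : FpfG hω χ).left =
      Multiplicative.ofAdd (ω g.left.toAdd - g.left.toAdd) := by
    simp only [commutatorElement_def, mul_left, mul_right, inv_left, inv_right, left_inr,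
      right_inr, inv_one, map_one, mul_one, one_mul]
    rw [← MulAut.mul_apply, ← map_mul, ← commutatorElement_def, FpfPhi_ker hω χ hk,
      FpfPhi_one hω χ h₀, sub_eq_add_neg]
    rfl
  have hp := Fpf_pow hω χ (g := ⁅(inr q₀ : FpfG hω χ), g⁆) (by rw [hr]; exact hk) e
  rw [hl, hr, hc] at hp
  have h1 : ω g.left.toAdd - g.left.toAdd ∈ FpfL hω χ P := by
    refine Fpf_cop he _ ?_
    have e1 : (inl (Multiplicative.ofAdd (e • (ω g.left.toAdd - g.left.toAdd))) : FpfG hω χ) =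
        ⁅(inr q₀ : FpfG hω χ), g⁆ ^ e := by
      refine SemidirectProduct.ext ?_ ?_
      · rw [hp.1, left_inl, ofAdd_nsmul]
      · rw [hp.2, right_inl]
    rw [mem_FpfL, e1]
    exact P.pow_mem hg e
  exact Fpf_mem hω _ _ h1 (AddSubgroup.sub_mem _ (FpfL_inv hω χ h₀ hP _ h1) h1)

include h₀ he hc in
lemma Fpf_iff {P : Subgroup (FpfG hω χ)} (hP : P.Normal) (g : FpfG hω χ) :
    g ∈ P ↔ g.left.toAdd ∈ FpfL hω χ P ∧ g.right ∈ FpfR hω χ P := by
  constructor
  · intro hg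
    have h3 : g.left.toAdd ∈ FpfL hω χ P :=
      Fpf_left hω χ h₀ he hc hP (P.mul_mem (hP.conj_mem _ hg (inr q₀)) (P.inv_mem hg))
    refine ⟨h3, ?_⟩
    have h4 : (inl g.left : FpfG hω χ) ∈ P := h3
    have e1 : (inr g.right : FpfG hω χ) = (inl g.left)⁻¹ * g := by
      rw [eq_inv_mul_iff_mul_eq, inl_left_mul_inr_right]
    rw [mem_FpfR, e1]
    exact P.mul_mem (P.inv_mem h4) hg
  · rintro ⟨h1, h2⟩
    rw [← inl_left_mul_inr_right g]
    exact P.mul_mem h1 h2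

include h₀ he hc in
lemma Fpf_cen {k : ℕ} (hk : CenExp Q k) : CenExp (FpfG hω χ) k := by
  intro P hP x hx
  have h1 : x.left.toAdd ∈ FpfL hω χ P := by
    refine Fpf_left hω χ h₀ he hc hP ?_
    rw [← commutatorElement_inv]
    exact P.inv_mem (hx _)
  have h2 : x.right ^ k ∈ FpfR hω χ P := by
    refine hk _ (hP.comap _) _ fun g => ?_
    have h3 := ((Fpf_iff hω χ h₀ he hc hP _).1 (hx (inr g))).2
    have e0 : (⁅x, (inr g : FpfG hω χ)⁆ : FpfG hω χ).right = ⁅x.right, g⁆ := by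
      simp [commutatorElement_def]
    rw [e0] at h3
    exact h3
  have h3 : x ^ k ∈ FpfP hω χ (FpfL hω χ P) (FpfL_inv hω χ h₀ hP) ⊤ :=
    Subgroup.pow_mem _ ((mem_FpfP hω χ).2 ⟨h1, Subgroup.mem_top _⟩) k
  refine (Fpf_iff hω χ h₀ he hc hP _).2 ⟨h3.1, ?_⟩
  have e1 : (x ^ k).right = x.right ^ k := map_pow (rightHom : FpfG hω χ →* Q) x k
  rw [e1]
  exact h2

end

theorem atom_fpf {W : Type} [AddCommGroup W] [Finite W] (ω : W →+ W) (hω : Eis ω)
    (Q : Type) [Group Q] [Finite Q] (χ : Q →* C3) (q₀ : Q)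
    (h₀ : χ q₀ = Multiplicative.ofAdd 1) (e : ℕ) (he : e.Coprime (Nat.card W))
    (hc : ∀ q : Q, (⁅q₀, q⁆ : Q) ^ e = 1) (k : ℕ) (hk : CenExp Q k) :
    Atom (Nat.card W * Nat.card Q)
      (DW ω * wt (fun M : Subgroup Q => M.Normal ∧ M ≤ χ.ker) +
        Nat.card W * wt (fun M : Subgroup Q => M.Normal ∧ ¬ M ≤ χ.ker)) k := by
  classical
  have hfin : Finite (FpfG hω χ) := Finite.of_equiv _ SemidirectProduct.equivProd.symm
  refine ⟨FpfG hω χ, inferInstance, hfin, SemidirectProduct.card, ?_,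
    Fpf_cen hω χ h₀ he hc hk⟩
  let _ : Fintype (Subgroup (FpfG hω χ)) := Fintype.ofFinite _
  let _ : Fintype (Subgroup Q) := Fintype.ofFinite _
  let _ : Fintype (AddSubgroup W) := Fintype.ofFinite _
  rw [DD, DW, wt_eq_sum (Finset.univ.filter fun P : Subgroup (FpfG hω χ) => P.Normal) (by simp),
    awt_eq_sum (Finset.univ.filter fun H : AddSubgroup W => ∀ x ∈ H, ω x ∈ H) (by simp),
    wt_eq_sum (Finset.univ.filter fun M : Subgroup Q => M.Normal ∧ M ≤ χ.ker) (by simp),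
    wt_eq_sum (Finset.univ.filter fun M : Subgroup Q => M.Normal ∧ ¬ M ≤ χ.ker) (by simp)]
  have hsum : ∑ P ∈ Finset.univ.filter (fun P : Subgroup (FpfG hω χ) => P.Normal), Nat.card P =
      ∑ p ∈ Finset.univ.filter (fun p : AddSubgroup W × Subgroup Q =>
        (∀ x ∈ p.1, ω x ∈ p.1) ∧ p.2.Normal ∧ (p.2 ≤ χ.ker ∨ p.1 = ⊤)),
        Nat.card p.1 * Nat.card p.2 := by
    refine Finset.sum_bij (fun P _ => (FpfL hω χ P, FpfR hω χ P)) ?_ ?_ ?_ ?_
    · intro P hP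
      have hP' : P.Normal := (Finset.mem_filter.1 hP).2
      exact Finset.mem_filter.2 ⟨Finset.mem_univ _, FpfL_inv hω χ h₀ hP', hP'.comap _,
        FpfL_top hω χ hP'⟩
    · intro P hP R hR h
      obtain ⟨e1, e2⟩ := Prod.mk.inj h
      ext g
      rw [Fpf_iff hω χ h₀ he hc (Finset.mem_filter.1 hP).2,
        Fpf_iff hω χ h₀ he hc (Finset.mem_filter.1 hR).2, e1, e2]
    · rintro ⟨H, M⟩ hp
      obtain ⟨h1, h2, h3⟩ := (Finset.mem_filter.1 hp).2
      refine ⟨FpfP hω χ H h1 M, Finset.mem_filter.2 ⟨Finset.mem_univ _,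
        FpfP_normal hω χ h1 h2 h3⟩, Prod.ext ?_ ?_⟩
      · ext w
        simp [mem_FpfL, mem_FpfP]
      · ext q
        simp [mem_FpfR, mem_FpfP]
    · intro P hP
      exact Fpf_card hω χ P (Fpf_iff hω χ h₀ he hc (Finset.mem_filter.1 hP).2)
  rw [hsum, ← Finset.sum_filter_add_sum_filter_not _
    (fun p : AddSubgroup W × Subgroup Q => p.2 ≤ χ.ker), Finset.sum_mul_sum, ← Finset.sum_product',
    Finset.mul_sum]
  congr 1
  · refine Finset.sum_congr ?_ fun _ _ => rfl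
    ext ⟨H, M⟩
    simp only [Finset.mem_filter, Finset.mem_univ, true_and, Finset.mem_product]
    tauto
  · symm
    refine Finset.sum_bij (fun M _ => ((⊤ : AddSubgroup W), M)) ?_ ?_ ?_ ?_
    · intro M hM
      simp only [Finset.mem_filter, Finset.mem_univ, true_and] at hM ⊢
      exact ⟨⟨fun _ _ => trivial, hM.1, Or.inr trivial⟩, hM.2⟩
    · intro M _ R _ h
      exact (Prod.ext_iff.1 h).2
    · rintro ⟨H, M⟩ hp
      simp only [Finset.mem_filter, Finset.mem_univ, true_and] at hp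
      obtain ⟨⟨_, h2, h3⟩, h4⟩ := hp
      exact ⟨M, by simp [h2, h4], by rw [h3.resolve_left h4]⟩
    · intro M _
      simp

end Pool.Agent.Lib.MP_c05f82_nt.LG
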