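import Pool.Agent.Lib.MP_c05f82_nt.LG.Nat7

/-!
The cover glued to an extraspecial group and a cyclic group of order 27.
-/

open scoped commutatorElement

namespace Pool.Agent.Lib.MP_c05f82_nt.LG

open Pool.Agent.Lib.MP_c05f82_nt.GC

/-- the scalar by which `t` acts -/
def sc (a : F7) (t : ZMod 27) : F7 := a ^ t.val

lemma sc_zero (a : F7) : sc a 0 = 1 := by simp [sc]

lemma sc_add {a : F7} (ha : a ^ 3 = 1) (s t : ZMod 27) : sc a (s + t) = sc a s * sc a t := by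
  have h : a ^ 27 = 1 := by rw [show 27 = 3 * 9 from rfl, pow_mul, ha, one_pow]
  rw [sc, sc, sc, ← pow_add, ZMod.val_add, ← pow_eq_pow_mod _ h]

lemma sc2_add (s t : ZMod 27) : sc 2 (s + t) = sc 2 s * sc 2 t := sc_add (by decide) s t
lemma sc4_add (s t : ZMod 27) : sc 4 (s + t) = sc 4 s * sc 4 t := sc_add (by decide) s t

lemma sc_mul (t : ZMod 27) : sc 2 t * sc 4 t = 1 := by
  rw [sc, sc, ← mul_pow, show (2 * 4 : F7) = 1 by decide, one_pow]

variable {B : Type} [Group B] {A g : ℕ}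

lemma BD.zc_zero (D : BD B A g) : D.zc 0 = 1 := by
  have := D.zc_add 0 0
  rw [add_zero] at this
  exact (mul_eq_left.1 this.symm)

/-- the glued group -/
@[ext] structure GQ (D : BD B A g) where
  b : B
  t : ZMod 27
  v : F7 × F7
  w : F7 × F7

namespace GQ

variable {D : BD B A g}

instance : Mul (GQ D) := ⟨fun x y =>
  ⟨x.b * y.b * D.zc (dt x.v (sc 4 x.t • nat (D.rho x.b) y.w)), x.t + y.t,
    x.v + sc 2 x.t • nat (D.rho x.b) y.v, x.w + sc 4 x.t • nat (D.rho x.b) y.w⟩⟩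
instance : One (GQ D) := ⟨⟨1, 0, 0, 0⟩⟩
instance : Inv (GQ D) := ⟨fun x => ⟨x.b⁻¹ * D.zc (dt x.v x.w), -x.t,
  -(sc 2 (-x.t) • nat (D.rho x.b⁻¹) x.v), -(sc 4 (-x.t) • nat (D.rho x.b⁻¹) x.w)⟩⟩

lemma mul_b (x y : GQ D) :
    (x * y).b = x.b * y.b * D.zc (dt x.v (sc 4 x.t • nat (D.rho x.b) y.w)) := rfl
@[simp] lemma mul_t (x y : GQ D) : (x * y).t = x.t + y.t := rfl
lemma mul_v (x y : GQ D) : (x * y).v = x.v + sc 2 x.t • nat (D.rho x.b) y.v := rfl
lemma mul_w (x y : GQ D) : (x * y).w = x.w + sc 4 x.t • nat (D.rho x.b) y.w := rfl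
@[simp] lemma one_b : (1 : GQ D).b = 1 := rfl
@[simp] lemma one_t : (1 : GQ D).t = 0 := rfl
@[simp] lemma one_v : (1 : GQ D).v = 0 := rfl
@[simp] lemma one_w : (1 : GQ D).w = 0 := rfl
lemma inv_b (x : GQ D) : (x⁻¹).b = x.b⁻¹ * D.zc (dt x.v x.w) := rfl
@[simp] lemma inv_t (x : GQ D) : (x⁻¹).t = -x.t := rfl
lemma inv_v (x : GQ D) : (x⁻¹).v = -(sc 2 (-x.t) • nat (D.rho x.b⁻¹) x.v) := rfl
lemma inv_w (x : GQ D) : (x⁻¹).w = -(sc 4 (-x.t) • nat (D.rho x.b⁻¹) x.w) := rfl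

lemma rho_mul_b (x y : GQ D) : D.rho (x * y).b = D.rho x.b * D.rho y.b := by
  rw [mul_b, map_mul, map_mul, D.rho_zc, mul_one]

lemma rho_inv_b (x : GQ D) : D.rho (x⁻¹).b = D.rho x.b⁻¹ := by
  rw [inv_b, map_mul, D.rho_zc, mul_one]

lemma dt_act (t : ZMod 27) (s : SL F7) (v w : F7 × F7) :
    dt (sc 2 t • nat s v) (sc 4 t • nat s w) = dt v w := by
  rw [dt_smul_left, dt_smul_right, dt_nat, ← mul_assoc, sc_mul, one_mul]

instance : Group (GQ D) := Group.ofLeftAxioms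
  (fun x y z => by
    refine GQ.ext ?_ (add_assoc _ _ _) ?_ ?_
    · rw [mul_b (x * y), mul_b x (y * z), rho_mul_b, mul_b, mul_b, mul_t, mul_v, mul_w, sc4_add,
        nat_mul, mul_smul, ← nat_smul, dt_add_left, ← nat_smul, nat_smul (D.rho x.b) (sc 4 x.t),
        dt_act, nat_add, smul_add, dt_add_right, D.zc_add, D.zc_add]
      simp only [mul_assoc]
      rw [← mul_assoc (D.zc _) z.b, (D.zc_comm _ z.b).eq, mul_assoc z.b]
      congr 3
      rw [← D.zc_add, ← D.zc_add, ← D.zc_add, ← D.zc_add]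
      congr 1
      ring
    · simp only [mul_v, mul_t, rho_mul_b, sc2_add, nat_mul, nat_add, nat_smul, smul_add, mul_smul,
        add_assoc]
    · simp only [mul_w, mul_t, rho_mul_b, sc4_add, nat_mul, nat_add, nat_smul, smul_add, mul_smul,
        add_assoc])
  (fun x => by
    refine GQ.ext ?_ (zero_add _) ?_ ?_
    · simp [mul_b, dt_zero_left, D.zc_zero]
    · simp [mul_v, sc_zero, nat_one]
    · simp [mul_w, sc_zero, nat_one])
  (fun x => by
    refine GQ.ext ?_ (neg_add_cancel _) ?_ ?_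
    · rw [mul_b, rho_inv_b, inv_b, inv_v, inv_t, dt_neg_left, dt_act, one_b, mul_assoc x.b⁻¹,
        (D.zc_comm _ x.b).eq, inv_mul_cancel_left, ← D.zc_add, add_neg_cancel, D.zc_zero]
    · rw [mul_v, rho_inv_b, inv_v, inv_t, neg_add_cancel, one_v]
    · rw [mul_w, rho_inv_b, inv_w, inv_t, neg_add_cancel, one_w])

variable (D)

/-- the character of order three -/
def ch : GQ D →* C3 := MonoidHom.mk'
  (fun x => Multiplicative.ofAdd (ZMod.castHom (show 3 ∣ 27 by norm_num) (ZMod 3) x.t))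
  fun x y => by rw [mul_t, map_add, ofAdd_add]

/-- the generator of the cyclic factor -/
def q0 : GQ D := ⟨1, 1, 0, 0⟩

/-- the subgroup of index three -/
def T3 : AddSubgroup (ZMod 27) :=
  (ZMod.castHom (show 3 ∣ 27 by norm_num) (ZMod 3)).toAddMonoidHom.ker

/-- admissible triples -/
def OK (M : Subgroup B) (U : AddSubgroup (ZMod 27)) (i j : Bool) : Prop :=
  M.Normal ∧ ((i = true ∨ j = true) → D.zc 1 ∈ M) ∧
    ((i = false ∨ j = false) → M ≤ D.rho.ker ∧ U ≤ T3)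

/-- membership in the subgroup attached to a triple -/
def Mem (M : Subgroup B) (U : AddSubgroup (ZMod 27)) (i j : Bool) (x : GQ D) : Prop :=
  x.b ∈ M ∧ x.t ∈ U ∧ (i = false → x.v = 0) ∧ (j = false → x.w = 0)

end GQ

end Pool.Agent.Lib.MP_c05f82_nt.LG
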