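import Pool.Agent.Lib.MP_c05f82_nt.LG.Defs
import Pool.Agent.Lib.MP_c05f82_nt.GC.Cop
import Pool.Agent.Lib.MP_c05f82_nt.GC.Wc

/-!
Products of groups whose quotients have centres of coprime exponents.
-/

open scoped commutatorElement

namespace Pool.Agent.Lib.MP_c05f82_nt.LG

open Pool.Agent.Lib.MP_c05f82_nt.GC

lemma Prod_comm_mem {G : Type} [Group G] {M : Subgroup G} (hM : M.Normal) {x : G} (hx : x ∈ M)
    (g : G) : ⁅x, g⁆ ∈ M := by
  have h := mul_mem hx (hM.conj_mem _ (inv_mem hx) g)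
  rw [commutatorElement_def]
  simpa only [mul_assoc] using h

lemma Prod_left {G H : Type} [Group G] [Group H] {k : ℕ} (hG : CenExp G k)
    {M : Subgroup (G × H)} (hM : M.Normal) {a : G} {b : H} (h : ∀ g, ⁅(a, b), g⁆ ∈ M) :
    (a ^ k, (1 : H)) ∈ M := by
  refine hG (M.comap (MonoidHom.inl G H)) (hM.comap _) a fun g => ?_
  have := h (g, 1)
  change (⁅a, g⁆, (1 : H)) ∈ M
  refine (congrArg (· ∈ M) ?_).mp this
  ext <;> simp [commutatorElement_def]

lemma Prod_right {G H : Type} [Group G] [Group H] {l : ℕ} (hH : CenExp H l)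
    {M : Subgroup (G × H)} (hM : M.Normal) {a : G} {b : H} (h : ∀ g, ⁅(a, b), g⁆ ∈ M) :
    ((1 : G), b ^ l) ∈ M := by
  refine hH (M.comap (MonoidHom.inr G H)) (hM.comap _) b fun g => ?_
  have := h (1, g)
  change ((1 : G), ⁅b, g⁆) ∈ M
  refine (congrArg (· ∈ M) ?_).mp this
  ext <;> simp [commutatorElement_def]

lemma Prod_cop {G : Type} [Group G] {M : Subgroup G} {x : G} {k l : ℕ} (h : k.Coprime l)
    (hk : x ^ k ∈ M) (hl : x ^ l ∈ M) : x ∈ M := by
  have e := Nat.gcd_eq_gcd_ab k l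
  rw [h.gcd_eq_one, Nat.cast_one] at e
  have := mul_mem (zpow_mem hk (Nat.gcdA k l)) (zpow_mem hl (Nat.gcdB k l))
  rwa [← zpow_natCast, ← zpow_natCast, ← zpow_mul, ← zpow_mul, ← zpow_add, ← e, zpow_one] at this

theorem normal_eq_prod {G H : Type} [Group G] [Group H] {k l : ℕ} (hG : CenExp G k)
    (hH : CenExp H l) (h : k.Coprime l) (M : Subgroup (G × H)) (hM : M.Normal) :
    M = (M.comap (MonoidHom.inl G H)).prod (M.comap (MonoidHom.inr G H)) := by
  ext ⟨a, b⟩
  change _ ↔ ((a, 1) ∈ M ∧ (1, b) ∈ M)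
  refine ⟨fun hab => ?_, fun ⟨h1, h2⟩ => by simpa using mul_mem h1 h2⟩
  have h1 := Prod_left hG hM (Prod_comm_mem hM hab)
  have h2 := Prod_right hH hM (Prod_comm_mem hM hab)
  have h3 : (a, (1 : H)) ∈ M := by
    refine Prod_cop h (by simpa using h1) ?_
    simpa using mul_mem (pow_mem hab l) (inv_mem h2)
  exact ⟨h3, by simpa using mul_mem (inv_mem h3) hab⟩

theorem CenExp.of_dvd {G : Type} [Group G] {k l : ℕ} (hG : CenExp G k) (h : k ∣ l) :
    CenExp G l := by
  obtain ⟨m, rfl⟩ := h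
  intro M hM x hx
  rw [pow_mul]
  exact pow_mem (hG M hM x hx) m

theorem cenExp_of_pow {G : Type} [Group G] {k : ℕ} (h : ∀ x : G, x ^ k = 1) : CenExp G k := by
  intro M _ x _
  rw [h x]
  exact one_mem _

lemma Prod_wt {G H : Type} [Group G] [Group H] [Finite G] [Finite H]
    {q : Subgroup (G × H) → Prop} {q₁ : Subgroup G → Prop}
    {q₂ : Subgroup H → Prop} (hq : ∀ A B, q (A.prod B) ↔ q₁ A ∧ q₂ B)
    (h : ∀ N, q N → N = (N.comap (MonoidHom.inl G H)).prod (N.comap (MonoidHom.inr G H))) :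
    wt q = wt q₁ * wt q₂ := by
  classical
  have := Fintype.ofFinite (Subgroup G)
  have := Fintype.ofFinite (Subgroup H)
  rw [wt_eq_sum (Finset.univ.filter q₁) (by simp), wt_eq_sum (Finset.univ.filter q₂) (by simp),
    wt_eq_sum ((Finset.univ.filter q₁ ×ˢ Finset.univ.filter q₂).image fun x => x.1.prod x.2),
    Finset.sum_image, Finset.sum_mul_sum, Finset.sum_product]
  · refine Finset.sum_congr rfl fun A _ => Finset.sum_congr rfl fun B _ => ?_
    rw [Nat.card_congr (A.prodEquiv B).toEquiv, Nat.card_prod]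
  · rintro ⟨A, B⟩ - ⟨A', B'⟩ - e
    have e' : ∀ a b, a ∈ A ∧ b ∈ B ↔ a ∈ A' ∧ b ∈ B' := fun a b => SetLike.ext_iff.1 e (a, b)
    exact Prod.ext (Subgroup.ext fun a => by simpa using e' a 1)
      (Subgroup.ext fun b => by simpa using e' 1 b)
  · intro N
    simp only [Finset.mem_image, Finset.mem_product, Finset.mem_filter, Finset.mem_univ, true_and]
    refine ⟨fun ⟨x, hx, e⟩ => e ▸ (hq _ _).2 hx, fun hN => ⟨(_, _), ?_, (h N hN).symm⟩⟩
    exact (hq _ _).1 (h N hN ▸ hN)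

theorem Atom.mul {n d k n' d' k' : ℕ} (h : Atom n d k) (h' : Atom n' d' k') (hc : k.Coprime k') :
    Atom (n * n') (d * d') (k * k') := by
  obtain ⟨G, _, _, rfl, rfl, hG⟩ := h
  obtain ⟨H, _, _, rfl, rfl, hH⟩ := h'
  refine ⟨G × H, inferInstance, inferInstance, Nat.card_prod G H, ?_, ?_⟩
  · refine Prod_wt (fun A B => ⟨fun hn => ⟨⟨fun a ha g => ?_⟩, ⟨fun b hb g => ?_⟩⟩,
      fun ⟨_, _⟩ => inferInstance⟩) (normal_eq_prod hG hH hc)
    · exact (hn.conj_mem (a, 1) ⟨ha, one_mem _⟩ (g, 1)).1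
    · exact (hn.conj_mem (1, b) ⟨one_mem _, hb⟩ (1, g)).2
  · rintro M hM ⟨a, b⟩ hx
    have h1 := Prod_left (hG.of_dvd (Dvd.intro k' rfl)) hM hx
    have h2 := Prod_right (hH.of_dvd (Dvd.intro_left k rfl)) hM hx
    simpa using mul_mem h1 h2

theorem atom_cyc (n : ℕ) (hn : n ≠ 0) : Atom n (∑ d ∈ n.divisors, d) n := by
  classical
  have : NeZero n := ⟨hn⟩
  have hc : Nat.card (Multiplicative (ZMod n)) = n := by simp
  refine ⟨Multiplicative (ZMod n), inferInstance, inferInstance, hc, ?_, cenExp_of_pow fun x => ?_⟩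
  · rw [DD, wt_eq_sum (n.divisors.image fun d => (wcKer n d).toSubgroup), Finset.sum_image]
    · exact Finset.sum_congr rfl fun d hd => wcKer_card hn (Nat.dvd_of_mem_divisors hd)
    · intro d hd d' hd' h
      have h' : wcKer n d = wcKer n d' := AddSubgroup.toSubgroup.injective h
      rw [← wcKer_card hn (Nat.dvd_of_mem_divisors hd), h',
        wcKer_card hn (Nat.dvd_of_mem_divisors hd')]
    · intro H
      refine ⟨fun _ => inferInstance, fun _ => ?_⟩
      obtain ⟨K, rfl⟩ := AddSubgroup.toSubgroup.surjective H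
      exact Finset.mem_image.2
        ⟨_, Nat.mem_divisors.2 ⟨(wc_eq_ker hn K).1, hn⟩, congrArg _ (wc_eq_ker hn K).2⟩
  · have : x ^ Nat.card (Multiplicative (ZMod n)) = 1 := pow_card_eq_one'
    rwa [hc] at this

theorem atom_prime (p : ℕ) (hp : p.Prime) : Atom p (p + 1) p := by
  have := atom_cyc p hp.ne_zero
  rwa [hp.sum_divisors (f := fun d => d)] at this

end Pool.Agent.Lib.MP_c05f82_nt.LG
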