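import Pool.Agent.Lib.MP_c05f82_nt.LG.Nat7

/-!
The special linear group over the field with seven elements.
-/

open scoped commutatorElement

namespace Pool.Agent.Lib.MP_c05f82_nt.LG

open Pool.Agent.Lib.MP_c05f82_nt.GC

/-- the entries -/
def Sl7_equiv : SL F7 ≃ {p : F7 × F7 × F7 × F7 // p.1 * p.2.2.2 - p.2.1 * p.2.2.1 = 1} where
  toFun g := ⟨(g.a, g.b, g.c, g.d), g.det⟩
  invFun p := ⟨_, _, _, _, p.2⟩
  left_inv _ := rfl
  right_inv _ := rfl

theorem finite_SL7 : Finite (SL F7) := Finite.of_equiv _ Sl7_equiv.symm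

theorem card_SL7 : Nat.card (SL F7) = 336 := by
  rw [Nat.card_congr Sl7_equiv, Nat.card_eq_fintype_card]
  decide +kernel

lemma Sl7_seven : (7 : F7) = 0 := rfl

/-- the Weyl element -/
def Sl7_w : SL F7 := ⟨0, 1, -1, 0, by ring⟩

lemma Sl7_top {M : Subgroup (SL F7)} (hM : M.Normal) (h : SL.fM 1 ∈ M) : M = ⊤ := by
  have hf : ∀ t : F7, SL.fM t ∈ M := fun t => by
    rw [← ZMod.natCast_zmod_val t]
    induction t.val with
    | zero => exact (show (1 : SL F7) = SL.fM ((0 : ℕ) : F7) by ext <;> simp) ▸ M.one_mem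
    | succ n ih =>
      exact (show SL.fM (n : F7) * SL.fM 1 = SL.fM ((n + 1 : ℕ) : F7) by ext <;> simp) ▸
        M.mul_mem ih h
  have he : ∀ t : F7, SL.eM t ∈ M := fun t =>
    (show Sl7_w * SL.fM (-t) * Sl7_w⁻¹ = SL.eM t by ext <;> simp [Sl7_w]) ▸
      hM.conj_mem _ (hf _) _
  have key : ∀ g : SL F7, g.c ≠ 0 → g ∈ M := fun g hg => by
    have : SL.eM ((g.a - 1) / g.c) * SL.fM g.c * SL.eM ((g.d - 1) / g.c) = g := by
      ext <;> simp <;> field_simp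
      · ring
      · linear_combination g.det
      · ring
    exact this ▸ M.mul_mem (M.mul_mem (he _) (hf _)) (he _)
  refine eq_top_iff.2 fun g _ => ?_
  by_cases hc : g.c = 0
  · refine (M.mul_mem_cancel_right h).1 (key _ fun k => ?_)
    have := g.det
    simp [hc] at k
    simp [hc, k] at this
  · exact key g hc

lemma Sl7_of_c {M : Subgroup (SL F7)} (hM : M.Normal) {x : SL F7} (hx : x ∈ M) (hc : x.c ≠ 0) :
    M = ⊤ := by
  obtain ⟨y, hy, hd⟩ : ∃ y ∈ M, y.d = 0 :=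
    ⟨_, hM.conj_mem _ hx (SL.eM (x.d / x.c)), by simp; field_simp; ring⟩
  have e := y.det
  rw [hd] at e
  obtain ⟨z, hz, z1, z2, z3⟩ : ∃ z ∈ M, z.a = 2 ∧ z.b = 0 ∧ z.d = 4 := by
    refine ⟨_, M.mul_mem (M.inv_mem hy) (hM.conj_mem _ hy ⟨2, 0, 0, 4, by decide⟩), ?_, ?_, ?_⟩ <;>
      simp [hd]
    · linear_combination 16 * e + 2 * Sl7_seven
    · linear_combination 4 * e
  have := M.mul_mem hz (hM.conj_mem _ (M.inv_mem hz) (SL.fM 1))
  refine Sl7_top hM (Eq.subst ?_ this)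
  ext <;> simp [z1, z2, z3]
  · decide
  · linear_combination Sl7_seven
  · decide

theorem SL7_normal (M : Subgroup (SL F7)) (hM : M.Normal) :
    (∀ x ∈ M, x = 1 ∨ x = neg1 F7) ∨ M = ⊤ := by
  refine or_iff_not_imp_right.2 fun h x hx => ?_
  have k : ∀ g : SL F7, (g * x * g⁻¹).c = 0 := fun g =>
    by_contra fun hc => h (Sl7_of_c hM (hM.conj_mem _ hx g) hc)
  have k1 := k 1
  have k2 := k Sl7_w
  have k3 := k (SL.fM 1)
  simp [Sl7_w] at k1 k2
  simp [k1, k2] at k3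
  have e := x.det
  have : x.a * x.a = 1 := by linear_combination e + x.a * k3 + x.b * k1
  rcases mul_self_eq_one_iff.1 this with r | r
  · exact Or.inl (SL.ext r k2 k1 (by simp; linear_combination r - k3))
  · exact Or.inr (SL.ext r k2 k1 (by simp [neg1]; linear_combination r - k3))

theorem SL7_center (s : SL F7) (h : ∀ g, ⁅s, g⁆ = 1 ∨ ⁅s, g⁆ = neg1 F7) :
    s = 1 ∨ s = neg1 F7 := by
  have k : ∀ g, (s * g * s⁻¹ * g⁻¹).b = 0 ∧ (s * g * s⁻¹ * g⁻¹).c = 0 := fun g => by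
    rw [← commutatorElement_def]
    rcases h g with r | r <;> rw [r] <;> exact ⟨rfl, rfl⟩
  obtain ⟨k1, k2⟩ := k (SL.eM 1)
  have k3 := (k (SL.fM 1)).1
  simp at k1 k2 k3
  have e := s.det
  have c0 : s.c = 0 := mul_self_eq_zero.1 (by linear_combination -k2)
  have b0 : s.b = 0 := mul_self_eq_zero.1 (by linear_combination -k3)
  rw [b0, c0] at k1 e
  have : s.a * s.a = 1 := by linear_combination k1 + e
  rcases mul_self_eq_one_iff.1 this with r | r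
  · exact Or.inl (SL.ext r b0 c0 (by simp; linear_combination e - s.d * r))
  · exact Or.inr (SL.ext r b0 c0 (by simp [neg1]; linear_combination s.d * r - e))

lemma Sl7_e (x : F7 × F7 × F7) : Ad (SL.eM 1) x - x = (x.2.2, -2 * x.1 - x.2.2, 0) := by
  ext <;> simp [Ad]
  ring

lemma Sl7_f (x : F7 × F7 × F7) : Ad (SL.fM 1) x - x = (-x.2.1, 0, 2 * x.1 - x.2.1) := by
  ext <;> simp [Ad]

lemma Sl7_ww (x : F7 × F7 × F7) : Ad Sl7_w x = (-x.1, -x.2.2, -x.2.1) := by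
  ext <;> simp [Ad, Sl7_w]

theorem Ad_irred (U : AddSubgroup (F7 × F7 × F7)) (h : ∀ g, ∀ x ∈ U, Ad g x ∈ U) :
    U = ⊥ ∨ U = ⊤ := by
  have hs : ∀ (k : F7), ∀ x ∈ U, k • x ∈ U := fun k x hx => by
    rw [← ZMod.natCast_zmod_val k, Nat.cast_smul_eq_nsmul]
    exact U.nsmul_mem hx _
  have he : ∀ x ∈ U, (x.2.2, -2 * x.1 - x.2.2, 0) ∈ U := fun x hx =>
    Sl7_e x ▸ U.sub_mem (h _ x hx) hx
  have hw : ∀ x ∈ U, (-x.1, -x.2.2, -x.2.1) ∈ U := fun x hx => Sl7_ww x ▸ h _ x hx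
  refine or_iff_not_imp_right.2 fun ht => ?_
  have k0 : ∀ t : F7, (0, -2 * t, 0) ∈ U → t = 0 := fun t h1 => by_contra fun h0 => ht (by
    have a1 : ((0, 1, 0) : F7 × F7 × F7) ∈ U := by
      have := hs (-2 * t)⁻¹ _ h1
      rwa [Prod.smul_mk, Prod.smul_mk, smul_zero, smul_eq_mul,
        inv_mul_cancel₀ (mul_ne_zero (by decide) h0)] at this
    have a2 : ((0, 0, 1) : F7 × F7 × F7) ∈ U := by simpa using U.neg_mem (hw _ a1)
    have a3 : ((1, 0, 0) : F7 × F7 × F7) ∈ U := by simpa using U.add_mem (he _ a2) a1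
    exact eq_top_iff.2 fun x _ => by
      simpa [Prod.mk_zero_zero] using
        U.add_mem (hs x.1 _ a3) (U.add_mem (hs x.2.1 _ a1) (hs x.2.2 _ a2)))
  have k1 : ∀ x ∈ U, x.2.2 = 0 := fun x hx => k0 _ (by simpa using he _ (he x hx))
  refine eq_bot_iff.2 fun x hx => ?_
  have k2 := k1 _ (hw x hx)
  have k3 := k0 x.1 (by simpa [k1 x hx] using he x hx)
  exact Prod.ext k3 (Prod.ext (neg_eq_zero.1 k2) (k1 x hx))

theorem Ad_moves {x : F7 × F7 × F7} (hx : x ≠ 0) : ∃ g, Ad g x ≠ x := by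
  by_contra h
  push Not at h
  have k1 := Sl7_e x
  have k2 := Sl7_f x
  rw [h, sub_self] at k1 k2
  obtain ⟨a1, a2⟩ := Prod.mk.inj k1
  have a3 := (Prod.mk.inj a2).1
  have a4 := (Prod.mk.inj k2).1
  refine hx (Prod.ext ?_ (Prod.ext (neg_eq_zero.1 a4.symm) a1.symm))
  change x.1 = 0
  linear_combination 4 * a3 + 4 * a1 - x.1 * Sl7_seven

theorem nat_trans {v w : F7 × F7} (hv : v ≠ 0) (hw : w ≠ 0) : ∃ g, nat g v = w := by
  have key : ∀ v : F7 × F7, v ≠ 0 → ∃ g, nat g (1, 0) = v := fun v hv => by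
    by_cases h : v.1 = 0
    · have h2 : v.2 ≠ 0 := fun k => hv (Prod.ext h k)
      exact ⟨⟨v.1, -v.2⁻¹, v.2, 0, by simp [h2]⟩, by simp [nat]⟩
    · exact ⟨⟨v.1, 0, v.2, v.1⁻¹, by simp [h]⟩, by simp [nat]⟩
  obtain ⟨g, rfl⟩ := key v hv
  obtain ⟨k, rfl⟩ := key w hw
  exact ⟨k * g⁻¹, by rw [← nat_mul, inv_mul_cancel_right]⟩

theorem nat_scalar {g : SL F7} {c : F7} (h1 : ∀ v, c • nat g v = v)
    (h2 : ∀ v, (c * c) • nat g v = v) : c = 1 ∧ g = 1 := by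
  obtain rfl : c = 1 := by
    have := h2 (1, 0)
    rw [mul_smul, h1] at this
    simpa using this
  have a := h1 (1, 0)
  have b := h1 (0, 1)
  simp [nat] at a b
  exact ⟨rfl, SL.ext a.1 b.1 a.2 b.2⟩

end Pool.Agent.Lib.MP_c05f82_nt.LG
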