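import Pool.Agent.Lib.MP_c05f82_nt.LG.Glue1
import Pool.Agent.Lib.MP_c05f82_nt.LG.Sl7
import Pool.Agent.Lib.MP_c05f82_nt.LG.Prod

/-!
Every normal subgroup of the glued group comes from an admissible triple.
-/

open scoped commutatorElement

namespace Pool.Agent.Lib.MP_c05f82_nt.LG

open Pool.Agent.Lib.MP_c05f82_nt.GC

variable {B : Type} [Group B] {A g : ℕ}

theorem BD.cenExp (D : BD B A g) : CenExp B (14 * A) := by
  intro M hM x hx
  by_cases h : ∃ y ∈ M, D.rho y ≠ 1 ∧ D.rho y ≠ neg1 F7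
  · rw [D.eq_top M hM h]; trivial
  have h1 : D.rho x = 1 ∨ D.rho x = neg1 F7 := SL7_center _ fun s => by
    obtain ⟨y, rfl⟩ := D.rho_surj s
    rw [← map_commutatorElement]
    by_contra h'
    exact h ⟨_, hx y, not_or.1 h'⟩
  have h2 : x ^ 2 ∈ D.rho.ker := by
    rw [MonoidHom.mem_ker, map_pow, sq]
    rcases h1 with e | e <;> rw [e]
    · exact mul_one _
    · exact neg1_mul_neg1
  have h3 : (⟨x ^ 2, h2⟩ : D.rho.ker) ^ Nat.card D.rho.ker = 1 := pow_card_eq_one'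
  have h4 := congrArg Subtype.val h3
  rw [D.card_ker, SubmonoidClass.coe_pow, ← pow_mul] at h4
  rw [show 14 * A = 2 * (7 * A) by ring, h4]
  exact M.one_mem

namespace Glue2

variable (D : BD B A g)

/-- elements of the extraspecial group -/
def E (k : F7) (v w : F7 × F7) : GQ D := ⟨D.zc k, 0, v, w⟩

/-- the complement -/
def inn : B × Multiplicative (ZMod 27) →* GQ D := MonoidHom.mk'
  (fun y => ⟨y.1, y.2.toAdd, 0, 0⟩) fun x y => by
    refine GQ.ext ?_ rfl ?_ ?_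
    · simp [GQ.mul_b, dt_zero_left, D.zc_zero]
    · simp [GQ.mul_v, nat_zero]
    · simp [GQ.mul_w, nat_zero]

lemma E_mul (k l : F7) (v w v' w' : F7 × F7) :
    E D k v w * E D l v' w' = E D (k + l + dt v w') (v + v') (w + w') := by
  refine GQ.ext ?_ (add_zero _) ?_ ?_
  · simp [GQ.mul_b, E, D.rho_zc, sc_zero, nat_one, D.zc_add]
  · simp [GQ.mul_v, E, D.rho_zc, sc_zero, nat_one]
  · simp [GQ.mul_w, E, D.rho_zc, sc_zero, nat_one]

lemma E_zero : E D 0 0 0 = 1 := GQ.ext D.zc_zero rfl rfl rfl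

lemma E_inv (k : F7) (v w : F7 × F7) : (E D k v w)⁻¹ = E D (dt v w - k) (-v) (-w) := by
  refine (eq_inv_of_mul_eq_one_left ?_).symm
  rw [E_mul, dt_neg_left, neg_add_cancel, neg_add_cancel, ← E_zero]
  congr 1
  ring

lemma inn_E (y : B × Multiplicative (ZMod 27)) (k : F7) (v w : F7 × F7) :
    inn D y * E D k v w * (inn D y)⁻¹
      = E D k (sc 2 y.2.toAdd • nat (D.rho y.1) v) (sc 4 y.2.toAdd • nat (D.rho y.1) w) := by
  rw [mul_inv_eq_iff_eq_mul]
  refine GQ.ext ?_ ?_ ?_ ?_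
  · simp [GQ.mul_b, E, inn, dt_zero_left, dt_zero_right, nat_zero, D.zc_zero,
      (D.zc_comm k y.1).eq]
  · simp [E, inn]
  · simp [GQ.mul_v, E, inn, nat_zero]
  · simp [GQ.mul_w, E, inn, nat_zero]

lemma decomp (x : GQ D) : x = E D 0 x.v x.w * inn D (x.b, Multiplicative.ofAdd x.t) := by
  refine GQ.ext ?_ ?_ ?_ ?_
  · simp [GQ.mul_b, E, inn, dt_zero_right, nat_zero, D.zc_zero]
  · simp [E, inn]
  · simp [GQ.mul_v, E, inn, nat_zero]
  · simp [GQ.mul_w, E, inn, nat_zero]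

lemma inn_zc (k : F7) : inn D (D.zc k, 1) = E D k 0 0 := rfl

variable {D} {P : Subgroup (GQ D)}

/-- the image of the intersection with the extraspecial group -/
def R (P : Subgroup (GQ D)) (v w : F7 × F7) : Prop := ∃ k, E D k v w ∈ P

lemma R.add {v w v' w' : F7 × F7} (h : R P v w) (h' : R P v' w') : R P (v + v') (w + w') := by
  obtain ⟨k, h⟩ := h
  obtain ⟨l, h'⟩ := h'
  exact ⟨_, E_mul D k l v w v' w' ▸ P.mul_mem h h'⟩

lemma R.smul {v w : F7 × F7} (h : R P v w) (c : F7) : R P (c • v) (c • w) := by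
  have : ∀ n : ℕ, R P ((n : F7) • v) ((n : F7) • w) := fun n => by
    induction n with
    | zero => exact ⟨0, by simp [E_zero]⟩
    | succ n ih => simpa [add_smul] using ih.add h
  simpa using this c.val

lemma R.conj (hP : P.Normal) {v w : F7 × F7} (h : R P v w) (y : B × Multiplicative (ZMod 27)) :
    R P (sc 2 y.2.toAdd • nat (D.rho y.1) v) (sc 4 y.2.toAdd • nat (D.rho y.1) w) := by
  obtain ⟨k, h⟩ := h
  exact ⟨k, inn_E D y k v w ▸ hP.conj_mem _ h _⟩

lemma R.of_mem (hP : P.Normal) {x : GQ D} (hx : x ∈ P) : R P x.v x.w := by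
  have h1 := P.mul_mem hx (P.inv_mem (hP.conj_mem _ hx (inn D (D.io, 1))))
  have hc : Commute (inn D (D.io, 1)) (inn D (x.b, Multiplicative.ofAdd x.t)) :=
    Commute.map (Commute.prod (D.io_comm _) (Commute.one_left _)) _
  have h2 : inn D (D.io, 1) * x * (inn D (D.io, 1))⁻¹
      = E D 0 (-x.v) (-x.w) * inn D (x.b, Multiplicative.ofAdd x.t) := by
    have := inn_E D (D.io, 1) 0 x.v x.w
    simp only [toAdd_one, sc_zero, one_smul, D.rho_io, nat_neg1] at this
    rw [← this]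
    conv_lhs => rw [decomp D x]
    rw [← mul_assoc, mul_assoc _ (inn D (x.b, _)), mul_assoc _ (inn D (D.io, 1))⁻¹,
      hc.inv_left.eq]
  rw [h2] at h1
  nth_rewrite 1 [decomp D x] at h1
  rw [mul_inv_rev, mul_assoc, mul_inv_cancel_left, E_inv, E_mul, neg_neg, neg_neg] at h1
  have h3 := R.smul ⟨_, h1⟩ 4
  have e : ∀ v : F7 × F7, (4 : F7) • (v + v) = v := fun v => by
    rw [← two_smul F7, smul_smul, show (4 * 2 : F7) = 1 by decide, one_smul]
  rwa [e, e] at h3

lemma exists_dt {v : F7 × F7} (hv : v ≠ 0) : ∃ w, dt v w = 1 := by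
  by_cases h : v.1 = 0
  · have h2 : v.2 ≠ 0 := fun h2 => hv (Prod.ext h h2)
    exact ⟨(-v.2⁻¹, 0), by simp [dt, h2]⟩
  · exact ⟨(0, v.1⁻¹), by simp [dt, h]⟩

lemma R.z (hP : P.Normal) {v w : F7 × F7} (h : R P v w) (h0 : v ≠ 0 ∨ w ≠ 0) (c : F7) :
    E D c 0 0 ∈ P := by
  obtain ⟨k, h⟩ := h
  have key : ∀ v' w', E D (dt v' w - dt v w') 0 0 ∈ P := fun v' w' => by
    have h1 := P.mul_mem (hP.conj_mem _ h (E D 0 v' w')) (P.inv_mem h)
    have : E D 0 v' w' * E D k v w * (E D 0 v' w')⁻¹ * (E D k v w)⁻¹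
        = E D (dt v' w - dt v w') 0 0 := by
      rw [mul_inv_eq_iff_eq_mul, mul_inv_eq_iff_eq_mul, E_mul, E_mul, E_mul, dt_zero_left,
        zero_add v, zero_add w, add_comm v, add_comm w]
      congr 1
      ring
    exact this ▸ h1
  rcases h0 with h0 | h0
  · obtain ⟨u, hu⟩ := exists_dt h0
    have := key 0 (-c • u)
    rwa [dt_zero_left, dt_smul_right, hu, mul_one, zero_sub, neg_neg] at this
  · obtain ⟨u, hu⟩ := exists_dt h0
    have := key (-c • u) 0
    have e : dt u w = -1 := by rw [← hu]; simp only [dt]; ring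
    rwa [dt_zero_right, dt_smul_left, e, sub_zero, neg_mul_neg, mul_one] at this

lemma R.mem (hP : P.Normal) {v w : F7 × F7} (h : R P v w) : E D 0 v w ∈ P := by
  by_cases h0 : v ≠ 0 ∨ w ≠ 0
  · obtain ⟨k, hk⟩ := h
    have := P.mul_mem (R.z hP ⟨k, hk⟩ h0 (-k)) hk
    rwa [E_mul, dt_zero_left, neg_add_cancel, zero_add, zero_add, zero_add] at this
  · rw [not_or, not_not, not_not] at h0
    rw [h0.1, h0.2, E_zero]
    exact P.one_mem

lemma R.split (hP : P.Normal) {v w : F7 × F7} (h : R P v w) : R P v 0 ∧ R P 0 w := by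
  have h1 := h.conj hP (1, Multiplicative.ofAdd 1)
  simp only [toAdd_ofAdd, map_one, nat_one, show sc 2 1 = 2 by decide,
    show sc 4 1 = 4 by decide] at h1
  have h2 := (h1.add (h.smul 3)).smul 3
  have h3 := (h1.add (h.smul 5)).smul 4
  simp only [← add_smul, smul_smul] at h2 h3
  rw [show (3 * (2 + 3) : F7) = 1 by decide, show (3 * (4 + 3) : F7) = 0 by decide, one_smul,
    zero_smul] at h2
  rw [show (4 * (2 + 5) : F7) = 0 by decide, show (4 * (4 + 5) : F7) = 1 by decide, one_smul,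
    zero_smul] at h3
  exact ⟨h2, h3⟩

lemma all_v (hP : P.Normal) {x : GQ D} (hx : x ∈ P) (h0 : x.v ≠ 0) (v : F7 × F7) :
    E D 0 v 0 ∈ P := by
  by_cases hv : v = 0
  · rw [hv, E_zero]; exact P.one_mem
  obtain ⟨s, rfl⟩ := nat_trans h0 hv
  obtain ⟨b, rfl⟩ := D.rho_surj s
  have := ((R.of_mem hP hx).split hP).1.conj hP (b, 1)
  simp only [toAdd_one, sc_zero, one_smul, nat_zero] at this
  exact this.mem hP

lemma all_w (hP : P.Normal) {x : GQ D} (hx : x ∈ P) (h0 : x.w ≠ 0) (w : F7 × F7) :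
    E D 0 0 w ∈ P := by
  by_cases hw : w = 0
  · rw [hw, E_zero]; exact P.one_mem
  obtain ⟨s, rfl⟩ := nat_trans h0 hw
  obtain ⟨b, rfl⟩ := D.rho_surj s
  have := ((R.of_mem hP hx).split hP).2.conj hP (b, 1)
  simp only [toAdd_one, sc_zero, one_smul, nat_zero] at this
  exact this.mem hP

lemma comm_mem (hP : P.Normal) {y : B × Multiplicative (ZMod 27)} (hy : inn D y ∈ P)
    (v w : F7 × F7) : ∃ k, E D k (sc 2 y.2.toAdd • nat (D.rho y.1) v - v)
      (sc 4 y.2.toAdd • nat (D.rho y.1) w - w) ∈ P := by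
  have h1 := P.mul_mem hy (hP.conj_mem _ (P.inv_mem hy) (E D 0 v w))
  rw [← mul_assoc, ← mul_assoc, inn_E, E_inv, E_mul, ← sub_eq_add_neg, ← sub_eq_add_neg] at h1
  exact ⟨_, h1⟩

lemma nat_eq_one {s : SL F7} (h : ∀ v, nat s v = v) : s = 1 :=
  (nat_scalar (c := 1) (by simpa using h) (by simpa using h)).2

lemma mem_T3 (t : ZMod 27) (h : sc 2 t = 1 ∨ sc 4 t = 1) : t ∈ GQ.T3 := by
  have : ∀ t : ZMod 27, (sc 2 t = 1 ∨ sc 4 t = 1) →
      ZMod.castHom (show 3 ∣ 27 by norm_num) (ZMod 3) t = 0 := by decide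
  exact this t h

lemma smul_eq {c : F7} (h : c • ((1, 0) : F7 × F7) - (1, 0) = 0) : c = 1 := by
  have := congrArg Prod.fst h
  simpa [sub_eq_zero] using this

end Glue2

open Glue2 in
theorem GQ.exists_triple (D : BD B A g) (hA : A.Coprime 3) (P : Subgroup (GQ D))
    (hP : P.Normal) : ∃ M U i j, GQ.OK D M U i j ∧ ∀ x, x ∈ P ↔ GQ.Mem D M U i j x := by
  classical
  have hP' : (P.comap (inn D)).Normal := hP.comap _
  have hc : (14 * A).Coprime 27 :=
    Nat.Coprime.mul_left (by norm_num) (by simpa using hA.pow_right 3)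
  have h27 : CenExp (Multiplicative (ZMod 27)) 27 := cenExp_of_pow fun x => by
    have := pow_card_eq_one' (x := x)
    rwa [Nat.card_congr Multiplicative.toAdd, Nat.card_zmod] at this
  have hpr := normal_eq_prod D.cenExp h27 hc _ hP'
  have hi : ∀ x ∈ P, decide (∀ v, E D 0 v 0 ∈ P) = false → x.v = 0 := fun x hx h => by
    by_contra h0
    exact of_decide_eq_false h (all_v hP hx h0)
  have hj : ∀ x ∈ P, decide (∀ w, E D 0 0 w ∈ P) = false → x.w = 0 := fun x hx h => by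
    by_contra h0
    exact of_decide_eq_false h (all_w hP hx h0)
  have h10 : ((1, 0) : F7 × F7) ≠ 0 := by decide
  refine ⟨(P.comap (inn D)).comap (MonoidHom.inl _ _),
    Subgroup.toAddSubgroup' ((P.comap (inn D)).comap (MonoidHom.inr _ _)),
    decide (∀ v, E D 0 v 0 ∈ P), decide (∀ w, E D 0 0 w ∈ P),
    ⟨hP'.comap _, ?_, ?_⟩, fun x => ⟨fun hx => ?_, ?_⟩⟩
  · rintro (h | h)
    · exact R.z hP ⟨0, of_decide_eq_true h (1, 0)⟩ (Or.inl h10) 1
    · exact R.z hP ⟨0, of_decide_eq_true h (1, 0)⟩ (Or.inr h10) 1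
  · intro h
    refine ⟨fun b hb => nat_eq_one fun v => ?_, fun t ht => mem_T3 t ?_⟩
    · obtain ⟨k, hk⟩ := comm_mem hP (y := (b, 1)) hb v v
      simp only [toAdd_one, sc_zero, one_smul] at hk
      exact sub_eq_zero.1 (h.elim (hi _ hk) (hj _ hk))
    · obtain ⟨k, hk⟩ := comm_mem hP (y := (1, Multiplicative.ofAdd t)) ht (1, 0) (1, 0)
      simp only [toAdd_ofAdd, map_one, nat_one] at hk
      exact h.imp (fun h => smul_eq (hi _ hk h)) fun h => smul_eq (hj _ hk h)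
  · have h1 := (R.of_mem hP hx).mem hP
    have h2 : (x.b, Multiplicative.ofAdd x.t) ∈ P.comap (inn D) := by
      have := P.mul_mem (P.inv_mem h1) hx
      nth_rewrite 3 [decomp D x] at this
      rwa [inv_mul_cancel_left] at this
    rw [hpr] at h2
    exact ⟨h2.1, h2.2, hi x hx, hj x hx⟩
  · rintro ⟨h1, h2, h3, h4⟩
    have a1 : (x.b, Multiplicative.ofAdd x.t) ∈ P.comap (inn D) := by
      rw [hpr]; exact ⟨h1, h2⟩
    have a2 : E D 0 x.v 0 ∈ P := by
      by_cases h : ∀ v, E D 0 v 0 ∈ P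
      · exact h _
      · rw [h3 (decide_eq_false h), E_zero]; exact P.one_mem
    have a3 : E D 0 0 x.w ∈ P := by
      by_cases h : ∀ w, E D 0 0 w ∈ P
      · exact h _
      · rw [h4 (decide_eq_false h), E_zero]; exact P.one_mem
    have a4 := P.mul_mem a3 a2
    rw [E_mul, dt_zero_left, zero_add, zero_add, zero_add, add_zero] at a4
    rw [decomp D x]
    exact P.mul_mem a4 a1

end Pool.Agent.Lib.MP_c05f82_nt.LG
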