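import Pool.Agent.Lib.MP_c05f82_nt.LG.Glue1
import Pool.Agent.Lib.MP_c05f82_nt.LG.Sl7

/-!
Admissible triples give normal subgroups of the glued group.
-/

open scoped commutatorElement

namespace Pool.Agent.Lib.MP_c05f82_nt.LG

open Pool.Agent.Lib.MP_c05f82_nt.GC

variable {B : Type} [Group B] {A g : ℕ}

/-- the underlying set of the glued group -/
def Glue3_equiv (D : BD B A g) : GQ D ≃ B × ZMod 27 × (F7 × F7) × (F7 × F7) where
  toFun x := (x.b, x.t, x.v, x.w)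
  invFun y := ⟨y.1, y.2.1, y.2.2.1, y.2.2.2⟩
  left_inv _ := rfl
  right_inv _ := rfl

theorem GQ.finite (D : BD B A g) : Finite (GQ D) := by
  have := D.fin
  exact Finite.of_equiv _ (Glue3_equiv D).symm

lemma Glue3_cardB (D : BD B A g) : Nat.card B = 7 * 336 * A := by
  have h1 := Subgroup.card_mul_index D.rho.ker
  rw [Subgroup.index_ker, MonoidHom.range_eq_top.2 D.rho_surj, Subgroup.card_top, card_SL7,
    D.card_ker] at h1
  rw [← h1]; ring

theorem GQ.card (D : BD B A g) : Nat.card (GQ D) = 27 * 2401 * (7 * 336 * A) := by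
  rw [Nat.card_congr (Glue3_equiv D)]
  simp only [Nat.card_prod, Glue3_cardB D, Nat.card_zmod]
  ring

lemma Glue3_zc_nat (D : BD B A g) (n : ℕ) : D.zc (n : F7) = D.zc 1 ^ n := by
  induction n with
  | zero => simp [D.zc_zero]
  | succ n ih => rw [Nat.cast_succ, D.zc_add, ih, pow_succ]

lemma Glue3_zc_mem (D : BD B A g) {M : Subgroup B} (h : D.zc 1 ∈ M) (k : F7) : D.zc k ∈ M := by
  rw [← ZMod.natCast_zmod_val k, Glue3_zc_nat]
  exact pow_mem h _

lemma Glue3_sc_T3 {a : F7} (ha : a ^ 3 = 1) {t : ZMod 27} (ht : t ∈ GQ.T3) : sc a t = 1 := by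
  have h1 : (ZMod.castHom (show 3 ∣ 27 by norm_num) (ZMod 3)) t = 0 := ht
  rw [ZMod.castHom_apply, ← ZMod.natCast_val, ZMod.natCast_eq_zero_iff] at h1
  obtain ⟨c, hc⟩ := h1
  rw [sc, hc, pow_mul, ha, one_pow]

lemma Glue3_cancel {a : F7} (ha : a ^ 3 = 1) (t : ZMod 27) (s : SL F7) (u : F7 × F7) :
    sc a t • nat s (-(sc a (-t) • nat s⁻¹ u)) = -u := by
  rw [nat_neg, nat_smul, ← nat_mul, mul_inv_cancel, nat_one, smul_neg, smul_smul, ← sc_add ha,
    add_neg_cancel, sc_zero, one_smul]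

lemma Glue3_conj_v {D : BD B A g} (x y : GQ D) (h1 : D.rho x.b = 1) (h2 : x.t ∈ GQ.T3)
    (h3 : x.v = 0) : (y * x * y⁻¹).v = 0 := by
  rw [GQ.mul_v, GQ.rho_mul_b, h1, mul_one, GQ.mul_t, sc2_add, Glue3_sc_T3 (by decide) h2, mul_one,
    GQ.inv_v, map_inv, Glue3_cancel (by decide), GQ.mul_v, h3, nat_zero, smul_zero, add_zero,
    add_neg_cancel]

lemma Glue3_conj_w {D : BD B A g} (x y : GQ D) (h1 : D.rho x.b = 1) (h2 : x.t ∈ GQ.T3)
    (h3 : x.w = 0) : (y * x * y⁻¹).w = 0 := by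
  rw [GQ.mul_w, GQ.rho_mul_b, h1, mul_one, GQ.mul_t, sc4_add, Glue3_sc_T3 (by decide) h2, mul_one,
    GQ.inv_w, map_inv, Glue3_cancel (by decide), GQ.mul_w, h3, nat_zero, smul_zero, add_zero,
    add_neg_cancel]

lemma Glue3_conj_b {D : BD B A g} (x y : GQ D) (h1 : D.rho x.b = 1) (h2 : x.t ∈ GQ.T3)
    (h3 : x.v = 0) (h4 : x.w = 0) : (y * x * y⁻¹).b = y.b * x.b * y.b⁻¹ := by
  rw [GQ.mul_b, GQ.rho_mul_b, h1, mul_one, GQ.mul_t, sc4_add, Glue3_sc_T3 (by decide) h2, mul_one,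
    GQ.inv_w, map_inv, Glue3_cancel (by decide), GQ.mul_v, h3, nat_zero, smul_zero, add_zero,
    GQ.mul_b, h4, nat_zero, smul_zero, dt_zero_right, D.zc_zero, mul_one, GQ.inv_b, mul_assoc,
    mul_assoc y.b⁻¹, ← D.zc_add]
  have : dt y.v y.w + dt y.v (-y.w) = 0 := by simp only [dt, Prod.fst_neg, Prod.snd_neg]; ring
  rw [this, D.zc_zero, mul_one]

/-- the subgroup attached to an admissible triple -/
def Glue3_sub (D : BD B A g) {M : Subgroup B} {U : AddSubgroup (ZMod 27)} {i j : Bool}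
    (h : GQ.OK D M U i j) : Subgroup (GQ D) where
  carrier := {x | GQ.Mem D M U i j x}
  one_mem' := ⟨one_mem _, zero_mem _, fun _ => rfl, fun _ => rfl⟩
  mul_mem' := by
    rintro x y ⟨x1, x2, x3, x4⟩ ⟨y1, y2, y3, y4⟩
    refine ⟨?_, add_mem x2 y2, fun hi => ?_, fun hj => ?_⟩
    · rw [GQ.mul_b]
      refine mul_mem (mul_mem x1 y1) ?_
      cases i
      · rw [x3 rfl, dt_zero_left, D.zc_zero]; exact one_mem _
      · exact Glue3_zc_mem D (h.2.1 (Or.inl rfl)) _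
    · rw [GQ.mul_v, x3 hi, y3 hi, nat_zero, smul_zero, add_zero]
    · rw [GQ.mul_w, x4 hj, y4 hj, nat_zero, smul_zero, add_zero]
  inv_mem' := by
    rintro x ⟨x1, x2, x3, x4⟩
    refine ⟨?_, neg_mem x2, fun hi => ?_, fun hj => ?_⟩
    · rw [GQ.inv_b]
      refine mul_mem (inv_mem x1) ?_
      cases i
      · rw [x3 rfl, dt_zero_left, D.zc_zero]; exact one_mem _
      · exact Glue3_zc_mem D (h.2.1 (Or.inl rfl)) _
    · rw [GQ.inv_v, x3 hi, nat_zero, smul_zero, neg_zero]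
    · rw [GQ.inv_w, x4 hj, nat_zero, smul_zero, neg_zero]

lemma Glue3_normal (D : BD B A g) {M : Subgroup B} {U : AddSubgroup (ZMod 27)} {i j : Bool}
    (h : GQ.OK D M U i j) : (Glue3_sub D h).Normal := by
  refine ⟨?_⟩
  rintro x ⟨x1, x2, x3, x4⟩ y
  refine ⟨?_, ?_, fun hi => ?_, fun hj => ?_⟩
  · by_cases hz : i = true ∨ j = true
    · have hz' := Glue3_zc_mem D (h.2.1 hz)
      rw [GQ.mul_b, GQ.mul_b, GQ.inv_b]
      refine mul_mem ?_ (hz' _)
      rw [← mul_assoc]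
      refine mul_mem ?_ (hz' _)
      rw [mul_assoc, (D.zc_comm _ y.b⁻¹).eq, ← mul_assoc]
      exact mul_mem (h.1.conj_mem _ x1 _) (hz' _)
    · have hi : i = false := by cases i <;> simp_all
      have hj : j = false := by cases j <;> simp_all
      obtain ⟨k1, k2⟩ := h.2.2 (Or.inl hi)
      rw [Glue3_conj_b x y (k1 x1) (k2 x2) (x3 hi) (x4 hj)]
      exact h.1.conj_mem _ x1 _
  · simpa using x2
  · obtain ⟨k1, k2⟩ := h.2.2 (Or.inl hi)
    exact Glue3_conj_v x y (k1 x1) (k2 x2) (x3 hi)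
  · obtain ⟨k1, k2⟩ := h.2.2 (Or.inr hj)
    exact Glue3_conj_w x y (k1 x1) (k2 x2) (x4 hj)

lemma Glue3_cardV (i : Bool) :
    Nat.card {v : F7 × F7 // i = false → v = 0} = if i then 49 else 1 := by
  cases i
  · simp
  · rw [Nat.card_congr (Equiv.subtypeUnivEquiv (by simp))]
    simp

/-- the underlying set of the subgroup attached to a triple -/
def Glue3_subEquiv (D : BD B A g) {M : Subgroup B} {U : AddSubgroup (ZMod 27)} {i j : Bool}
    (h : GQ.OK D M U i j) : Glue3_sub D h ≃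
      M × U × {v : F7 × F7 // i = false → v = 0} × {v : F7 × F7 // j = false → v = 0} where
  toFun x := (⟨x.1.b, x.2.1⟩, ⟨x.1.t, x.2.2.1⟩, ⟨x.1.v, x.2.2.2.1⟩, ⟨x.1.w, x.2.2.2.2⟩)
  invFun y := ⟨⟨y.1, y.2.1, y.2.2.1, y.2.2.2⟩, y.1.2, y.2.1.2, y.2.2.1.2, y.2.2.2.2⟩
  left_inv _ := rfl
  right_inv _ := rfl

theorem GQ.exists_sub (D : BD B A g) {M : Subgroup B} {U : AddSubgroup (ZMod 27)} {i j : Bool}
    (h : GQ.OK D M U i j) : ∃ P : Subgroup (GQ D), P.Normal ∧ (∀ x, x ∈ P ↔ GQ.Mem D M U i j x) ∧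
      Nat.card P = Nat.card M * Nat.card U * (if i then 49 else 1) * (if j then 49 else 1) := by
  refine ⟨Glue3_sub D h, Glue3_normal D h, fun _ => Iff.rfl, ?_⟩
  rw [Nat.card_congr (Glue3_subEquiv D h), Nat.card_prod, Nat.card_prod, Nat.card_prod,
    Glue3_cardV, Glue3_cardV]
  ring

theorem GQ.triple_inj (D : BD B A g) {M M' : Subgroup B} {U U' : AddSubgroup (ZMod 27)}
    {i j i' j' : Bool} (h : ∀ x, GQ.Mem D M U i j x ↔ GQ.Mem D M' U' i' j' x) :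
    M = M' ∧ U = U' ∧ i = i' ∧ j = j' := by
  have e : ((1, 0) : F7 × F7) ≠ 0 := by decide
  refine ⟨?_, ?_, ?_, ?_⟩
  · ext b
    simpa [GQ.Mem] using h ⟨b, 0, 0, 0⟩
  · ext t
    simpa [GQ.Mem] using h ⟨1, t, 0, 0⟩
  · have := h ⟨1, 0, (1, 0), 0⟩
    simp only [GQ.Mem, one_mem, zero_mem, e, implies_true, and_true, true_and] at this
    cases i <;> cases i' <;> simp_all
  · have := h ⟨1, 0, 0, (1, 0)⟩
    simp only [GQ.Mem, one_mem, zero_mem, e, implies_true, true_and] at this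
    cases j <;> cases j' <;> simp_all

theorem GQ.ch_q0 (D : BD B A g) : GQ.ch D (GQ.q0 D) = Multiplicative.ofAdd 1 := by
  change Multiplicative.ofAdd (ZMod.castHom (show 3 ∣ 27 by norm_num) (ZMod 3) 1) = _
  rw [map_one]

lemma Glue3_pow {D : BD B A g} (x : GQ D) {k : F7} (h1 : x.b = D.zc k) (h2 : x.t = 0) (n : ℕ) :
    x ^ n = ⟨D.zc (n * k + (n.choose 2 : ℕ) * dt x.v x.w), 0, (n : F7) • x.v, (n : F7) • x.w⟩ := by
  induction n with
  | zero => exact GQ.ext (by simp [D.zc_zero]) (by simp) (by simp) (by simp)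
  | succ n ih =>
    rw [pow_succ, ih]
    refine GQ.ext ?_ ?_ ?_ ?_
    · rw [GQ.mul_b]
      simp only [D.rho_zc, sc_zero, nat_one, one_smul, h1, ← D.zc_add, dt_smul_left]
      congr 1
      rw [Nat.choose_succ_succ' n 1, Nat.choose_one_right]
      push_cast; ring
    · rw [GQ.mul_t, h2]; simp
    · rw [GQ.mul_v]
      simp only [D.rho_zc, sc_zero, nat_one, one_smul, Nat.cast_succ, add_smul]
    · rw [GQ.mul_w]
      simp only [D.rho_zc, sc_zero, nat_one, one_smul, Nat.cast_succ, add_smul]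

theorem GQ.comm_q0 (D : BD B A g) (q : GQ D) : (⁅GQ.q0 D, q⁆ : GQ D) ^ 7 = 1 := by
  have key : ∀ a b c d e : F7, 1 * q.b * D.zc a * (1⁻¹ * D.zc b) * D.zc c * (q.b⁻¹ * D.zc d) *
      D.zc e = D.zc (a + b + c + d + e) := by
    intro a b c d e
    rw [one_mul, inv_one, one_mul, mul_assoc q.b, ← D.zc_add, mul_assoc q.b, ← D.zc_add,
      ← (D.zc_comm _ q.b).eq, mul_assoc (D.zc _), mul_inv_cancel_left, ← D.zc_add, ← D.zc_add]
  have h1 : ∃ k, (⁅GQ.q0 D, q⁆ : GQ D).b = D.zc k := by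
    rw [commutatorElement_def, GQ.mul_b, GQ.mul_b, GQ.mul_b, GQ.inv_b, GQ.inv_b]
    exact ⟨_, key _ _ _ _ _⟩
  obtain ⟨k, hk⟩ := h1
  have h2 : (⁅GQ.q0 D, q⁆ : GQ D).t = 0 := by
    rw [commutatorElement_def]; simp only [GQ.mul_t, GQ.inv_t]; ring
  rw [Glue3_pow _ hk h2 7]
  have h7 : ((7 : ℕ) : F7) = 0 := by decide
  have h21 : ((Nat.choose 7 2 : ℕ) : F7) = 0 := by decide
  rw [h7, h21]
  exact GQ.ext (by simp [D.zc_zero]) rfl (by simp) (by simp)

end Pool.Agent.Lib.MP_c05f82_nt.LG
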