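import Pool.Agent.Lib.MP_c05f82_nt.LG.Glue2
import Pool.Agent.Lib.MP_c05f82_nt.LG.Glue3

/-!
The sums over the normal subgroups of the glued group.
-/

open scoped commutatorElement

namespace Pool.Agent.Lib.MP_c05f82_nt.LG

open Pool.Agent.Lib.MP_c05f82_nt.GC

variable {B : Type} [Group B] {A g : ℕ}

lemma Glue4_sub (U : AddSubgroup (ZMod 27)) :
    ∃ d ∈ ({1, 3, 9, 27} : Finset ℕ), U = wcKer 27 d := by
  obtain ⟨h1, h2⟩ := wc_eq_ker (n := 27) (by norm_num) U
  refine ⟨Nat.card U, ?_, h2.symm⟩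
  have : Nat.card U ∈ Nat.divisors 27 := Nat.mem_divisors.2 ⟨h1, by norm_num⟩
  rwa [show Nat.divisors 27 = {1, 3, 9, 27} by decide] at this

lemma Glue4_le (d : ℕ) : wcKer 27 d ≤ GQ.T3 ↔
    ∀ t : ZMod 27, d • t = 0 → ZMod.castHom (show 3 ∣ 27 by norm_num) (ZMod 3) t = 0 := Iff.rfl

lemma Glue4_inj {s : Finset ℕ} (hs : ∀ d ∈ s, d ∣ 27) : Set.InjOn (wcKer 27) s := by
  intro d hd d' hd' h
  rw [← wcKer_card (n := 27) (by norm_num) (hs d hd), h,
    wcKer_card (n := 27) (by norm_num) (hs d' hd')]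

lemma Glue4_in : awt (fun U : AddSubgroup (ZMod 27) => U ≤ GQ.T3) = 13 := by
  classical
  have hs : ∀ d ∈ ({1, 3, 9} : Finset ℕ), d ∣ 27 := by decide
  rw [awt_eq_sum (({1, 3, 9} : Finset ℕ).image (wcKer 27)), Finset.sum_image (Glue4_inj hs),
    Finset.sum_congr rfl fun d hd => wcKer_card (n := 27) (by norm_num) (hs d hd)]
  · decide
  · intro U
    rw [Finset.mem_image]
    constructor
    · rintro ⟨d, hd, rfl⟩
      rw [Glue4_le]
      revert d
      decide
    · intro h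
      obtain ⟨d, hd, rfl⟩ := Glue4_sub U
      refine ⟨d, ?_, rfl⟩
      rw [Glue4_le] at h
      revert d
      decide

lemma Glue4_out : awt (fun U : AddSubgroup (ZMod 27) => ¬ U ≤ GQ.T3) = 27 := by
  classical
  have hs : ∀ d ∈ ({27} : Finset ℕ), d ∣ 27 := by decide
  rw [awt_eq_sum (({27} : Finset ℕ).image (wcKer 27)), Finset.sum_image (Glue4_inj hs),
    Finset.sum_congr rfl fun d hd => wcKer_card (n := 27) (by norm_num) (hs d hd)]
  · decide
  · intro U
    rw [Finset.mem_image]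
    constructor
    · rintro ⟨d, hd, rfl⟩
      rw [Glue4_le]
      revert d
      decide
    · intro h
      obtain ⟨d, hd, rfl⟩ := Glue4_sub U
      refine ⟨d, ?_, rfl⟩
      rw [Glue4_le] at h
      revert d
      decide

lemma Glue4_ker (D : BD B A g) {P : Subgroup (GQ D)} {M : Subgroup B} {U : AddSubgroup (ZMod 27)}
    {i j : Bool} (h : ∀ x, x ∈ P ↔ GQ.Mem D M U i j x) : P ≤ (GQ.ch D).ker ↔ U ≤ GQ.T3 := by
  constructor
  · intro hP t ht
    exact hP ((h ⟨1, t, 0, 0⟩).2 ⟨M.one_mem, ht, fun _ => rfl, fun _ => rfl⟩)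
  · intro hU x hx
    exact hU ((h x).1 hx).2.1

lemma Glue4_prod [Fintype (Subgroup B)] [Fintype (AddSubgroup (ZMod 27))]
    (e : Subgroup B → AddSubgroup (ZMod 27) → Prop) {_ : ∀ M U, Decidable (e M U)}
    (a : Subgroup B → Prop)
    (b : AddSubgroup (ZMod 27) → Prop) (h : ∀ M U, e M U ↔ a M ∧ b U) (c c' : ℕ) :
    ∑ M : Subgroup B, ∑ U : AddSubgroup (ZMod 27),
      (if e M U then Nat.card M * Nat.card U * c * c' else 0) = wt a * awt b * c * c' := by
  classical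
  rw [wt_eq_sum (Finset.univ.filter a) (by simp), awt_eq_sum (Finset.univ.filter b) (by simp),
    Finset.sum_filter, Finset.sum_filter, Finset.sum_mul_sum, Finset.sum_mul, Finset.sum_mul]
  refine Finset.sum_congr rfl fun M _ => ?_
  rw [Finset.sum_mul, Finset.sum_mul]
  refine Finset.sum_congr rfl fun U _ => ?_
  by_cases h1 : a M <;> by_cases h2 : b U <;> simp [h, h1, h2]

open Classical in
lemma Glue4_sum (D : BD B A g) (hA : A.Coprime 3) [Fintype (Subgroup B)]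
    [Fintype (AddSubgroup (ZMod 27))] (r : Prop → Prop) :
    wt (fun P : Subgroup (GQ D) => P.Normal ∧ r (P ≤ (GQ.ch D).ker)) =
      ∑ i : Bool, ∑ j : Bool, ∑ M : Subgroup B, ∑ U : AddSubgroup (ZMod 27),
        if GQ.OK D M U i j ∧ r (U ≤ GQ.T3) then
          Nat.card M * Nat.card U * (if i then 49 else 1) * (if j then 49 else 1) else 0 := by
  have := GQ.finite D
  have := Fintype.ofFinite (Subgroup (GQ D))
  have e := Finset.sum_filter (s := Finset.univ)
    (fun τ : Bool × Bool × Subgroup B × AddSubgroup (ZMod 27) =>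
      GQ.OK D τ.2.2.1 τ.2.2.2 τ.1 τ.2.1 ∧ r (τ.2.2.2 ≤ GQ.T3))
    (fun τ => Nat.card τ.2.2.1 * Nat.card τ.2.2.2 * (if τ.1 then 49 else 1)
      * (if τ.2.1 then 49 else 1))
  simp only [Fintype.sum_prod_type] at e
  rw [← e, wt_eq_sum (Finset.univ.filter fun P : Subgroup (GQ D) =>
    P.Normal ∧ r (P ≤ (GQ.ch D).ker)) (by simp)]
  symm
  refine Finset.sum_bij
    (fun τ hτ => (GQ.exists_sub D (Finset.mem_filter.1 hτ).2.1).choose) ?_ ?_ ?_ ?_
  · intro τ hτ
    obtain ⟨h1, h2, -⟩ := (GQ.exists_sub D (Finset.mem_filter.1 hτ).2.1).choose_spec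
    refine Finset.mem_filter.2 ⟨Finset.mem_univ _, h1, ?_⟩
    rw [propext (Glue4_ker D h2)]
    exact (Finset.mem_filter.1 hτ).2.2
  · intro τ hτ τ' hτ' h
    obtain ⟨-, h2, -⟩ := (GQ.exists_sub D (Finset.mem_filter.1 hτ).2.1).choose_spec
    obtain ⟨-, h3, -⟩ := (GQ.exists_sub D (Finset.mem_filter.1 hτ').2.1).choose_spec
    obtain ⟨e1, e2, e3, e4⟩ := GQ.triple_inj D fun x =>
      ((h2 x).symm.trans (by rw [h])).trans (h3 x)
    exact Prod.ext e3 (Prod.ext e4 (Prod.ext e1 e2))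
  · intro P hP
    obtain ⟨h1, h2⟩ := (Finset.mem_filter.1 hP).2
    obtain ⟨M, U, i, j, h3, h4⟩ := GQ.exists_triple D hA P h1
    rw [propext (Glue4_ker D h4)] at h2
    refine ⟨(i, j, M, U), Finset.mem_filter.2 ⟨Finset.mem_univ _, h3, h2⟩, ?_⟩
    ext x
    rw [h4]
    exact (GQ.exists_sub D h3).choose_spec.2.1 x
  · intro τ hτ
    exact (GQ.exists_sub D (Finset.mem_filter.1 hτ).2.1).choose_spec.2.2.symm

lemma Glue4_none : awt (fun _ : AddSubgroup (ZMod 27) => False) = 0 := by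
  rw [awt_eq_sum ∅ (by simp), Finset.sum_empty]

theorem GQ.wt_in (D : BD B A g) (hA : A.Coprime 3) :
    wt (fun P : Subgroup (GQ D) => P.Normal ∧ P ≤ (GQ.ch D).ker) =
      13 * ((344 + 7 * g) + 98 * (7 * g) + 2401 * (21 * g + 7 * 336 * A)) := by
  have := D.fin
  have := Fintype.ofFinite (Subgroup B)
  have := Fintype.ofFinite (AddSubgroup (ZMod 27))
  refine (Glue4_sum D hA id).trans ?_
  rw [Fintype.sum_bool, Fintype.sum_bool, Fintype.sum_bool,
    Glue4_prod (fun M U => GQ.OK D M U true true ∧ id (U ≤ GQ.T3))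
      (fun M => M.Normal ∧ D.zc 1 ∈ M) (fun U => U ≤ GQ.T3) (by simp [GQ.OK]),
    Glue4_prod (fun M U => GQ.OK D M U true false ∧ id (U ≤ GQ.T3))
      (fun M => M.Normal ∧ M ≤ D.rho.ker ∧ D.zc 1 ∈ M) (fun U => U ≤ GQ.T3)
      (by simp [GQ.OK]; tauto),
    Glue4_prod (fun M U => GQ.OK D M U false true ∧ id (U ≤ GQ.T3))
      (fun M => M.Normal ∧ M ≤ D.rho.ker ∧ D.zc 1 ∈ M) (fun U => U ≤ GQ.T3)
      (by simp [GQ.OK]; tauto),
    Glue4_prod (fun M U => GQ.OK D M U false false ∧ id (U ≤ GQ.T3))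
      (fun M => M.Normal ∧ M ≤ D.rho.ker) (fun U => U ≤ GQ.T3)
      (by simp [GQ.OK]; tauto),
    D.w1, D.w2, D.w3, Glue4_in]
  simp only [if_true, Bool.false_eq_true, if_false]
  ring

theorem GQ.wt_out (D : BD B A g) (hA : A.Coprime 3) :
    wt (fun P : Subgroup (GQ D) => P.Normal ∧ ¬ P ≤ (GQ.ch D).ker) =
      27 * 2401 * (21 * g + 7 * 336 * A) := by
  have := D.fin
  have := Fintype.ofFinite (Subgroup B)
  have := Fintype.ofFinite (AddSubgroup (ZMod 27))
  refine (Glue4_sum D hA Not).trans ?_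
  rw [Fintype.sum_bool, Fintype.sum_bool, Fintype.sum_bool,
    Glue4_prod (fun M U => GQ.OK D M U true true ∧ ¬ (U ≤ GQ.T3))
      (fun M => M.Normal ∧ D.zc 1 ∈ M) (fun U => ¬ U ≤ GQ.T3) (by simp [GQ.OK]),
    Glue4_prod (fun M U => GQ.OK D M U true false ∧ ¬ (U ≤ GQ.T3))
      (fun M => M.Normal) (fun _ => False) (by simp +contextual [GQ.OK]),
    Glue4_prod (fun M U => GQ.OK D M U false true ∧ ¬ (U ≤ GQ.T3))
      (fun M => M.Normal) (fun _ => False) (by simp +contextual [GQ.OK]),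
    Glue4_prod (fun M U => GQ.OK D M U false false ∧ ¬ (U ≤ GQ.T3))
      (fun M => M.Normal) (fun _ => False) (by simp +contextual [GQ.OK]),
    D.w3, Glue4_out, Glue4_none]
  simp only [if_true, Bool.false_eq_true, if_false]
  ring

end Pool.Agent.Lib.MP_c05f82_nt.LG
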