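import Pool.Agent.Lib.MP_c05f82_nt.LG.Glue2
import Pool.Agent.Lib.MP_c05f82_nt.LG.Glue3

/-!
Centres of the quotients of the glued group.
-/

open scoped commutatorElement

namespace Pool.Agent.Lib.MP_c05f82_nt.LG

open Pool.Agent.Lib.MP_c05f82_nt.GC

variable {B : Type} [Group B] {A g : ℕ}

lemma Glue5_pow {D : BD B A g} (x : GQ D) (n : ℕ) :
    (x ^ n).t = n * x.t ∧ (x.v = 0 → (x ^ n).v = 0) ∧ (x.w = 0 → (x ^ n).w = 0) := by
  induction n with
  | zero => simp
  | succ n ih =>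
    refine ⟨by rw [pow_succ, GQ.mul_t, ih.1]; push_cast; ring, fun h => ?_, fun h => ?_⟩
    · rw [pow_succ, GQ.mul_v, ih.2.1 h, h, nat_zero, smul_zero, add_zero]
    · rw [pow_succ, GQ.mul_w, ih.2.2 h, h, nat_zero, smul_zero, add_zero]

lemma Glue5_half {v : F7 × F7} (h : v = -v) : v = 0 := by
  have : (4 : F7) • (v + v) = v := by
    rw [← two_smul F7 v, smul_smul, show (4 * 2 : F7) = 1 by decide, one_smul]
  rw [← this, eq_neg_iff_add_eq_zero.1 h, smul_zero]

lemma Glue5_io {D : BD B A g} (x : GQ D) :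
    ((⁅x, (⟨D.io, 0, 0, 0⟩ : GQ D)⁆ : GQ D).v = 0 → x.v = 0) ∧
      ((⁅x, (⟨D.io, 0, 0, 0⟩ : GQ D)⁆ : GQ D).w = 0 → x.w = 0) := by
  set y : GQ D := ⟨D.io, 0, 0, 0⟩ with hy
  have e : (⁅x, y⁆ : GQ D) * (y * x) = x * y := by rw [commutatorElement_def]; group
  have ht : (⁅x, y⁆ : GQ D).t = 0 := by simp [commutatorElement_def, hy]
  have hr : D.rho (⁅x, y⁆ : GQ D).b = 1 := by
    have := congrArg (fun z : GQ D => D.rho z.b) e
    simp only [GQ.rho_mul_b, hy, D.rho_io] at this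
    rwa [neg1_comm, mul_eq_right] at this
  refine ⟨fun h => Glue5_half ?_, fun h => Glue5_half ?_⟩
  · have := congrArg GQ.v e
    rw [GQ.mul_v, h, ht, hr] at this
    simpa [GQ.mul_v, hy, sc_zero, nat_one, nat_zero, D.rho_io, nat_neg1] using this.symm
  · have := congrArg GQ.w e
    rw [GQ.mul_w, h, ht, hr] at this
    simpa [GQ.mul_w, hy, sc_zero, nat_one, nat_zero, D.rho_io, nat_neg1] using this.symm

lemma Glue5_zc (D : BD B A g) {M : Subgroup B} (h : D.zc 1 ∈ M) (k : F7) : D.zc k ∈ M := by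
  obtain ⟨n, rfl⟩ := ZMod.natCast_zmod_surjective k
  induction n with
  | zero => rw [Nat.cast_zero, D.zc_zero]; exact one_mem _
  | succ n ih => rw [Nat.cast_succ, D.zc_add]; exact mul_mem ih h

theorem GQ.cenExp (D : BD B A g) (hA : A.Coprime 3) : CenExp (GQ D) (27 * 2401 * (14 * A)) := by
  intro P hP x hx
  obtain ⟨M, U, i, j, ⟨hM, hz, -⟩, hm⟩ := GQ.exists_triple D hA P hP
  have hv : i = false → x.v = 0 := fun h => (Glue5_io x).1 (((hm _).1 (hx _)).2.2.1 h)
  have hw : j = false → x.w = 0 := fun h => (Glue5_io x).2 (((hm _).1 (hx _)).2.2.2 h)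
  let H : Subgroup (GQ D) :=
    { carrier := {y | i = false → y.v = 0}
      mul_mem' := fun {a b} ha hb h => by
        rw [GQ.mul_v, ha h, hb h, nat_zero, smul_zero, add_zero]
      one_mem' := fun _ => rfl
      inv_mem' := fun {a} ha h => by rw [GQ.inv_v, ha h, nat_zero, smul_zero, neg_zero] }
  let φ : H →* B ⧸ M := MonoidHom.mk' (fun y => (y.1.b : B ⧸ M)) fun y z => by
    rw [Subgroup.coe_mul, GQ.mul_b, QuotientGroup.mk_mul_of_mem, QuotientGroup.mk_mul]
    cases i with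
    | true => exact Glue5_zc D (hz (Or.inl rfl)) _
    | false => rw [y.2 rfl, dt_zero_left, D.zc_zero]; exact one_mem _
  have hb : x.b ^ (14 * A) ∈ M := D.cenExp M hM _ fun c => by
    have := map_commutatorElement φ ⟨x, hv⟩ ⟨⟨c, 0, 0, 0⟩, fun _ => rfl⟩
    rw [← QuotientGroup.eq_one_iff]
    exact ((map_commutatorElement (QuotientGroup.mk' M) x.b c).trans this.symm).trans
      ((QuotientGroup.eq_one_iff _).2 ((hm _).1 (hx ⟨c, 0, 0, 0⟩)).1)
  refine (hm _).2 ⟨?_, ?_, fun h => (Glue5_pow x _).2.1 (hv h), fun h => (Glue5_pow x _).2.2 (hw h)⟩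
  · have := map_pow φ ⟨x, hv⟩ (27 * 2401 * (14 * A))
    rw [← QuotientGroup.eq_one_iff]
    refine this.trans ?_
    rw [mul_comm, pow_mul]
    exact (congrArg (· ^ (27 * 2401)) ((QuotientGroup.eq_one_iff _).2 hb)).trans (one_pow _)
  · rw [(Glue5_pow x _).1, mul_assoc, Nat.cast_mul, ZMod.natCast_self, zero_mul, zero_mul]
    exact zero_mem _

end Pool.Agent.Lib.MP_c05f82_nt.LG
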