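import Pool.Agent.Lib.MP_c05f82_nt.LG.Defs
import Pool.Agent.Lib.MP_c05f82_nt.GC.Kub

/-!
The cocycle identity for the Kubota cocycle of a Steinberg symbol.
-/

set_option linter.unusedSimpArgs false

open scoped commutatorElement

namespace Pool.Agent.Lib.MP_c05f82_nt.LG

open Pool.Agent.Lib.MP_c05f82_nt.GC

variable {K : Type} [Field K]


namespace Dt

variable (D : Dt K)

/-- the cyclic sum of symbols -/
def KubT (x y z : K) : ZMod 7 := D.c x y + D.c y z + D.c z x

lemma Kub_div {x y z : K} (hx : x ≠ 0) (hy : y ≠ 0) (hz : z ≠ 0) :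
    D.c (z / x) (z / y) = D.KubT x y z := by
  rw [D.c_div_left _ hz hx, D.c_div_right _ hz hy, D.c_div_right _ hz hy, D.c_self hz,
    D.c_swap hy hz, D.c_swap hz hx, KubT]
  ring

lemma Kub_sig (g h : SL K) : D.sig g h = D.KubT g.x h.x (g * h).x :=
  D.Kub_div g.x_ne h.x_ne (g * h).x_ne

lemma Kub_add {x y z : K} (hx : x ≠ 0) (hy : y ≠ 0) (hz : z ≠ 0) (e : x + y = z) :
    D.KubT x y z = 0 := by
  have h := D.c_add_one (div_ne_zero hx hz) (div_ne_zero hy hz) (by rw [← add_div, e, div_self hz])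
  rw [D.c_div_left _ hx hz, D.c_div_right _ hy hz, D.c_div_right _ hy hz, D.c_self hz,
    D.c_swap hy hz, D.c_swap hz hx] at h
  rw [KubT]
  linear_combination h

theorem sig_cocycle (g h k : SL K) :
    D.sig g h + D.sig (g * h) k = D.sig g (h * k) + D.sig h k := by
  simp only [Kub_sig, ← mul_assoc]
  have hA := g.x_ne
  have hB := h.x_ne
  have hC := k.x_ne
  have hP := (g * h).x_ne
  have hQ := (h * k).x_ne
  have hR := (g * h * k).x_ne
  have sAB := D.c_swap hA hB
  have sAC := D.c_swap hA hC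
  have sBC := D.c_swap hB hC
  have sAP := D.c_swap hA hP
  have sBP := D.c_swap hB hP
  have sCP := D.c_swap hC hP
  have sAQ := D.c_swap hA hQ
  have sBQ := D.c_swap hB hQ
  have sCQ := D.c_swap hC hQ
  have sAR := D.c_swap hA hR
  have sBR := D.c_swap hB hR
  have sCR := D.c_swap hC hR
  have sPQ := D.c_swap hP hQ
  have sPR := D.c_swap hP hR
  have sQR := D.c_swap hQ hR
  by_cases hg : g.c = 0
  · have e1 := SL.Kub_x1 h hg
    have e2 := SL.Kub_x1 (h * k) hg
    rw [← mul_assoc] at e2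
    rw [e1, e2]
    simp only [KubT, D.c_mul_left, D.c_mul_right, D.c_self, ne_eq, mul_eq_zero, hA, hB, hQ,
      or_self, not_false_eq_true, sAB, sAC, sBC, sAQ, sBQ, sCQ]
    ring
  by_cases hh : h.c = 0
  · by_cases hk : k.c = 0
    · rw [SL.Kub_x2 (SL.Kub_c2 hg hh) hk, SL.Kub_x2 hg hh, SL.Kub_x1 k hh]
      simp only [KubT, D.c_mul_left, D.c_mul_right, D.c_div_left, D.c_div_right, D.c_self, ne_eq,
        mul_eq_zero, div_eq_zero_iff, hA, hB, hC, or_self, not_false_eq_true, sAB, sAC, sBC]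
      ring
    · rw [SL.Kub_x2 hg hh, SL.Kub_x1 k hh]
      simp only [KubT, D.c_mul_left, D.c_mul_right, D.c_div_left, D.c_div_right, D.c_self, ne_eq,
        hA, hB, hC, not_false_eq_true, sAB, sAC, sBC, sAR, sBR, sCR]
      ring
  by_cases hgh : (g * h).c = 0
  · rw [SL.Kub_x1 k hgh, SL.Kub_x3 hg hh hgh]
    simp only [KubT, D.c_mul_left, D.c_mul_right, D.c_div_left, D.c_div_right, D.c_neg_left,
      D.c_neg_right, D.c_self, ne_eq, neg_eq_zero,
      mul_eq_zero, div_eq_zero_iff, hA, hB, hC, or_self, not_false_eq_true, sAB, sAC, sBC,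
      sAQ, sBQ, sCQ]
    ring
  by_cases hk : k.c = 0
  · rw [SL.Kub_x2 hgh hk, SL.Kub_x2 hh hk]
    simp only [KubT, D.c_div_left, D.c_div_right, D.c_self, ne_eq,
      div_eq_zero_iff, hB, hC, hP, or_self, not_false_eq_true, sAB, sAC, sBC, sAP, sBP, sCP]
    ring
  by_cases hhk : (h * k).c = 0
  · have e2 := SL.Kub_x2 hg hhk
    rw [← mul_assoc] at e2
    rw [e2, SL.Kub_x3 hh hk hhk]
    simp only [KubT, D.c_div_left, D.c_div_right, D.c_neg_left,
      D.c_neg_right, D.c_self, ne_eq, neg_eq_zero,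
      div_eq_zero_iff, hA, hB, hC, or_self, not_false_eq_true, sAB, sAC, sBC, sAP, sBP, sCP]
    ring
  have pl := SL.Kub_pl g h k
  by_cases hghk : (g * h * k).c = 0
  · have e1 : (h * k).x = g.x * k.x / (g * h).x := by
      rw [eq_div_iff hP, SL.x_of_ne hhk, SL.x_of_ne hgh, SL.x_of_ne hg, SL.x_of_ne hk]
      rw [hghk] at pl
      linear_combination -pl
    rw [SL.Kub_x3 hgh hk hghk, e1]
    simp only [KubT, D.c_mul_left, D.c_mul_right, D.c_div_left, D.c_div_right, D.c_neg_left,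
      D.c_neg_right, D.c_self, ne_eq,
      mul_eq_zero, div_eq_zero_iff, hA, hC, hP, or_self, not_false_eq_true, sAB, sAC, sBC,
      sAP, sBP, sCP]
    ring
  rw [← SL.x_of_ne hghk, ← SL.x_of_ne hgh, ← SL.x_of_ne hhk, ← SL.x_of_ne hg, ← SL.x_of_ne hh,
    ← SL.x_of_ne hk] at pl
  have e := D.Kub_add (mul_ne_zero hA hC) (mul_ne_zero hR hB) (mul_ne_zero hP hQ) pl
  simp only [KubT, D.c_mul_left, D.c_mul_right, ne_eq, hA, hB, hC, hP, hQ, hR,
    not_false_eq_true, sAB, sAC, sBC, sAP, sBP, sCP, sAQ, sBQ, sCQ, sAR, sBR, sCR, sPQ, sPR,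
    sQR] at e ⊢
  linear_combination e

theorem sig_de (g h : SL K) : D.sig g.de h.de = D.sig g h := by
  have hA := g.x_ne
  have hB := h.x_ne
  have hP := (g * h).x_ne
  rw [Kub_sig, Kub_sig, ← SL.de_mul]
  rcases g.Kub_de with e1 | e1 <;> rcases h.Kub_de with e2 | e2 <;>
    rcases (g * h).Kub_de with e3 | e3 <;>
    simp only [e1, e2, e3, KubT, D.c_neg_left _ hA, D.c_neg_left _ hB, D.c_neg_left _ hP,
      D.c_neg_right _ hA, D.c_neg_right _ hB, D.c_neg_right _ hP]

/-- the cocycle in terms of the diagonal entries -/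
theorem sig_eq {g h : SL K} (ha : h.a ≠ 0) (hd : g.d ≠ 0) :
    D.sig g h = D.c h.a ((g * h).x / h.x) - D.c g.d ((g * h).x / g.x) - D.c h.a g.d := by
  have hA := g.x_ne
  have hB := h.x_ne
  have hP := (g * h).x_ne
  have s1 := D.c_swap ha hd
  have s2 := D.c_swap hA ha
  have s3 := D.c_swap hA hd
  have s4 := D.c_swap hB ha
  have s5 := D.c_swap hB hd
  have s6 := D.c_swap hP ha
  have s7 := D.c_swap hP hd
  rw [Kub_sig]
  by_cases hg : g.c = 0
  · rw [SL.Kub_x1 h hg, SL.x_of_eq hg]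
    simp only [KubT, D.c_mul_left, D.c_mul_right, D.c_div_right, D.c_self, ne_eq, mul_eq_zero,
      hB, hd, or_self, not_false_eq_true, s4, s5]
    ring
  by_cases hh : h.c = 0
  · have e : h.x = h.a⁻¹ := by
      rw [SL.x_of_eq hh]; exact eq_inv_of_mul_eq_one_right (SL.Kub_ad hh)
    rw [SL.Kub_x2 hg hh, e]
    simp only [KubT, D.c_div_left, D.c_div_right, D.c_inv_left, D.c_inv_right, D.c_self, ne_eq,
      div_eq_zero_iff, inv_eq_zero, hA, ha, or_self, not_false_eq_true, s1, s2, s3]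
    ring
  by_cases hgh : (g * h).c = 0
  · have e : h.x = -(g.x * h.a / g.d) := by
      rw [SL.x_of_ne hh, SL.x_of_ne hg, ← neg_div, eq_div_iff hd]
      rw [SL.mul_c] at hgh
      linear_combination hgh
    rw [SL.Kub_x3 hg hh hgh, e]
    simp only [KubT, D.c_mul_left, D.c_mul_right, D.c_div_left, D.c_div_right, D.c_neg_left,
      D.c_neg_right, D.c_self, ne_eq, neg_eq_zero, mul_eq_zero,
      div_eq_zero_iff, hA, ha, hd, or_self, not_false_eq_true, s1, s2, s3]
    ring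
  have pl : g.x * h.a + g.d * h.x = (g * h).x := by
    rw [SL.x_of_ne hg, SL.x_of_ne hh, SL.x_of_ne hgh, SL.mul_c]
  have e := D.Kub_add (mul_ne_zero hA ha) (mul_ne_zero hd hB) hP pl
  simp only [KubT, D.c_mul_left, D.c_mul_right, D.c_div_right, ne_eq, hA, hB, hP, ha, hd,
    not_false_eq_true, s2, s3, s4, s5, s6, s7] at e ⊢
  linear_combination e

end Dt

end Pool.Agent.Lib.MP_c05f82_nt.LG
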