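import Pool.Agent.Lib.MP_c05f82_nt.LG.Sl7

/-!
Normal subgroups of a reduced filtration.
-/

open scoped commutatorElement

namespace Pool.Agent.Lib.MP_c05f82_nt.LG

open Pool.Agent.Lib.MP_c05f82_nt.GC

namespace Tw

variable {B : Type} [Group B] {N : ℕ} {T : Tw B N}

theorem Red.Lat1_mem (R : T.Red) (x : B) : x ∈ T.G 0 := by
  rw [R.top]; exact Subgroup.mem_top x

theorem Red.G_normal (R : T.Red) {j : ℕ} (hj : j ≤ N + 1) : (T.G j).Normal :=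
  ⟨fun x hx g => T.conj j hj x hx g (R.Lat1_mem g)⟩

theorem Red.S_normal (R : T.Red) : T.S.Normal :=
  ⟨fun x hx g => T.S_conj x hx g (R.Lat1_mem g)⟩

theorem Lat1_zc_zero (T : Tw B N) : T.zc 0 = 1 := by
  have := T.zc_add 0 0
  rw [add_zero] at this
  exact mul_eq_left.1 this.symm

theorem Lat1_zc_pow (T : Tw B N) (k : F7) (n : ℕ) : T.zc k ^ n = T.zc (n * k) := by
  induction n with
  | zero => simp [T.Lat1_zc_zero]
  | succ n ih => rw [pow_succ, ih, ← T.zc_add]; congr 1; push_cast; ring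

theorem Lat1_zc_all (T : Tw B N) {M : Subgroup B} {k : F7} (hk : k ≠ 0) (h : T.zc k ∈ M)
    (l : F7) : T.zc l ∈ M := by
  have := M.pow_mem h (l * k⁻¹).val
  rwa [T.Lat1_zc_pow, ZMod.natCast_zmod_val, inv_mul_cancel_right₀ hk] at this

theorem Red.mem_last (R : T.Red) (x : B) : x ∈ T.G (N + 1) ↔ ∃ k, x = T.zc k := by
  refine ⟨fun hx => ?_, fun ⟨k, e⟩ => e ▸ T.zc_mem k⟩
  obtain ⟨k, hk⟩ := T.exists_z x (T.anti N le_rfl hx)
  have : x * (T.zc k)⁻¹ ∈ T.S ⊓ T.G (N + 1) :=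
    Subgroup.mem_inf.2 ⟨hk, mul_mem hx (inv_mem (T.zc_mem k))⟩
  rw [R.bot, Subgroup.mem_bot, mul_inv_eq_one] at this
  exact ⟨k, this⟩

section

variable (T) {j : ℕ} (h1 : 1 ≤ j) (h2 : j ≤ N)
include h1 h2

theorem Lat1_lam_one : T.lam j 1 = 0 := (T.lam_ker j h1 h2 1 (one_mem _)).2 (one_mem _)

theorem Lat1_lam_inv {x : B} (hx : x ∈ T.G j) : T.lam j x⁻¹ = -T.lam j x := by
  have := T.lam_mul j h1 h2 x hx x⁻¹ (inv_mem hx)
  rw [mul_inv_cancel, T.Lat1_lam_one h1 h2] at this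
  exact eq_neg_of_add_eq_zero_right this.symm

theorem Lat1_lam_pow {x : B} (hx : x ∈ T.G j) (n : ℕ) : T.lam j (x ^ n) = n • T.lam j x := by
  induction n with
  | zero => simp [T.Lat1_lam_one h1 h2]
  | succ n ih => rw [pow_succ, T.lam_mul j h1 h2 _ (pow_mem hx n) x hx, ih, succ_nsmul]

theorem Lat1_div_mem {x y : B} (hx : x ∈ T.G j) (hy : y ∈ T.G j) (e : T.lam j x = T.lam j y) :
    y * x⁻¹ ∈ T.G (j + 1) := by
  rw [← T.lam_ker j h1 h2 _ (mul_mem hy (inv_mem hx)), T.lam_mul j h1 h2 _ hy _ (inv_mem hx),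
    T.Lat1_lam_inv h1 h2 hx, e, add_neg_cancel]

theorem Lat1_comm_not {x g : B} (hx : x ∈ T.G j) (hg : g ∈ T.G 0)
    (h : Ad (T.rho g) (T.lam j x) ≠ T.lam j x) :
    g * x * g⁻¹ * x⁻¹ ∈ T.G j ∧ g * x * g⁻¹ * x⁻¹ ∉ T.G (j + 1) := by
  have hc := T.conj j (by omega) x hx g hg
  refine ⟨mul_mem hc (inv_mem hx), fun hm => h ?_⟩
  rwa [← T.lam_ker j h1 h2 _ (mul_mem hc (inv_mem hx)), T.lam_mul j h1 h2 _ hc _ (inv_mem hx),
    T.Lat1_lam_inv h1 h2 hx, T.lam_conj j h1 h2 x hx g hg, add_neg_eq_zero] at hm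

theorem Lat1_full {M : Subgroup B} (hM : M.Normal) {x : B} (hx : x ∈ M) (hj : x ∈ T.G j)
    (hn : x ∉ T.G (j + 1)) (u : F7 × F7 × F7) : ∃ y ∈ M, y ∈ T.G j ∧ T.lam j y = u := by
  let U : AddSubgroup (F7 × F7 × F7) :=
    { carrier := {u | ∃ y ∈ M, y ∈ T.G j ∧ T.lam j y = u}
      zero_mem' := ⟨1, one_mem _, one_mem _, T.Lat1_lam_one h1 h2⟩
      add_mem' := by
        rintro _ _ ⟨a, ha, ha', rfl⟩ ⟨b, hb, hb', rfl⟩
        exact ⟨a * b, mul_mem ha hb, mul_mem ha' hb', T.lam_mul j h1 h2 a ha' b hb'⟩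
      neg_mem' := by
        rintro _ ⟨a, ha, ha', rfl⟩
        exact ⟨a⁻¹, inv_mem ha, inv_mem ha', T.Lat1_lam_inv h1 h2 ha'⟩ }
  have hU : ∀ g, ∀ v ∈ U, Ad g v ∈ U := by
    rintro g _ ⟨a, ha, ha', rfl⟩
    obtain ⟨g', hg', rfl⟩ := T.rho_surj g
    exact ⟨g' * a * g'⁻¹, hM.conj_mem a ha g', T.conj j (by omega) a ha' g' hg',
      T.lam_conj j h1 h2 a ha' g' hg'⟩
  rcases Ad_irred U hU with e | e
  · have : T.lam j x ∈ U := ⟨x, hx, hj, rfl⟩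
    rw [e, AddSubgroup.mem_bot] at this
    exact absurd ((T.lam_ker j h1 h2 x hj).1 this) hn
  · have : u ∈ U := e ▸ AddSubgroup.mem_top u
    exact this

end

theorem Red.pow_eq_one (R : T.Red) {x : B} (hx : x ∈ T.G 1) : x ^ 7 ^ (N + 1) = 1 := by
  have h : ∀ i, i ≤ N → x ^ 7 ^ i ∈ T.G (i + 1) := by
    intro i
    induction i with
    | zero => simpa using hx
    | succ i ih =>
      intro hi
      have h0 := ih (by omega)
      rw [pow_succ, pow_mul, ← T.lam_ker (i + 1) (by omega) hi _ (pow_mem h0 7),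
        T.Lat1_lam_pow (by omega) hi h0, ← Nat.cast_smul_eq_nsmul F7,
        show ((7 : ℕ) : F7) = 0 from rfl, zero_smul]
  obtain ⟨k, hk⟩ := (R.mem_last _).1 (h N le_rfl)
  rw [pow_succ, pow_mul, hk, T.Lat1_zc_pow, show ((7 : ℕ) : F7) = 0 from rfl, zero_mul,
    T.Lat1_zc_zero]

theorem Red.Lat1_S_le (R : T.Red) {M : Subgroup B} (hM : M.Normal) {x : B} (hx : x ∈ M)
    (hj : x ∈ T.G N) (hn : x ∉ T.G (N + 1)) : T.S ≤ M := by
  have h1 : 1 ≤ N := by have := T.two_le; omega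
  obtain ⟨k, hk⟩ := T.exists_z x hj
  obtain ⟨s, hs⟩ := Ad_moves (x := T.lam N x) fun e => hn ((T.lam_ker N h1 le_rfl x hj).1 e)
  obtain ⟨g, hg, rfl⟩ := T.rho_surj s
  obtain ⟨c1, c2⟩ := T.Lat1_comm_not h1 le_rfl hj hg hs
  have e : g * x * g⁻¹ * x⁻¹ = g * (x * (T.zc k)⁻¹) * g⁻¹ * (x * (T.zc k)⁻¹)⁻¹ := by
    have := (T.zc_comm k g⁻¹).inv_left.eq
    rw [mul_inv_rev, inv_inv, mul_assoc g (x * _), mul_assoc x, this]
    group
  have c3 : g * x * g⁻¹ * x⁻¹ ∈ M ⊓ T.S :=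
    Subgroup.mem_inf.2 ⟨mul_mem (hM.conj_mem x hx g) (inv_mem hx),
      by rw [e]; exact mul_mem (T.S_conj _ hk g hg) (inv_mem hk)⟩
  have hMS : (M ⊓ T.S).Normal :=
    ⟨fun a ha b => ⟨hM.conj_mem a ha.1 b, R.S_normal.conj_mem a ha.2 b⟩⟩
  intro y hy
  obtain ⟨a, ha, ha', e'⟩ := T.Lat1_full h1 le_rfl hMS c3 c1 c2 (T.lam N y)
  have : y * a⁻¹ ∈ T.S ⊓ T.G (N + 1) :=
    Subgroup.mem_inf.2 ⟨mul_mem hy (inv_mem (Subgroup.mem_inf.1 ha).2),
      T.Lat1_div_mem h1 le_rfl ha' (T.S_le hy) e'⟩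
  rw [R.bot, Subgroup.mem_bot, mul_inv_eq_one] at this
  exact this ▸ ha.1

theorem Red.Lat1_main (R : T.Red) {M : Subgroup B} (hM : M.Normal) (d : ℕ) :
    ∀ j, j + d = N → 1 ≤ j → (∃ x ∈ M, x ∈ T.G j ∧ x ∉ T.G (j + 1)) →
      T.G j ≤ M ∨ (j = N ∧ M ⊓ T.G N = T.S) := by
  induction d with
  | zero =>
    rintro j hj - ⟨x, hx, hx1, hx2⟩
    obtain rfl : j = N := hj
    have hS := R.Lat1_S_le hM hx hx1 hx2
    by_cases hz : ∃ k, k ≠ 0 ∧ T.zc k ∈ M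
    · obtain ⟨k, hk, hk'⟩ := hz
      refine Or.inl fun y hy => ?_
      obtain ⟨l, hl⟩ := T.exists_z y hy
      simpa using mul_mem (hS hl) (T.Lat1_zc_all hk hk' l)
    · refine Or.inr ⟨rfl, le_antisymm (fun y hy => ?_) (le_inf hS T.S_le)⟩
      obtain ⟨l, hl⟩ := T.exists_z y hy.2
      have h3 : T.zc l ∈ M := by simpa using mul_mem (inv_mem (hS hl)) hy.1
      have h4 : l = 0 := by_contra fun h => hz ⟨l, h, h3⟩
      simpa [h4, T.Lat1_zc_zero] using hl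
  | succ d ih =>
    rintro j hj h1 ⟨x, hx, hx1, hx2⟩
    have h2 : j ≤ N := by omega
    obtain ⟨a, ha, ha1, ha2⟩ := T.Lat1_full h1 h2 hM hx hx1 hx2 (0, 1, 0)
    have hc : ∀ y, ⁅a, y⁆ ∈ M := fun y => by
      have := mul_mem ha (hM.conj_mem _ (inv_mem ha) y)
      simpa [commutatorElement_def, mul_assoc] using this
    obtain ⟨y, -, hy1, hy2⟩ := T.step j h1 (by omega) a ha1 ha2
    have hle : T.G (j + 1) ≤ M := by
      rcases ih (j + 1) (by omega) (by omega) ⟨_, hc y, hy1, hy2⟩ with h | ⟨e, h⟩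
      · exact h
      · obtain ⟨y', -, k1, k2⟩ := T.key j e a ha1 ha2
        exact absurd (h ▸ (⟨hc y', k1⟩ : ⁅a, y'⁆ ∈ M ⊓ T.G N)) k2
    refine Or.inl fun w hw => ?_
    obtain ⟨b, hb, hb1, hb2⟩ := T.Lat1_full h1 h2 hM hx hx1 hx2 (T.lam j w)
    simpa using mul_mem (hle (T.Lat1_div_mem h1 h2 hb1 hw hb2)) hb

theorem Red.tri (R : T.Red) {M : Subgroup B} (hM : M.Normal) (h : M ≤ T.G 1) :
    M = ⊥ ∨ M = T.S ∨ ∃ j, 1 ≤ j ∧ j ≤ N + 1 ∧ M = T.G j := by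
  have main : ∀ d i, i + d = N + 1 → 1 ≤ i → M ≤ T.G i →
      M = ⊥ ∨ M = T.S ∨ ∃ j, 1 ≤ j ∧ j ≤ N + 1 ∧ M = T.G j := by
    intro d
    induction d with
    | zero =>
      intro i hi h1 hle
      obtain rfl : i = N + 1 := hi
      by_cases hb : M = ⊥
      · exact Or.inl hb
      obtain ⟨⟨x, hx⟩, hx1⟩ := Subgroup.ne_bot_iff_exists_ne_one.1 hb
      obtain ⟨k, rfl⟩ := (R.mem_last x).1 (hle hx)
      have hk : k ≠ 0 := fun e => hx1 (Subtype.ext (by simp [e, T.Lat1_zc_zero]))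
      refine Or.inr (Or.inr ⟨N + 1, h1, le_rfl, le_antisymm hle fun y hy => ?_⟩)
      obtain ⟨l, rfl⟩ := (R.mem_last y).1 hy
      exact T.Lat1_zc_all hk hx l
    | succ d ih =>
      intro i hi h1 hle
      by_cases hn : M ≤ T.G (i + 1)
      · exact ih (i + 1) (by omega) (by omega) hn
      obtain ⟨x, hx, hx2⟩ := SetLike.not_le_iff_exists.1 hn
      rcases R.Lat1_main hM d i (by omega) h1 ⟨x, hx, hle hx, hx2⟩ with k | ⟨e, k⟩
      · exact Or.inr (Or.inr ⟨i, h1, by omega, le_antisymm hle k⟩)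
      · subst e
        exact Or.inr (Or.inl (by rw [← k, inf_eq_left.2 hle]))
  exact main N 1 (by omega) le_rfl h

theorem Red.eq_top (R : T.Red) {M : Subgroup B} (hM : M.Normal)
    (h : ∃ x ∈ M, T.rho x ≠ 1 ∧ T.rho x ≠ neg1 F7) : M = ⊤ := by
  have h2 := T.two_le
  let f : B →* SL F7 := MonoidHom.mk' T.rho fun x y => T.rho_mul x (R.Lat1_mem x) y (R.Lat1_mem y)
  have hf : Function.Surjective f := fun s => (T.rho_surj s).imp fun _ h => h.2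
  have hall : ∀ s, ∃ m ∈ M, f m = s := by
    rcases SL7_normal (M.map f) (hM.map f hf) with k | k
    · obtain ⟨x, hx, k1, k2⟩ := h
      exact ((k (f x) ⟨x, hx, rfl⟩).elim k1 k2).elim
    · intro s
      have : s ∈ M.map f := k ▸ Subgroup.mem_top s
      exact this
  obtain ⟨s, hs⟩ := Ad_moves (x := (0, 1, 0)) (by decide)
  obtain ⟨m, hm, rfl⟩ := hall s
  obtain ⟨x, hx, e⟩ := T.lam_surj 1 le_rfl (by omega) (0, 1, 0)
  obtain ⟨c1, c2⟩ := T.Lat1_comm_not le_rfl (by omega) hx (R.Lat1_mem m) (by rw [e]; exact hs)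
  have c3 : m * x * m⁻¹ * x⁻¹ ∈ M := by
    simpa [mul_assoc] using mul_mem hm (hM.conj_mem _ (inv_mem hm) x)
  have hle : T.G 1 ≤ M :=
    (R.Lat1_main hM (N - 1) 1 (by omega) le_rfl ⟨_, c3, c1, c2⟩).resolve_right fun k => by omega
  refine top_unique fun y _ => ?_
  obtain ⟨a, ha, e'⟩ := hall (f y)
  have : f (y * a⁻¹) = 1 := by rw [map_mul, map_inv, e', mul_inv_cancel]
  simpa using mul_mem (hle ((T.rho_ker _ (R.Lat1_mem _)).1 this)) ha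

theorem Red.Lat1_io_mul (R : T.Red) {x : B} (hx : T.rho x = neg1 F7) : T.io * x ∈ T.G 1 := by
  rw [← T.rho_ker _ (R.Lat1_mem _), T.rho_mul _ T.io_mem _ (R.Lat1_mem _), T.rho_io, hx,
    neg1_mul_neg1]

theorem Red.io_mem_of (R : T.Red) {M : Subgroup B} (hM : M.Normal) (h : ¬ M ≤ T.G 1) :
    T.io ∈ M := by
  obtain ⟨x, hx, hx1⟩ := SetLike.not_le_iff_exists.1 h
  by_cases e : T.rho x = neg1 F7
  · have h1 := R.pow_eq_one (R.Lat1_io_mul e)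
    obtain ⟨k, hk⟩ : Odd (7 ^ (N + 1)) := Odd.pow (by decide)
    have h2 : T.io ^ 7 ^ (N + 1) = T.io := by
      rw [hk, pow_succ, pow_mul, pow_two, T.io_sq, one_pow, one_mul]
    rw [(T.io_comm x).mul_pow, h2, mul_eq_one_iff_eq_inv] at h1
    exact h1 ▸ inv_mem (pow_mem hx _)
  · rw [R.eq_top hM ⟨x, hx, fun k => hx1 ((T.rho_ker x (R.Lat1_mem x)).1 k), e⟩]
    exact Subgroup.mem_top _

theorem Red.eq_sup (R : T.Red) {M : Subgroup B} (hM : M.Normal) (h : ¬ M ≤ T.G 1) (h' : M ≠ ⊤) :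
    M = (M ⊓ T.G 1) ⊔ Subgroup.zpowers T.io := by
  have hio := R.io_mem_of hM h
  refine le_antisymm (fun x hx => ?_) (sup_le inf_le_left (Subgroup.zpowers_le.2 hio))
  by_cases e1 : T.rho x = 1
  · exact Subgroup.mem_sup_left ⟨hx, (T.rho_ker x (R.Lat1_mem x)).1 e1⟩
  by_cases e2 : T.rho x = neg1 F7
  · have e : x = T.io * (T.io * x) := by rw [← mul_assoc, T.io_sq, one_mul]
    rw [e]
    exact mul_mem (Subgroup.mem_sup_right (Subgroup.mem_zpowers _))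
      (Subgroup.mem_sup_left ⟨mul_mem hio hx, R.Lat1_io_mul e2⟩)
  · exact absurd (R.eq_top hM ⟨x, hx, e1, e2⟩) h'

end Tw

end Pool.Agent.Lib.MP_c05f82_nt.LG
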