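import Pool.Agent.Lib.MP_c05f82_nt.LG.Lat1

/-!
Orders and sums for a reduced filtration.
-/

open scoped commutatorElement

namespace Pool.Agent.Lib.MP_c05f82_nt.LG

open Pool.Agent.Lib.MP_c05f82_nt.GC

theorem Lat2_crd {A B : Type} [Group A] [AddCommGroup B] (K L : Subgroup A) (hL : L ≤ K)
    (φ : A → B) (hmul : ∀ x ∈ K, ∀ y ∈ K, φ (x * y) = φ x + φ y)
    (hker : ∀ x ∈ K, φ x = 0 ↔ x ∈ L) (hsurj : ∀ b, ∃ x ∈ K, φ x = b) :
    Nat.card K = Nat.card B * Nat.card L := by
  let f : K →* Multiplicative B := MonoidHom.mk' (fun x => Multiplicative.ofAdd (φ x))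
    fun x y => by rw [← ofAdd_add, ← hmul _ x.2 _ y.2]; rfl
  have h1 : Function.Surjective f := fun b => by
    obtain ⟨x, hx, h⟩ := hsurj b.toAdd
    exact ⟨⟨x, hx⟩, congrArg Multiplicative.ofAdd h⟩
  have h2 : f.ker = L.subgroupOf K := by
    ext x
    rw [MonoidHom.mem_ker, Subgroup.mem_subgroupOf, ← hker x x.2]
    rfl
  rw [Subgroup.card_eq_card_quotient_mul_card_subgroup f.ker,
    Nat.card_congr (QuotientGroup.quotientKerEquivOfSurjective f h1).toEquiv, h2,
    Nat.card_congr (Subgroup.subgroupOfEquivOfLe hL).toEquiv]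
  rfl

theorem Lat2_mem_sup {A : Type} [Group A] {c : A} (h1 : ∀ g, Commute c g) (h2 : c * c = 1)
    (H : Subgroup A) (x : A) : x ∈ H ⊔ Subgroup.zpowers c ↔ x ∈ H ∨ x * c ∈ H := by
  let K : Subgroup A :=
    { carrier := {x | x ∈ H ∨ x * c ∈ H}
      mul_mem' := by
        rintro a b (ha | ha) (hb | hb)
        · exact Or.inl (mul_mem ha hb)
        · exact Or.inr (mul_assoc a b c ▸ mul_mem ha hb)
        · exact Or.inr (by simpa only [mul_assoc, (h1 b).eq] using mul_mem ha hb)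
        · exact Or.inl (by
            simpa only [mul_assoc, (h1 (b * c)).eq, h2, mul_one] using mul_mem ha hb)
      one_mem' := Or.inl (one_mem _)
      inv_mem' := by
        rintro a (ha | ha)
        · exact Or.inl (inv_mem ha)
        · exact Or.inr (by
            simpa only [mul_inv_rev, inv_eq_of_mul_eq_one_right h2, (h1 a⁻¹).eq] using inv_mem ha) }
  refine ⟨fun h => (sup_le (fun y hy => Or.inl hy)
    (Subgroup.zpowers_le.2 (Or.inr (h2 ▸ one_mem H))) : _ ≤ K) h, ?_⟩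
  rintro (h | h)
  · exact Subgroup.mem_sup_left h
  · simpa only [mul_assoc, h2, mul_one] using
      Subgroup.mul_mem_sup h (Subgroup.mem_zpowers c)

theorem Lat2_card_sup {A : Type} [Group A] {c : A} (h1 : ∀ g, Commute c g) (h2 : c * c = 1)
    {H : Subgroup A} (h : c ∉ H) : Nat.card (H ⊔ Subgroup.zpowers c :) = 2 * Nat.card H := by
  have : H.relIndex (H ⊔ Subgroup.zpowers c) = 2 := by
    refine Subgroup.relIndex_eq_two_iff.2 ⟨c, Subgroup.mem_sup_right (Subgroup.mem_zpowers c),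
      fun b hb => ?_⟩
    have n : ¬(b * c ∈ H ∧ b ∈ H) := fun n => h ((H.mul_mem_cancel_left n.2).1 n.1)
    rcases (Lat2_mem_sup h1 h2 H b).1 hb with hb | hb
    · exact Or.inr ⟨hb, fun h' => n ⟨h', hb⟩⟩
    · exact Or.inl ⟨hb, fun h' => n ⟨hb, h'⟩⟩
  rw [← (H.subgroupOf (H ⊔ Subgroup.zpowers c)).index_mul_card, ← this,
    Nat.card_congr (Subgroup.subgroupOfEquivOfLe le_sup_left).toEquiv]
  rfl

theorem Lat2_geo (n : ℕ) : 342 * ∑ i ∈ Finset.range (n + 1), 343 ^ i + 1 = 343 * 343 ^ n := by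
  induction n with
  | zero => simp
  | succ n ih => rw [Finset.sum_range_succ, pow_succ]; omega

namespace Tw

variable {B : Type} [Group B] {N : ℕ} {T : Tw B N}

theorem Lat2_inj (T : Tw B N) (k : F7) (h : T.zc k = 1) : k = 0 := T.z_S k (h ▸ one_mem _)

theorem Lat2_le (T : Tw B N) {i j : ℕ} (h : i ≤ j) (hj : j ≤ N + 1) : T.G j ≤ T.G i := by
  induction j, h using Nat.le_induction with
  | base => exact le_rfl
  | succ j _ ih => exact (T.anti j (by omega)).trans (ih (by omega))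

theorem Red.Lat2_last (R : T.Red) : Nat.card (T.G (N + 1)) = 7 := by
  rw [← Nat.card_zmod 7]
  refine (Nat.card_eq_of_bijective (fun k => (⟨T.zc k, T.zc_mem k⟩ : T.G (N + 1)))
    ⟨fun k l h => sub_eq_zero.1 (T.Lat2_inj _ ?_), fun x => ?_⟩).symm
  · have := T.zc_add (k - l) l
    rw [sub_add_cancel, show T.zc k = T.zc l from congrArg Subtype.val h] at this
    exact right_eq_mul.1 this
  · obtain ⟨k, hk⟩ := (R.mem_last x).1 x.2
    exact ⟨k, Subtype.ext hk.symm⟩

theorem Red.Lat2_G (R : T.Red) {i : ℕ} (hi : i ≤ N) :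
    Nat.card (T.G (N + 1 - i)) = 7 * 343 ^ i := by
  induction i with
  | zero => exact R.Lat2_last
  | succ i ih =>
    have h1 : 1 ≤ N + 1 - (i + 1) := by omega
    have h2 : N + 1 - (i + 1) ≤ N := by omega
    rw [Lat2_crd _ _ (T.anti _ h2) _ (T.lam_mul _ h1 h2) (T.lam_ker _ h1 h2) (T.lam_surj _ h1 h2),
      show N + 1 - (i + 1) + 1 = N + 1 - i by omega, ih (by omega), pow_succ]
    simp only [Nat.card_prod, Nat.card_zmod]
    ring

theorem Red.Lat2_S (R : T.Red) : Nat.card T.S = 343 := by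
  have h1 : 1 ≤ N := by have := T.two_le; omega
  rw [Lat2_crd T.S ⊥ bot_le (T.lam N)
    (fun x hx y hy => T.lam_mul N h1 le_rfl x (T.S_le hx) y (T.S_le hy))
    (fun x hx => by
      rw [T.lam_ker N h1 le_rfl x (T.S_le hx), ← R.bot, Subgroup.mem_inf, and_iff_right hx])
    fun u => by
      obtain ⟨x, hx, rfl⟩ := T.lam_surj N h1 le_rfl u
      obtain ⟨k, hk⟩ := T.exists_z x hx
      have m := inv_mem (T.zc_mem k)
      exact ⟨_, hk, by rw [T.lam_mul N h1 le_rfl x hx _ (T.anti N le_rfl m),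
        (T.lam_ker N h1 le_rfl _ (T.anti N le_rfl m)).2 m, add_zero]⟩]
  simp only [Nat.card_prod, Nat.card_zmod, Subgroup.card_bot]

theorem Red.exists_BD (R : T.Red) :
    ∃ g, 342 * g + 1 = 343 * 343 ^ N ∧ Nonempty (BD B (343 ^ N) g) := by
  classical
  have m0 : ∀ x, x ∈ T.G 0 := fun x => R.top ▸ Subgroup.mem_top x
  let ρ : B →* SL F7 := MonoidHom.mk' T.rho fun x y => T.rho_mul x (m0 x) y (m0 y)
  have hk : ρ.ker = T.G 1 := Subgroup.ext fun x => T.rho_ker x (m0 x)
  have hs : Function.Surjective ρ := fun s => (T.rho_surj s).imp fun _ h => h.2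
  have c1 : Nat.card (T.G 1) = 7 * 343 ^ N := by simpa using R.Lat2_G le_rfl
  have cB : Nat.card B = 7 * 336 * 343 ^ N := by
    rw [Subgroup.card_eq_card_quotient_mul_card_subgroup ρ.ker,
      Nat.card_congr (QuotientGroup.quotientKerEquivOfSurjective ρ hs).toEquiv, card_SL7, hk, c1]
    ring
  have ni : T.io ∉ T.G 1 := fun h => neg1_ne_one (T.rho_io ▸ (T.rho_ker _ (m0 _)).2 h)
  let H : ℕ → Subgroup B := fun i => T.G (N + 1 - i)
  let H' : ℕ → Subgroup B := fun i => H i ⊔ Subgroup.zpowers T.io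
  let r := Finset.range (N + 1)
  have mr : ∀ {i}, i ∈ r → i ≤ N := fun h => Nat.lt_succ_iff.1 (Finset.mem_range.1 h)
  have le1 : ∀ i ∈ r, H i ≤ T.G 1 := fun i hi => T.Lat2_le (by have := mr hi; omega) (by omega)
  have zH : ∀ i, T.zc 1 ∈ H i := fun i => T.Lat2_le (by omega) le_rfl (T.zc_mem 1)
  have nH : ∀ i, (H i).Normal := fun i => R.G_normal (by omega)
  have cH : ∀ i ∈ r, Nat.card (H i) = 7 * 343 ^ i := fun i hi => R.Lat2_G (mr hi)
  have cH' : ∀ i ∈ r, Nat.card (H' i) = 2 * (7 * 343 ^ i) := fun i hi => by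
    rw [← cH i hi]; exact Lat2_card_sup T.io_comm T.io_sq fun h => ni (le1 i hi h)
  have iH : Set.InjOn H r := fun i hi j hj h => by
    have := cH i hi
    rw [h, cH j hj] at this
    exact Nat.pow_right_injective (by norm_num : 2 ≤ 343) (by dsimp only; omega)
  have iH' : Set.InjOn H' r := fun i hi j hj h => by
    have := cH' i hi
    rw [h, cH' j hj] at this
    exact Nat.pow_right_injective (by norm_num : 2 ≤ 343) (by dsimp only; omega)
  have sH : ∑ M ∈ r.image H, Nat.card M = 7 * ∑ i ∈ r, 343 ^ i := by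
    rw [Finset.sum_image iH, Finset.sum_congr rfl cH, Finset.mul_sum]
  have sH' : ∑ M ∈ r.image H', Nat.card M = 14 * ∑ i ∈ r, 343 ^ i := by
    rw [Finset.sum_image iH', Finset.sum_congr rfl cH', Finset.mul_sum]
    exact Finset.sum_congr rfl fun _ _ => by ring
  have zS : T.zc 1 ∉ T.S := fun h => one_ne_zero (T.z_S 1 h)
  have q2 : ∀ M, M ∈ r.image H ↔ M.Normal ∧ M ≤ T.G 1 ∧ T.zc 1 ∈ M := fun M => by
    rw [Finset.mem_image]
    refine ⟨fun ⟨i, hi, e⟩ => e ▸ ⟨nH i, le1 i hi, zH i⟩, fun ⟨h1, h2, h3⟩ => ?_⟩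
    rcases R.tri h1 h2 with rfl | rfl | ⟨j, j1, j2, rfl⟩
    · exact absurd (bot_le (a := T.S) h3) zS
    · exact absurd h3 zS
    · exact ⟨N + 1 - j, Finset.mem_range.2 (by omega), congrArg T.G (by omega)⟩
  refine ⟨∑ i ∈ r, 343 ^ i, Lat2_geo N, ⟨⟨T.zc, T.io, ρ,
    Nat.finite_of_card_ne_zero (by rw [cB]; positivity), T.zc_add, T.zc_comm, T.Lat2_inj,
    fun k => (T.rho_ker _ (m0 _)).2 (T.Lat2_le (by omega) le_rfl (T.zc_mem k)), T.io_comm,
    T.rho_io, hs, hk ▸ c1, fun M hM h => R.io_mem_of hM (hk ▸ h), fun M hM h => R.eq_top hM h,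
    ?_, ?_, ?_⟩⟩⟩
  · rw [hk, wt_eq_sum (insert ⊥ (insert T.S (r.image H))), Finset.sum_insert, Finset.sum_insert,
      sH, Subgroup.card_bot, R.Lat2_S, ← add_assoc]
    · exact fun h => zS ((q2 _).1 h).2.2
    · rw [Finset.mem_insert]
      rintro (h | h)
      · have := R.Lat2_S
        rw [← h, Subgroup.card_bot] at this
        omega
      · exact zS (bot_le (a := T.S) ((q2 _).1 h).2.2)
    · intro M
      rw [Finset.mem_insert, Finset.mem_insert]
      constructor
      · rintro (rfl | rfl | h)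
        · exact ⟨inferInstance, bot_le⟩
        · exact ⟨R.S_normal, T.S_le.trans (T.Lat2_le (by have := T.two_le; omega) (by omega))⟩
        · exact ⟨((q2 _).1 h).1, ((q2 _).1 h).2.1⟩
      · rintro ⟨h1, h2⟩
        refine (R.tri h1 h2).imp_right (Or.imp_right ?_)
        rintro ⟨j, j1, j2, rfl⟩
        exact (q2 _).2 ⟨h1, h2, T.Lat2_le j2 le_rfl (T.zc_mem 1)⟩
  · rw [hk, wt_eq_sum _ q2, sH]
  · have pw : ∀ i ∈ r, 343 ^ i ≤ 343 ^ N := fun i hi => Nat.pow_le_pow_right (by norm_num) (mr hi)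
    have p0 : 0 < 343 ^ N := by positivity
    rw [wt_eq_sum (insert ⊤ (r.image H ∪ r.image H')), Finset.sum_insert, Finset.sum_union,
      sH, sH', Subgroup.card_top, cB]
    · ring
    · refine Finset.disjoint_left.2 fun M h h' => ?_
      obtain ⟨i, -, rfl⟩ := Finset.mem_image.1 h'
      exact ni (((q2 _).1 h).2.1 (Subgroup.mem_sup_right (Subgroup.mem_zpowers _)))
    · rw [Finset.mem_union]
      rintro (h | h)
      · exact ni (((q2 _).1 h).2.1 (Subgroup.mem_top _))
      · obtain ⟨i, hi, e⟩ := Finset.mem_image.1 h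
        have := cH' i hi
        rw [e, Subgroup.card_top, cB] at this
        have := pw i hi
        omega
    · intro M
      rw [Finset.mem_insert, Finset.mem_union]
      constructor
      · rintro (rfl | h | h)
        · exact ⟨inferInstance, Subgroup.mem_top _⟩
        · exact ⟨((q2 _).1 h).1, ((q2 _).1 h).2.2⟩
        · obtain ⟨i, -, rfl⟩ := Finset.mem_image.1 h
          refine ⟨⟨fun x hx g => ?_⟩, Subgroup.mem_sup_left (zH i)⟩
          rw [Lat2_mem_sup T.io_comm T.io_sq] at hx ⊢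
          refine hx.imp (fun h => (nH i).conj_mem x h g) fun h => ?_
          simpa only [mul_assoc, (T.io_comm g⁻¹).eq] using (nH i).conj_mem _ h g
      · rintro ⟨h1, h2⟩
        by_cases t : M = ⊤
        · exact Or.inl t
        by_cases l : M ≤ T.G 1
        · exact Or.inr (Or.inl ((q2 _).2 ⟨h1, l, h2⟩))
        have := R.G_normal (j := 1) (by omega)
        obtain ⟨i, hi, e⟩ := Finset.mem_image.1 ((q2 (M ⊓ T.G 1)).2
          ⟨inferInstance, inf_le_right, h2, le1 0 (by simp [r]) (zH 0)⟩)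
        exact Or.inr (Or.inr (Finset.mem_image.2 ⟨i, hi, by
          rw [R.eq_sup h1 l t, ← e]⟩))

end Tw

end Pool.Agent.Lib.MP_c05f82_nt.LG
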