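import Pool.Agent.Lib.MP_c05f82_nt.LG.Defs
import Pool.Agent.Lib.MP_c05f82_nt.GC.Quot

/-!
Passage to the quotient of the top of the filtration by its bottom.
-/

open scoped commutatorElement

namespace Pool.Agent.Lib.MP_c05f82_nt.LG

open Pool.Agent.Lib.MP_c05f82_nt.GC

theorem Tw.Quot_anti {X : Type} [Group X] {N : ℕ} (T : Tw X N) {i j : ℕ} (h : i ≤ j)
    (hj : j ≤ N + 1) : T.G j ≤ T.G i := by
  induction h with
  | refl => exact le_rfl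
  | step _ ih => exact (T.anti _ (Nat.le_of_succ_le_succ hj)).trans (ih (Nat.le_of_succ_le hj))

theorem Tw.exists_red {X : Type} [Group X] {N : ℕ} (T : Tw X N) :
    ∃ (B : Type) (_ : Group B) (T' : Tw B N), T'.Red := by
  have G0 : ∀ {j}, j ≤ N + 1 → T.G j ≤ T.G 0 := fun hj => T.Quot_anti (Nat.zero_le _) hj
  have WG : ∀ {j}, j ≤ N + 1 → T.S ⊓ T.G (N + 1) ≤ T.G j := fun hj =>
    inf_le_right.trans (T.Quot_anti hj le_rfl)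
  have S0 : T.S ≤ T.G 0 := T.S_le.trans (G0 (Nat.le_succ N))
  have z0 : ∀ k, T.zc k ∈ T.G 0 := fun k => G0 le_rfl (T.zc_mem k)
  obtain ⟨A, _, φ, s, Q⟩ := quot_exists (WG (Nat.zero_le _)) fun x hx g hg => by
    rw [show ⁅x, g⁆ = x * (g * x⁻¹ * g⁻¹) by simp [commutatorElement_def, mul_assoc]]
    exact mul_mem hx ⟨T.S_conj _ (inv_mem hx.1) g hg, T.conj _ le_rfl _ (inv_mem hx.2) g hg⟩
  have hr : ∀ x ∈ T.G 0, T.rho (s (φ x)) = T.rho x := fun x hx => by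
    obtain ⟨k, hk, e⟩ := Q.out hx
    rw [e, T.rho_mul x hx k (Q.le hk), (T.rho_ker k (Q.le hk)).2 (WG (by omega) hk), mul_one]
  have hl : ∀ j, 1 ≤ j → j ≤ N → ∀ x ∈ T.G j, T.lam j (s (φ x)) = T.lam j x :=
    fun j h1 hj x hx => by
      obtain ⟨k, hk, e⟩ := Q.out (G0 (by omega) hx)
      rw [e, T.lam_mul j h1 hj x hx k (WG (by omega) hk),
        (T.lam_ker j h1 hj k (WG (by omega) hk)).2 (WG (by omega) hk), add_zero]
  have cj : ∀ {x g}, x ∈ T.G 0 → g ∈ T.G 0 → φ g * φ x * (φ g)⁻¹ = φ (g * x * g⁻¹) :=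
    fun hx hg => by rw [Q.mul _ (mul_mem hg hx) _ (inv_mem hg), Q.mul _ hg _ hx, Q.inv hg]
  have cm : ∀ {x y}, x ∈ T.G 0 → y ∈ T.G 0 → ⁅x, y⁆ ∈ T.G 0 := fun hx hy =>
    mul_mem (mul_mem (mul_mem hx hy) (inv_mem hx)) (inv_mem hy)
  have co : ∀ {x}, x ∈ T.G 0 → (∀ g, Commute x g) → ∀ q, Commute (φ x) q := fun hx h q => by
    obtain ⟨g, hg, rfl⟩ := Q.surj q
    change φ _ * φ _ = φ _ * φ _
    rw [← Q.mul _ hx _ hg, ← Q.mul _ hg _ hx, (h g).eq]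
  refine ⟨A, inferInstance,
    { G := fun j => Q.im (T.G j), S := Q.im T.S, zc := fun k => φ (T.zc k), io := φ T.io
      rho := fun q => T.rho (s q), lam := fun j q => T.lam j (s q)
      two_le := T.two_le
      anti := fun j hj => Q.im_mono (T.anti j hj)
      conj := ?_
      S_le := Q.im_mono T.S_le
      S_conj := ?_
      zc_add := fun k l => by rw [T.zc_add, Q.mul _ (z0 k) _ (z0 l)]
      zc_mem := fun k => ⟨_, T.zc_mem k, z0 k, rfl⟩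
      zc_comm := fun k => co (z0 k) (T.zc_comm k)
      exists_z := ?_
      z_S := fun k h => T.z_S k ((Q.mem_im inf_le_left (z0 k)).1 h)
      io_mem := ⟨_, T.io_mem, T.io_mem, rfl⟩
      io_comm := co T.io_mem T.io_comm
      io_sq := by rw [← Q.mul _ T.io_mem _ T.io_mem, T.io_sq, Q.one]
      rho_io := (hr _ T.io_mem).trans T.rho_io
      rho_mul := ?_, rho_ker := ?_, rho_surj := fun u => ?_
      lam_mul := ?_, lam_ker := ?_, lam_surj := fun j h1 hj u => ?_, lam_conj := ?_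
      step := ?_, key := ?_ }, ?_, ?_⟩
  · rintro j hj _ ⟨x, h1, h2, rfl⟩ _ ⟨g, -, k, rfl⟩
    exact ⟨_, T.conj j hj x h1 g k, T.conj 0 (Nat.zero_le _) x h2 g k, (cj h2 k).symm⟩
  · rintro _ ⟨x, h1, h2, rfl⟩ _ ⟨g, -, k, rfl⟩
    exact ⟨_, T.S_conj x h1 g k, T.conj 0 (Nat.zero_le _) x h2 g k, (cj h2 k).symm⟩
  · rintro _ ⟨x, h1, h2, rfl⟩
    obtain ⟨k, hk⟩ := T.exists_z x h1
    exact ⟨k, _, hk, S0 hk, by rw [Q.mul _ h2 _ (inv_mem (z0 k)), Q.inv (z0 k)]⟩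
  · rintro _ ⟨x, -, h2, rfl⟩ _ ⟨y, -, k2, rfl⟩
    rw [← Q.mul x h2 y k2, hr _ (mul_mem h2 k2), hr x h2, hr y k2, T.rho_mul x h2 y k2]
  · rintro _ ⟨x, -, h2, rfl⟩
    rw [hr x h2, Q.mem_im (WG (by omega)) h2, T.rho_ker x h2]
  · obtain ⟨x, hx, e⟩ := T.rho_surj u
    exact ⟨φ x, ⟨x, hx, hx, rfl⟩, (hr x hx).trans e⟩
  · rintro j h0 hj _ ⟨x, h1, h2, rfl⟩ _ ⟨y, k1, k2, rfl⟩
    rw [← Q.mul x h2 y k2, hl j h0 hj _ (mul_mem h1 k1), hl j h0 hj x h1, hl j h0 hj y k1,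
      T.lam_mul j h0 hj x h1 y k1]
  · rintro j h0 hj _ ⟨x, h1, h2, rfl⟩
    rw [hl j h0 hj x h1, Q.mem_im (WG (by omega)) h2, T.lam_ker j h0 hj x h1]
  · obtain ⟨x, hx, e⟩ := T.lam_surj j h1 hj u
    exact ⟨φ x, ⟨x, hx, G0 (by omega) hx, rfl⟩, (hl j h1 hj x hx).trans e⟩
  · rintro j h0 hj _ ⟨x, h1, h2, rfl⟩ _ ⟨g, -, k, rfl⟩
    rw [cj h2 k, hl j h0 hj _ (T.conj j (by omega) x h1 g k), hl j h0 hj x h1, hr g k,
      T.lam_conj j h0 hj x h1 g k]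
  · rintro j h0 hj _ ⟨x, h1, h2, rfl⟩ e
    obtain ⟨y, hy, a1, a2⟩ := T.step j h0 hj x h1 ((hl j h0 hj.le x h1).symm.trans e)
    refine ⟨φ y, ⟨y, hy, hy, rfl⟩, ?_⟩
    rw [Q.comm h2 hy, Q.mem_im (WG (by omega)) (cm h2 hy), Q.mem_im (WG (by omega)) (cm h2 hy)]
    exact ⟨a1, a2⟩
  · rintro j hj _ ⟨x, h1, h2, rfl⟩ e
    have := T.two_le
    obtain ⟨y, hy, a1, a2⟩ := T.key j hj x h1 ((hl j (by omega) (by omega) x h1).symm.trans e)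
    refine ⟨φ y, ⟨y, hy, hy, rfl⟩, ?_⟩
    rw [Q.comm h2 hy, Q.mem_im (WG (by omega)) (cm h2 hy), Q.mem_im inf_le_left (cm h2 hy)]
    exact ⟨a1, a2⟩
  · refine eq_top_iff.2 fun q _ => ?_
    obtain ⟨x, hx, rfl⟩ := Q.surj q
    exact ⟨x, hx, hx, rfl⟩
  · refine eq_bot_iff.2 ?_
    rintro _ ⟨⟨x, h1, h2, rfl⟩, h3⟩
    exact (Q.ker x h2).2 ⟨h1, (Q.mem_im inf_le_right h2).1 h3⟩

end Pool.Agent.Lib.MP_c05f82_nt.LG
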