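import Pool.Agent.Lib.MP_c05f82_nt.LG.Defs
import Pool.Agent.Lib.MP_c05f82_nt.GC.Wc
import Pool.Agent.Lib.MP_c05f82_nt.GC.Cop

/-!
Two small modules over the Eisenstein integers.
-/

open scoped commutatorElement

namespace Pool.Agent.Lib.MP_c05f82_nt.LG

open Pool.Agent.Lib.MP_c05f82_nt.GC

/-- the elements killed by two -/
def Wm_two : AddSubgroup (ZMod 4 × ZMod 4) := (wcKer 4 2).prod (wcKer 4 2)

lemma Wm_mem_two (x : ZMod 4 × ZMod 4) : x ∈ Wm_two ↔ 2 * x.1 = 0 ∧ 2 * x.2 = 0 := by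
  simp only [Wm_two, AddSubgroup.mem_prod, wcKer, AddMonoidHom.mem_ker, nsmulAddMonoidHom_apply,
    nsmul_eq_mul, Nat.cast_ofNat]

lemma Wm_card_two : Nat.card Wm_two = 4 := by
  rw [Wm_two, wc_prod_card, wcKer_card (by norm_num) (by norm_num)]

lemma Wm_gen (H : AddSubgroup (ZMod 4 × ZMod 4)) (hH : ∀ x ∈ H, rot 4 x ∈ H)
    {x y : ZMod 4} (hx : (x, y) ∈ H) (a b : ZMod 4) :
    ((a * x + b * (-y), a * y + b * (x - y)) : ZMod 4 × ZMod 4) ∈ H :=
  H.add_mem (ZMod.smul_mem hx a) (ZMod.smul_mem (hH _ hx) b)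

theorem DW_rot_four : DW (rot 4) = 21 := by
  classical
  have d1 : ∀ x y z w : ZMod 4, ¬ (2 * x = 0 ∧ 2 * y = 0) →
      ∃ a b : ZMod 4, z = a * x + b * (-y) ∧ w = a * y + b * (x - y) := by decide +kernel
  have d2 : ∀ x y z w : ZMod 4, ¬ (x = 0 ∧ y = 0) → (2 * z = 0 ∧ 2 * w = 0) →
      ∃ a b : ZMod 4, z = a * x + b * (-y) ∧ w = a * y + b * (x - y) := by decide +kernel
  have c0 : Nat.card (⊥ : AddSubgroup (ZMod 4 × ZMod 4)) = 1 := AddSubgroup.card_bot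
  have c2 : Nat.card (⊤ : AddSubgroup (ZMod 4 × ZMod 4)) = 16 := by
    rw [AddSubgroup.card_top, Nat.card_prod, Nat.card_zmod]
  have n1 : (⊥ : AddSubgroup (ZMod 4 × ZMod 4)) ≠ Wm_two := fun e => by
    have := Wm_card_two
    rw [← e, c0] at this
    omega
  have n2 : (⊥ : AddSubgroup (ZMod 4 × ZMod 4)) ≠ ⊤ := fun e => by
    rw [← e, c0] at c2
    omega
  have n3 : Wm_two ≠ ⊤ := fun e => by
    rw [← e, Wm_card_two] at c2
    omega
  rw [DW, awt_eq_sum ({⊥, Wm_two, ⊤} : Finset (AddSubgroup (ZMod 4 × ZMod 4))),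
    Finset.sum_insert (by simp only [Finset.mem_insert, Finset.mem_singleton]; tauto),
    Finset.sum_pair n3, c0, Wm_card_two, c2]
  · rfl
  intro H
  simp only [Finset.mem_insert, Finset.mem_singleton]
  constructor
  · rintro (rfl | rfl | rfl) x hx
    · rw [AddSubgroup.mem_bot] at hx ⊢
      rw [hx, map_zero]
    · rw [Wm_mem_two] at hx ⊢
      simp only [rot_apply]
      exact ⟨by linear_combination -hx.2, by linear_combination hx.1 - hx.2⟩
    · trivial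
  · intro hH
    by_cases h : H = ⊥
    · exact Or.inl h
    right
    by_cases h2 : H ≤ Wm_two
    · left
      refine le_antisymm h2 ?_
      obtain ⟨⟨⟨x, y⟩, hx⟩, hne⟩ := (AddSubgroup.ne_bot_iff_exists_ne_zero).1 h
      rintro ⟨z, w⟩ hz
      obtain ⟨a, b, rfl, rfl⟩ := d2 x y z w (fun e => hne (Subtype.ext (Prod.ext e.1 e.2)))
        ((Wm_mem_two _).1 hz)
      exact Wm_gen H hH hx a b
    · right
      obtain ⟨⟨x, y⟩, hx, hne⟩ := SetLike.not_le_iff_exists.1 h2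
      rw [eq_top_iff]
      rintro ⟨z, w⟩ -
      obtain ⟨a, b, rfl, rfl⟩ := d1 x y z w (fun e => hne ((Wm_mem_two _).2 e))
      exact Wm_gen H hH hx a b

lemma Wm_awt {G H : Type} [AddGroup G] [AddGroup H] [Finite G] [Finite H]
    {q : AddSubgroup (G × H) → Prop} {q₁ : AddSubgroup G → Prop} {q₂ : AddSubgroup H → Prop}
    (h : ∀ N, q N → (N.comap (AddMonoidHom.inl G H)).prod (N.comap (AddMonoidHom.inr G H)) = N)
    (hq : ∀ A B, q (A.prod B) ↔ q₁ A ∧ q₂ B) : awt q = awt q₁ * awt q₂ := by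
  classical
  have := Fintype.ofFinite (AddSubgroup G)
  have := Fintype.ofFinite (AddSubgroup H)
  rw [awt_eq_sum (Finset.univ.filter q₁) (by simp), awt_eq_sum (Finset.univ.filter q₂) (by simp),
    awt_eq_sum ((Finset.univ.filter q₁ ×ˢ Finset.univ.filter q₂).image fun x => x.1.prod x.2),
    Finset.sum_image, Finset.sum_mul_sum, Finset.sum_product]
  · refine Finset.sum_congr rfl fun A _ => Finset.sum_congr rfl fun B _ => ?_
    rw [Nat.card_congr (A.prodEquiv B).toEquiv, Nat.card_prod]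
  · rintro ⟨A, B⟩ - ⟨A', B'⟩ - e
    have e' : ∀ a b, a ∈ A ∧ b ∈ B ↔ a ∈ A' ∧ b ∈ B' := fun a b => SetLike.ext_iff.1 e (a, b)
    exact Prod.ext (AddSubgroup.ext fun a => by simpa using e' a 0)
      (AddSubgroup.ext fun b => by simpa using e' 0 b)
  · intro N
    simp only [Finset.mem_image, Finset.mem_product, Finset.mem_filter, Finset.mem_univ, true_and]
    refine ⟨fun ⟨x, hx, e⟩ => e ▸ (hq _ _).2 hx, fun hN => ⟨(_, _), ?_, h N hN⟩⟩
    exact (hq _ _).1 ((h N hN).symm ▸ hN)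

lemma Wm_split (H : AddSubgroup (ZMod 13 × ZMod 169))
    (hH : ∀ x ∈ H, ((mu 13 3).prodMap (mu 169 22)) x ∈ H) :
    (H.comap (AddMonoidHom.inl _ _)).prod (H.comap (AddMonoidHom.inr _ _)) = H := by
  ext ⟨x, y⟩
  change (((x, 0) : ZMod 13 × ZMod 169) ∈ H ∧ ((0, y) : ZMod 13 × ZMod 169) ∈ H) ↔ _
  refine ⟨fun ⟨h1, h2⟩ => by simpa using H.add_mem h1 h2, fun h => ?_⟩
  have h1 : ((3 * x, 22 * y) : ZMod 13 × ZMod 169) ∈ H := hH _ h
  have e13 : (13 : ZMod 13) = 0 := rfl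
  have h2 : ((x, 0) : ZMod 13 × ZMod 169) ∈ H := by
    have := H.nsmul_mem (H.sub_mem h1 (H.nsmul_mem h 22)) 2
    refine (congrArg (· ∈ H) ?_).mp this
    ext
    · change (2 : ℕ) • (3 * x - (22 : ℕ) • x) = x
      simp only [nsmul_eq_mul, Nat.cast_ofNat]
      linear_combination (-3 * x) * e13
    · change (2 : ℕ) • (22 * y - (22 : ℕ) • y) = 0
      simp only [nsmul_eq_mul, Nat.cast_ofNat]
      ring
  exact ⟨h2, by simpa using H.sub_mem h h2⟩

theorem DW_thirteen : DW ((mu 13 3).prodMap (mu 169 22)) = 14 * 183 := by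
  have h : DW ((mu 13 3).prodMap (mu 169 22)) = DW (mu 13 3) * DW (mu 169 22) := by
    refine Wm_awt Wm_split fun A B => ⟨fun hn => ⟨fun a ha => ?_, fun b hb => ?_⟩,
      fun ⟨h1, h2⟩ x hx => ⟨h1 _ hx.1, h2 _ hx.2⟩⟩
    · exact (hn (a, 0) ⟨ha, zero_mem _⟩).1
    · exact (hn (0, b) ⟨zero_mem _, hb⟩).2
  rw [h, DW_mu 13 (by norm_num), DW_mu 169 (by norm_num)]
  decide +kernel

end Pool.Agent.Lib.MP_c05f82_nt.LG
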