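import Pool.Agent.Lib.MP_c05f82_nt.LG.Tow
import Pool.Agent.Lib.MP_c05f82_nt.LG.Quot
import Pool.Agent.Lib.MP_c05f82_nt.LG.Lat2
import Pool.Agent.Lib.MP_c05f82_nt.LG.DtEx
import Pool.Agent.Lib.MP_c05f82_nt.LG.Glue4
import Pool.Agent.Lib.MP_c05f82_nt.LG.Glue5
import Pool.Agent.Lib.MP_c05f82_nt.LG.Fpf
import Pool.Agent.Lib.MP_c05f82_nt.LG.Wm
import Pool.Agent.Lib.MP_c05f82_nt.LG.Cof

/-!
Assembly of the infinite family.
-/

namespace Pool.Agent.Lib.MP_c05f82_nt.LG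

open Pool.Agent.Lib.MP_c05f82_nt.GC

theorem exists_B (m : ℕ) (hm : 0 < m) : ∃ (B : Type) (_ : Group B) (g : ℕ),
    342 * g + 1 = 343 * 343 ^ (7 * m) ∧ Nonempty (BD B (343 ^ (7 * m)) g) := by
  obtain ⟨K, _, D, rfl⟩ := exists_dt m hm
  obtain ⟨B, _, T, R⟩ := (Cv.tower D).exists_red
  exact ⟨B, inferInstance, R.exists_BD⟩

/-- a finite module with its order and its sum -/
def Md (n d : ℕ) : Prop := ∃ (W : Type) (_ : AddCommGroup W) (_ : Finite W) (ω : W →+ W),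
  Eis ω ∧ Nat.card W = n ∧ DW ω = d

lemma Md.mul {n d n' d' : ℕ} (h : Md n d) (h' : Md n' d') (hc : n.Coprime n') :
    Md (n * n') (d * d') := by
  obtain ⟨W, _, _, ω, e, rfl, rfl⟩ := h
  obtain ⟨W', _, _, ω', e', rfl, rfl⟩ := h'
  exact ⟨W × W', inferInstance, inferInstance, ω.prodMap ω', e.prod e', Nat.card_prod _ _,
    DW_prod ω ω' hc⟩

lemma md_mu (n : ℕ) [NeZero n] (k : ZMod n) (hk : k * k + k + 1 = 0) (l : ℕ)
    (hl : (l : ZMod n) * 3 = 1) : Md n (∑ d ∈ n.divisors, d) :=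
  ⟨ZMod n, inferInstance, inferInstance, mu n k, eis_mu n k hk l hl, Nat.card_zmod n,
    DW_mu n (NeZero.ne n) k⟩

lemma md_853 : Md 853 854 := by
  have h : ∑ d ∈ Nat.divisors 853, d = 854 := (show Nat.Prime 853 by norm_num).sum_divisors
  exact h ▸ md_mu 853 220 (by decide) 569 (by decide)

lemma md_97 : Md 97 98 := by
  have h : ∑ d ∈ Nat.divisors 97, d = 98 := (show Nat.Prime 97 by norm_num).sum_divisors
  exact h ▸ md_mu 97 35 (by decide) 65 (by decide)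

lemma md_3721 : Md 3721 3783 := by
  have h : ∑ d ∈ Nat.divisors (61 ^ 2), d = 3783 := by
    rw [Nat.sum_divisors_prime_pow (by norm_num)]
    simp [Finset.sum_range_succ]
  exact h ▸ md_mu 3721 1660 (by decide) 2481 (by decide)

lemma md_2197 : Md 2197 (14 * 183) :=
  ⟨ZMod 13 × ZMod 169, inferInstance, inferInstance, _,
    (eis_mu 13 3 (by decide) 9 (by decide)).prod (eis_mu 169 22 (by decide) 113 (by decide)),
    by simp, DW_thirteen⟩

lemma md_16 : Md 16 21 :=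
  ⟨ZMod 4 × ZMod 4, inferInstance, inferInstance, _, eis_rot 4 3 (by decide), by simp,
    DW_rot_four⟩

lemma md_all : Md (853 * 3721 * 97 * 2197 * 16) (854 * 3783 * 98 * (14 * 183) * 21) :=
  (((md_853.mul md_3721 (by norm_num)).mul md_97 (by norm_num)).mul md_2197
    (by norm_num)).mul md_16 (by norm_num)

theorem exists_core (m : ℕ) (hm : 0 < m) : ∃ n d, 343 ^ (7 * m) ≤ n ∧
    Atom n d (27 * 2401 * (14 * 343 ^ (7 * m))) ∧ 133068 * d = 236017 * n := by
  obtain ⟨B, _, g, hg, ⟨D⟩⟩ := exists_B m hm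
  obtain ⟨W, _, _, ω, e, cW, dW⟩ := md_all
  have hA : (343 ^ (7 * m)).Coprime 3 := Nat.Coprime.pow_left _ (by norm_num)
  have := GQ.finite D
  have h := atom_fpf ω e (GQ D) (GQ.ch D) (GQ.q0 D) (GQ.ch_q0 D) 7 (by rw [cW]; norm_num)
    (GQ.comm_q0 D) _ (GQ.cenExp D hA)
  rw [GQ.wt_in D hA, GQ.wt_out D hA, GQ.card D, cW, dW] at h
  exact ⟨_, _, by omega, h, by omega⟩

theorem exists_group (m : ℕ) (hm : 0 < m) : ∃ (G : Type) (_ : Group G) (_ : Finite G),
    343 ^ (7 * m) ≤ Nat.card G ∧ DD G = 2 * Nat.card G := by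
  obtain ⟨n, d, hn, h, e⟩ := exists_core m hm
  obtain ⟨n', d', k, h', e', hk⟩ := exists_cofactor
  have k2 : k.Coprime 2 := hk.coprime_dvd_right (by norm_num)
  have k3 : k.Coprime 3 := hk.coprime_dvd_right (by norm_num)
  have k7 : k.Coprime 7 := hk.coprime_dvd_right (by norm_num)
  have hc : (27 * 2401 * (14 * 343 ^ (7 * m))).Coprime k :=
    (((k3.pow_right 3).mul_right (k7.pow_right 4)).mul_right ((k2.mul_right k7).mul_right
      ((k7.pow_right 3).pow_right _))).symm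
  have hn' : 0 < n' := by
    obtain ⟨G, _, _, rfl, -⟩ := h'
    exact Nat.card_pos
  obtain ⟨G, _, _, cG, dG, -⟩ := h.mul h' hc
  refine ⟨G, inferInstance, inferInstance, ?_, ?_⟩
  · rw [cG]; exact hn.trans (Nat.le_mul_of_pos_right _ hn')
  · rw [cG, dG]
    refine Nat.eq_of_mul_eq_mul_left (show 0 < 133068 * 236017 by norm_num) ?_
    calc 133068 * 236017 * (d * d') = 133068 * d * (236017 * d') := by ring
      _ = _ := by rw [e, e']; ring

end Pool.Agent.Lib.MP_c05f82_nt.LG
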