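import Pool.Agent.Lib.MP_c05f82_nt.LG.Defs
import Pool.Agent.Lib.MP_c05f82_nt.GC.Sym1

/-!
If the carry cocycle is a coboundary then the base is a norm.
-/

open scoped commutatorElement

namespace Pool.Agent.Lib.MP_c05f82_nt.LG

open Pool.Agent.Lib.MP_c05f82_nt.GC

theorem norm_of_cob7 {K Ω : Type} [Field K] [Field Ω] [Algebra K Ω] [IsGalois K Ω]
    (ζ : K) (hζ : IsPrimitiveRoot ζ 7) (u p : K) (hu : u ≠ 0)
    (α : Ω) (hα : α ^ 7 = algebraMap K Ω u) (χ : (Ω ≃ₐ[K] Ω) → ZMod 7)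
    (hχ : ∀ σ : Ω ≃ₐ[K] Ω, σ α = algebraMap K Ω ζ ^ (χ σ).val * α)
    (T : Finset Ω) (c : (Ω ≃ₐ[K] Ω) → Ω) (h0 : ∀ σ, c σ ≠ 0)
    (h1 : ∀ h : Ω ≃ₐ[K] Ω, (∀ y ∈ T, h y = y) → c h = 1)
    (hc : ∀ σ τ : Ω ≃ₐ[K] Ω, c σ * σ (c τ) =
      algebraMap K Ω p ^ (((χ σ).val + (χ τ).val) / 7) * c (σ * τ)) : ¬ NoNorm Ω ζ u p := by
  intro hN
  have hinj := (algebraMap K Ω).injective
  have hz : IsPrimitiveRoot (algebraMap K Ω ζ) 7 := hζ.map_of_injective hinj
  have hzf : ∀ σ : Ω ≃ₐ[K] Ω, σ (algebraMap K Ω ζ) = algebraMap K Ω ζ := fun σ => σ.commutes ζ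
  obtain ⟨⟨σ₀, hσ₀⟩, hN⟩ := hN α hα
  generalize algebraMap K Ω ζ = z at hz hzf hχ hN
  have zinj : ∀ a b : ZMod 7, z ^ a.val = z ^ b.val → a = b := fun a b h =>
    ZMod.val_injective 7 (hz.pow_inj (ZMod.val_lt a) (ZMod.val_lt b) h)
  have α0 : α ≠ 0 := fun e => hu (hinj (by rw [← hα, e, map_zero]; simp))
  have hadd : ∀ σ τ, χ (σ * τ) = χ σ + χ τ := by
    intro σ τ
    apply zinj
    apply mul_right_cancel₀ α0
    rw [← hχ, AlgEquiv.mul_apply, hχ τ, map_mul, map_pow, hzf, hχ σ, ZMod.val_add,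
      ← pow_eq_pow_mod _ hz.pow_eq_one]
    ring
  have hone : χ 1 = 0 := by
    have := hadd 1 1
    rw [mul_one] at this
    linear_combination -this
  have hinv : ∀ σ, χ σ⁻¹ = -χ σ := fun σ => by
    have := hadd σ σ⁻¹
    rw [mul_inv_cancel, hone] at this
    linear_combination -this
  have hpow : ∀ σ (k : ℕ), χ (σ ^ k) = k * χ σ := fun σ k => by
    induction k with
    | zero => simp [hone]
    | succ k ih => rw [pow_succ, hadd, ih]; push_cast; ring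
  let H : Subgroup (Ω ≃ₐ[K] Ω) :=
    { carrier := {σ | χ σ = 0}
      mul_mem' := fun {a b} ha hb => by
        change χ (a * b) = 0
        rw [hadd, show χ a = 0 from ha, show χ b = 0 from hb, add_zero]
      one_mem' := hone
      inv_mem' := fun {a} ha => by
        change χ a⁻¹ = 0
        rw [hinv, show χ a = 0 from ha, neg_zero] }
  obtain ⟨b, b0, hb⟩ := h90 H T c h0 h1 (fun σ hσ τ hτ => by
    have := hc σ τ
    rw [show χ σ = 0 from hσ, show χ τ = 0 from hτ] at this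
    simpa using this.symm)
  obtain ⟨d, hd1, hd⟩ : ∃ d : (Ω ≃ₐ[K] Ω) → Ω, (∀ h, χ h = 0 → d h = 1) ∧
      ∀ σ τ : Ω ≃ₐ[K] Ω, d σ * σ (d τ) =
        algebraMap K Ω p ^ (((χ σ).val + (χ τ).val) / 7) * d (σ * τ) := by
    refine ⟨fun σ => c σ * σ b / b, fun h hh => ?_, fun σ τ => ?_⟩
    · simp only
      rw [hb h hh, div_self b0]
    · have sb : σ b ≠ 0 := by simpa using b0
      simp only [map_div₀, map_mul, AlgEquiv.mul_apply]
      field_simp
      linear_combination σ (τ b) * hc σ τ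
  obtain ⟨s, hs⟩ : ∃ s, χ s = 1 := by
    have n0 : χ σ₀ ≠ 0 := fun e => hσ₀ (by rw [hχ, e]; simp)
    have : ∀ a : ZMod 7, a ≠ 0 → ∃ k : ZMod 7, k * a = 1 := by decide
    obtain ⟨k, hk⟩ := this _ n0
    exact ⟨σ₀ ^ k.val, by rw [hpow, ZMod.natCast_zmod_val, hk]⟩
  have conj : ∀ h, χ h = 0 → χ (s⁻¹ * h * s) = 0 := fun h hh => by
    rw [hadd, hadd, hinv, hh]; ring
  have v1 : (1 : ZMod 7).val = 1 := by decide
  have f0 : ∀ h : Ω ≃ₐ[K] Ω, χ h = 0 → h (d s) = d s := by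
    intro h hh
    have e : h * s = s * (s⁻¹ * h * s) := by group
    have a1 := hd h s
    have a2 := hd s (s⁻¹ * h * s)
    rw [hd1 h hh, hh, hs, v1] at a1
    rw [hd1 _ (conj h hh), conj h hh, hs, v1, ← e] at a2
    simp only [ZMod.val_zero, map_one, one_mul, mul_one, zero_add, add_zero, Nat.reduceDiv,
      pow_zero] at a1 a2
    rw [a1, a2]
  have hv : ∀ k : ℕ, k < 7 → (χ (s ^ k)).val = k := fun k hk => by
    rw [hpow, hs, mul_one, ZMod.val_natCast_of_lt hk]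
  have ind : ∀ k : ℕ, k < 7 → ∏ i ∈ Finset.range k, (s ^ i) (d s) = d (s ^ k) := by
    intro k hk
    induction k with
    | zero => rw [Finset.range_zero, Finset.prod_empty, pow_zero, hd1 1 hone]
    | succ k ih =>
      rw [Finset.prod_range_succ, ih (by omega), hd, hv k (by omega), hs, v1,
        Nat.div_eq_of_lt hk, pow_zero, one_mul, pow_succ]
  refine hN s (d s) (by rw [hχ, hs, v1, pow_one]) (fun h hh => f0 h (zinj _ _ ?_)) ?_
  · apply mul_right_cancel₀ α0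
    rw [← hχ, hh, ZMod.val_zero, pow_zero, one_mul]
  · rw [Finset.prod_range_succ, ind 6 (by omega), hd, hv 6 (by omega), hs, v1, ← pow_succ,
      hd1 (s ^ (6 + 1)) (by rw [hpow, hs]; decide)]
    simp

end Pool.Agent.Lib.MP_c05f82_nt.LG
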