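import Pool.Agent.Lib.MP_c05f82_nt.LG.Bot

/-!
The congruence filtration of the cover.
-/

open scoped commutatorElement

namespace Pool.Agent.Lib.MP_c05f82_nt.LG

open Pool.Agent.Lib.MP_c05f82_nt.GC

variable {K : Type} [Field K]

namespace Cv

variable (D : Dt K)

/-- congruence subgroups -/
def Gg (j : ℕ) : Subgroup (Cv D) where
  carrier := {x | D.Gm j x.g}
  mul_mem' := fun hx hy => Dt.Gm.mul hx hy
  one_mem' := Dt.Gm.one _
  inv_mem' := fun hx => Dt.Gm.inv hx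

variable {D}

lemma mem_Gg {j : ℕ} {x : Cv D} : x ∈ Gg D j ↔ D.Gm j x.g := Iff.rfl

lemma lead_eM (j : ℕ) : D.lead j (SL.eM (D.p ^ j)) = (0, 1, 0) := by
  simp [Dt.lead, Dt.co_zero, Dt.co_pow]

lemma key' {j : ℕ} (hj : j + 1 = 7 * D.m) {x : Cv D} (hx : D.Gm j x.g)
    (h : D.lead j x.g = (0, 1, 0)) : ⁅x, F D D.p⁆ ∉ S D := by
  have h1 : 1 ≤ j := by have := D.m_pos; omega
  have hE : D.Gm j (E D (D.p ^ j)).g := Dt.Gm_eM (Dt.L.pow j)
  have hp : D.Gm 0 (F D D.p).g := Dt.Gm_fM (Dt.L_zero.2 D.p_mem)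
  have hu : D.Gm j (x⁻¹ * E D (D.p ^ j)).g := Dt.Gm.mul hx.inv hE
  have e := Dt.lead_mul h1 hx hu
  rw [← mul_g, mul_inv_cancel_left, E_g, lead_eM, h, left_eq_add, Dt.lead_eq_zero h1 hu, hj] at e
  intro hS
  apply key hj
  have := mul_mem (conj_S (hx.mono (Nat.zero_le _)) (comm_S e hp)) hS
  convert this using 1
  simp only [commutatorElement_def]
  group

variable (D)

/-- the filtration -/
noncomputable def tower : Tw (Cv D) (7 * D.m) where
  G := Gg D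
  S := S D
  zc := zc D
  io := io D
  rho x := D.red x.g
  lam j x := D.lead j x.g
  two_le := by have := D.m_pos; omega
  anti j _ x hx := Dt.Gm.mono hx (by omega)
  conj j _ x hx g hg := Dt.Gm.conj hx hg
  S_le x hx := hx.1
  S_conj x hx g hg := conj_S hg hx
  zc_add := zc_add D
  zc_mem k := Dt.Gm.one _
  zc_comm := zc_comm D
  exists_z x hx := exists_z hx
  z_S k hk := hk.2.trans Dt.s1_one
  io_mem := Dt.Gm.neg1
  io_comm := io_comm D
  io_sq := io_sq D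
  rho_io := Dt.red_neg1
  rho_mul x hx y hy := Dt.red_mul hx hy
  rho_ker x hx := Dt.red_eq_one hx
  rho_surj s := by
    obtain ⟨x, hx, e⟩ := Dt.red_surj (D := D) s
    exact ⟨⟨x, 0⟩, hx, e⟩
  lam_mul j hj _ x hx y hy := Dt.lead_mul hj hx hy
  lam_ker j hj _ x hx := Dt.lead_eq_zero hj hx
  lam_surj j hj _ u := by
    obtain ⟨x, hx, e⟩ := Dt.lead_surj (D := D) hj u
    exact ⟨⟨x, 0⟩, hx, e⟩
  lam_conj j hj _ x hx g hg := Dt.lead_conj hj hx hg
  step j hj _ x hx h := ⟨F D D.p, Dt.Gm_fM (Dt.L_zero.2 D.p_mem), Dt.lead_step hj hx h⟩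
  key j hj x hx h := ⟨F D D.p, Dt.Gm_fM (Dt.L_zero.2 D.p_mem),
    hj ▸ (Dt.lead_step (by have := D.m_pos; omega) hx h).1, key' hj hx h⟩

end Cv

end Pool.Agent.Lib.MP_c05f82_nt.LG
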